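import Mathlib
import Pool.Agent.Run7.h402.PX.X7
import Pool.Agent.Run7.h402.PW.W6

/-!
# Products of local factors with at most `K` excluded classes
-/

set_option autoImplicit false

open Finset
open Filter (Tendsto atTop)
open scoped Topology

namespace Run7.h402.PD

open Run7.h402.PX (Wm Wm_le prod_mono_one)
open Run7.h402.PW (one_sub_sum_le card_pf)
open Pool.Agent.H373R2.T7

noncomputable section

/-- one factor -/
def lf (K : ℕ) (ν : ℕ → ℕ) (p : ℕ) : ℝ := (1 - (ν p : ℝ) / p) / (1 - 1 / (p : ℝ)) ^ K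

/-- the partial products -/
def lS (K : ℕ) (ν : ℕ → ℕ) (z : ℕ) : ℝ := ∏ p ∈ pz z, lf K ν p

theorem lS_eq (K : ℕ) (ν : ℕ → ℕ) (z : ℕ) : lS K ν z = (Vz z)⁻¹ ^ K * ∏ p ∈ pz z, (1 - (ν p : ℝ) / p) := by
  unfold lS lf Vz
  rw [prod_div_distrib, prod_pow, div_eq_mul_inv, mul_comm, inv_pow]

theorem lf_nonneg (K : ℕ) (ν : ℕ → ℕ) (p : ℕ) (hp : p.Prime) (h : ν p ≤ p) : 0 ≤ lf K ν p := by
  have hp2 : (2 : ℝ) ≤ p := by exact_mod_cast hp.two_le
  unfold lf
  apply div_nonneg
  · have h1 : (ν p : ℝ) ≤ p := by exact_mod_cast h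
    have h2 : (ν p : ℝ) / p ≤ 1 := by
      rw [div_le_one (by linarith)]
      exact h1
    linarith
  · apply pow_nonneg
    have : 1 / (p : ℝ) ≤ 1 := by
      rw [div_le_one (by linarith)]
      linarith
    linarith

theorem lS_nonneg (K : ℕ) (ν : ℕ → ℕ) (h : ∀ p, p.Prime → ν p ≤ p) (z : ℕ) : 0 ≤ lS K ν z :=
  prod_nonneg fun p hp => lf_nonneg K ν p (mem_pz.1 hp).2 (h p (mem_pz.1 hp).2)

theorem lf_low (K : ℕ) (ν : ℕ → ℕ) (p : ℕ) (hp : p.Prime) (hK : 2 * K ≤ p) (hν : ν p ≤ K) : 1 - (K : ℝ) ^ 2 / (p : ℝ) ^ 2 ≤ lf K ν p := by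
  have hp2 : (2 : ℝ) ≤ p := by exact_mod_cast hp.two_le
  have hp0 : (0 : ℝ) < p := by linarith
  set x : ℝ := 1 / (p : ℝ) with hx
  have hx0 : 0 < x := by positivity
  have hx1 : x ≤ 1 / 2 := by
    rw [hx]
    exact one_div_le_one_div_of_le (by norm_num) hp2
  have hKx : (K : ℝ) * x ≤ 1 / 2 := by
    have h1 : 2 * (K : ℝ) ≤ p := by exact_mod_cast hK
    rw [hx, mul_one_div, div_le_iff₀ hp0]
    linarith
  have hnu : (ν p : ℝ) ≤ K := by exact_mod_cast hν
  unfold lf
  rw [le_div_iff₀ (by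
    apply pow_pos
    linarith)]
  have h1 : (1 - x) ^ K * (1 + K * x) ≤ 1 := by
    have h2 : 1 + (K : ℝ) * x ≤ (1 + x) ^ K := one_add_mul_le_pow (by linarith) K
    calc (1 - x) ^ K * (1 + K * x) ≤ (1 - x) ^ K * (1 + x) ^ K := by
          apply mul_le_mul_of_nonneg_left h2
          apply pow_nonneg
          linarith
      _ = (1 - x ^ 2) ^ K := by rw [← mul_pow]; congr 1; ring
      _ ≤ 1 := pow_le_one₀ (by nlinarith) (by nlinarith)
  have e : (1 : ℝ) - (K : ℝ) ^ 2 / (p : ℝ) ^ 2 = (1 - K * x) * (1 + K * x) := by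
    rw [hx]; field_simp; ring
  rw [e]
  calc (1 - K * x) * (1 + K * x) * (1 - x) ^ K = (1 - K * x) * ((1 - x) ^ K * (1 + K * x)) := by ring
    _ ≤ (1 - K * x) * 1 := by
        apply mul_le_mul_of_nonneg_left h1
        linarith
    _ = 1 - K * x := mul_one _
    _ ≤ 1 - (ν p : ℝ) / p := by
        have : (ν p : ℝ) / p ≤ K * x := by
          rw [hx, mul_one_div]
          gcongr
        linarith

theorem lf_up (K : ℕ) (ν : ℕ → ℕ) (p : ℕ) (hp : p.Prime) (hK : 2 * K ≤ p) : lf K ν p ≤ 1 + 2 * K / (p : ℝ) := by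
  have hp2 : (2 : ℝ) ≤ p := by exact_mod_cast hp.two_le
  have hp0 : (0 : ℝ) < p := by linarith
  set x : ℝ := 1 / (p : ℝ) with hx
  have hx0 : 0 < x := by positivity
  have hx1 : x ≤ 1 / 2 := by
    rw [hx]
    exact one_div_le_one_div_of_le (by norm_num) hp2
  have hKx : (K : ℝ) * x ≤ 1 / 2 := by
    have h1 : 2 * (K : ℝ) ≤ p := by exact_mod_cast hK
    rw [hx, mul_one_div, div_le_iff₀ hp0]
    linarith
  have hKx0 : 0 ≤ (K : ℝ) * x := by positivity
  unfold lf
  rw [div_le_iff₀ (by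
    apply pow_pos
    linarith)]
  have h1 : 1 - (K : ℝ) * x ≤ (1 - x) ^ K := by
    have := one_add_mul_le_pow (show -2 ≤ -x by linarith) K
    have e : 1 + (K : ℝ) * -x = 1 - K * x := by ring
    rw [e] at this
    have e2 : 1 + -x = 1 - x := by ring
    rwa [e2] at this
  have h2 : 0 ≤ (ν p : ℝ) / p := by positivity
  have e3 : 2 * (K : ℝ) / p = 2 * (K * x) := by
    rw [hx]; ring
  rw [e3]
  calc 1 - (ν p : ℝ) / p ≤ 1 := by linarith
    _ ≤ (1 + 2 * (K * x)) * (1 - K * x) := by nlinarith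
    _ ≤ (1 + 2 * (K * x)) * (1 - x) ^ K := by
        apply mul_le_mul_of_nonneg_left h1
        linarith

theorem lf_le_one (K : ℕ) (ν : ℕ → ℕ) (p : ℕ) (hp : p.Prime) (h : ν p = K) : lf K ν p ≤ 1 := by
  have hp2 : (2 : ℝ) ≤ p := by exact_mod_cast hp.two_le
  have hp0 : (0 : ℝ) < p := by linarith
  have hx1 : 1 / (p : ℝ) ≤ 1 / 2 := one_div_le_one_div_of_le (by norm_num) hp2
  have hx0 : 0 < 1 / (p : ℝ) := by positivity
  unfold lf
  rw [h, div_le_one (by
    apply pow_pos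
    linarith)]
  have := one_add_mul_le_pow (show -2 ≤ -(1 / (p : ℝ)) by linarith) K
  have e : 1 + (K : ℝ) * -(1 / (p : ℝ)) = 1 - K / p := by ring
  rw [e] at this
  have e2 : 1 + -(1 / (p : ℝ)) = 1 - 1 / p := by ring
  rwa [e2] at this

theorem lf_low_small (K : ℕ) (ν : ℕ → ℕ) (p : ℕ) (hp : p.Prime) (h : ν p < p) : 1 / (p : ℝ) ≤ lf K ν p := by
  have hp2 : (2 : ℝ) ≤ p := by exact_mod_cast hp.two_le
  have hp0 : (0 : ℝ) < p := by linarith
  have h2 : (ν p : ℝ) + 1 ≤ p := by exact_mod_cast h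
  have h3 : 1 / (p : ℝ) ≤ 1 - (ν p : ℝ) / p := by
    have h6 : 1 - (ν p : ℝ) / p - 1 / p = (p - (ν p + 1)) / p := by field_simp; ring
    have h7 : 0 ≤ ((p : ℝ) - (ν p + 1)) / p := div_nonneg (by linarith) hp0.le
    linarith
  unfold lf
  have hx1 : 1 / (p : ℝ) ≤ 1 / 2 := one_div_le_one_div_of_le (by norm_num) hp2
  have hx0 : 0 < 1 / (p : ℝ) := by positivity
  have h4 : 0 < (1 - 1 / (p : ℝ)) ^ K := by
    apply pow_pos
    linarith
  have h5 : (1 - 1 / (p : ℝ)) ^ K ≤ 1 := pow_le_one₀ (by linarith) (by linarith)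
  rw [le_div_iff₀ h4]
  calc 1 / (p : ℝ) * (1 - 1 / (p : ℝ)) ^ K ≤ 1 / (p : ℝ) * 1 := by gcongr
    _ ≤ _ := by rw [mul_one]; exact h3

/-- the lower bound for the partial products -/
theorem lS_low {K : ℕ} (hK : 1 ≤ K) (ν : ℕ → ℕ) (hν : ∀ p, p.Prime → ν p < p) (hνK : ∀ p, p.Prime → ν p ≤ K) (z : ℕ) :
    Real.exp (-(5 * (K : ℝ))) ≤ lS K ν z := by
  have hKr : (1 : ℝ) ≤ K := by exact_mod_cast hK
  unfold lS
  rw [← prod_filter_mul_prod_filter_not (pz z) (fun p => p ≤ 2 * K)]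
  have h1 : Real.exp (-(3 * (K : ℝ))) ≤ ∏ p ∈ (pz z).filter (fun p => p ≤ 2 * K), lf K ν p := by
    have h2 : ∏ p ∈ (pz z).filter (fun p => p ≤ 2 * K), (1 / (p : ℝ)) ≤ ∏ p ∈ (pz z).filter (fun p => p ≤ 2 * K), lf K ν p := by
      apply prod_le_prod
      · intro p _
        positivity
      · intro p hp
        rw [mem_filter, mem_pz] at hp
        exact lf_low_small K ν p hp.1.2 (hν p hp.1.2)
    refine le_trans ?_ h2
    have h3 : ∏ p ∈ (pz z).filter (fun p => p ≤ 2 * K), (1 / (p : ℝ)) = 1 / ∏ p ∈ (pz z).filter (fun p => p ≤ 2 * K), (p : ℝ) := by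
      rw [prod_div_distrib, prod_const_one]
    rw [h3]
    have h4 : ∏ p ∈ (pz z).filter (fun p => p ≤ 2 * K), (p : ℝ) ≤ Real.exp (3 * K) := by
      have h5 : ∏ p ∈ (pz z).filter (fun p => p ≤ 2 * K), (p : ℝ) ≤ ∏ p ∈ pz (2 * K), (p : ℝ) := by
        apply prod_mono_one
        · intro p hp
          rw [mem_filter, mem_pz] at hp
          exact mem_pz.2 ⟨hp.2, hp.1.2⟩
        · intro p hp
          have := (mem_pz.1 hp).2.one_lt.le
          exact_mod_cast this
      have h6 : ∏ p ∈ pz (2 * K), (p : ℝ) = (Wm (2 * K) : ℝ) := by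
        unfold Wm
        push_cast
        rfl
      have h7 : (Wm (2 * K) : ℝ) ≤ (4 : ℝ) ^ (2 * K) := by exact_mod_cast Wm_le _
      have h8 : (4 : ℝ) ^ (2 * K) = Real.exp (4 * K * Real.log 2) := by
        have e1 : (4 : ℝ) = Real.exp (2 * Real.log 2) := by
          rw [two_mul, Real.exp_add, Real.exp_log (by norm_num)]
          norm_num
        have e2 : ((2 * K : ℕ) : ℝ) * (2 * Real.log 2) = 4 * K * Real.log 2 := by
          push_cast
          ring
        calc (4 : ℝ) ^ (2 * K) = (Real.exp (2 * Real.log 2)) ^ (2 * K) := by rw [← e1]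
          _ = Real.exp (((2 * K : ℕ) : ℝ) * (2 * Real.log 2)) := (Real.exp_nat_mul _ _).symm
          _ = _ := by rw [e2]
      rw [h6] at h5
      refine h5.trans (h7.trans ?_)
      rw [h8]
      apply Real.exp_le_exp.2
      have := Real.log_two_lt_d9
      nlinarith
    have h9 : 0 < ∏ p ∈ (pz z).filter (fun p => p ≤ 2 * K), (p : ℝ) := by
      apply prod_pos
      intro p hp
      rw [mem_filter, mem_pz] at hp
      exact_mod_cast hp.1.2.pos
    rw [Real.exp_neg, ← one_div]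
    exact one_div_le_one_div_of_le h9 h4
  have h2 : Real.exp (-(2 * (K : ℝ))) ≤ ∏ p ∈ (pz z).filter (fun p => ¬ p ≤ 2 * K), lf K ν p := by
    have h3 : ∏ p ∈ (pz z).filter (fun p => ¬ p ≤ 2 * K), Real.exp (-(2 * ((K : ℝ) ^ 2 * ((p : ℝ) ^ 2)⁻¹))) ≤
        ∏ p ∈ (pz z).filter (fun p => ¬ p ≤ 2 * K), lf K ν p := by
      apply prod_le_prod
      · intro p _
        exact (Real.exp_pos _).le
      · intro p hp
        rw [mem_filter, mem_pz] at hp
        have hp0 : (0 : ℝ) < p := by exact_mod_cast hp.1.2.pos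
        refine le_trans ?_ (lf_low K ν p hp.1.2 (by omega) (hνK p hp.1.2))
        set x : ℝ := (K : ℝ) ^ 2 * ((p : ℝ) ^ 2)⁻¹ with hx
        have e1 : (K : ℝ) ^ 2 / (p : ℝ) ^ 2 = x := by rw [hx, div_eq_mul_inv]
        rw [e1]
        have hx0 : 0 ≤ x := by positivity
        have hx1 : x ≤ 1 / 2 := by
          rw [← e1, div_le_iff₀ (by positivity)]
          have : (2 * K : ℝ) ≤ p := by
            have := hp.2
            exact_mod_cast (by omega : 2 * K ≤ p)
          nlinarith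
        have h4 : Real.exp (2 * x) * (1 - x) ≥ 1 := by
          have h5 := Real.add_one_le_exp (2 * x)
          nlinarith
        rw [Real.exp_neg, inv_le_iff_one_le_mul₀ (Real.exp_pos _), mul_comm]
        exact h4
    refine le_trans ?_ h3
    rw [← Real.exp_sum]
    apply Real.exp_le_exp.2
    rw [sum_neg_distrib, neg_le_neg_iff, ← mul_sum, ← mul_sum]
    have h4 : ∑ p ∈ (pz z).filter (fun p => ¬ p ≤ 2 * K), ((p : ℝ) ^ 2)⁻¹ ≤ ∑ p ∈ Ioc (2 * K) (max (2 * K) z), ((p : ℝ) ^ 2)⁻¹ := by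
      apply sum_le_sum_of_subset_of_nonneg
      · intro p hp
        rw [mem_filter, mem_pz] at hp
        rw [mem_Ioc]
        exact ⟨by omega, hp.1.1.trans (le_max_right _ _)⟩
      · intro p _ _
        positivity
    have h5 := sum_Ioc_inv_sq_le_sub (α := ℝ) (show 2 * K ≠ 0 by omega) (le_max_left (2 * K) z)
    have h6 : ∑ p ∈ (pz z).filter (fun p => ¬ p ≤ 2 * K), ((p : ℝ) ^ 2)⁻¹ ≤ ((2 * K : ℕ) : ℝ)⁻¹ := by
      have : 0 ≤ ((max (2 * K) z : ℕ) : ℝ)⁻¹ := by positivity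
      linarith
    calc 2 * ((K : ℝ) ^ 2 * ∑ p ∈ (pz z).filter (fun p => ¬ p ≤ 2 * K), ((p : ℝ) ^ 2)⁻¹) ≤ 2 * ((K : ℝ) ^ 2 * ((2 * K : ℕ) : ℝ)⁻¹) := by gcongr
      _ ≤ 2 * (K : ℝ) := by
          push_cast
          have : (K : ℝ) ^ 2 * (2 * (K : ℝ))⁻¹ = K / 2 := by field_simp
          rw [this]
          linarith
  calc Real.exp (-(5 * (K : ℝ))) = Real.exp (-(3 * (K : ℝ))) * Real.exp (-(2 * (K : ℝ))) := by
        rw [← Real.exp_add]; congr 1; ring
    _ ≤ _ := by
        apply mul_le_mul h1 h2 (Real.exp_pos _).le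
        exact (Real.exp_pos _).le.trans h1

/-- the tail of the product -/
theorem lS_tail {K : ℕ} (ν : ℕ → ℕ) (hν : ∀ p, p.Prime → ν p ≤ p) (hνK : ∀ p, p.Prime → ν p ≤ K) (W : Finset ℕ) (w : ℝ) (hW : (W.card : ℝ) ≤ w)
    (hWν : ∀ p, p.Prime → p ∉ W → ν p = K) (z y : ℕ) (hz1 : 1 ≤ z) (hz : 2 * K ≤ z) (hzy : z ≤ y) :
    (1 - (K : ℝ) ^ 2 / z) * lS K ν z ≤ lS K ν y ∧ lS K ν y ≤ Real.exp (2 * K * w / z) * lS K ν z := by
  have hz0 : (0 : ℝ) < z := by exact_mod_cast hz1
  have hsub : pz z ⊆ pz y := by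
    intro p hp
    rw [mem_pz] at hp ⊢
    exact ⟨hp.1.trans hzy, hp.2⟩
  have hsplit : lS K ν y = (∏ p ∈ pz y \ pz z, lf K ν p) * lS K ν z := by
    unfold lS
    exact (prod_sdiff hsub).symm
  have hmem : ∀ p ∈ pz y \ pz z, p.Prime ∧ z < p ∧ p ≤ y := by
    intro p hp
    rw [mem_sdiff, mem_pz, mem_pz] at hp
    refine ⟨hp.1.2, ?_, hp.1.1⟩
    by_contra h
    push Not at h
    exact hp.2 ⟨h, hp.1.2⟩
  rw [hsplit]
  have hS := lS_nonneg K ν hν z
  constructor
  · apply mul_le_mul_of_nonneg_right _ hS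
    have h1 := one_sub_sum_le (pz y \ pz z) (lf K ν) (fun p => (K : ℝ) ^ 2 / (p : ℝ) ^ 2)
      (fun p hp => lf_nonneg K ν p (hmem p hp).1 (hν p (hmem p hp).1))
      (fun p hp => lf_low K ν p (hmem p hp).1 (by have := (hmem p hp).2.1; omega) (hνK p (hmem p hp).1))
      (fun p _ => by positivity) (fun p hp => by
        have h2 : 2 * K ≤ p := by have := (hmem p hp).2.1; omega
        have h3 : (K : ℝ) ≤ p := by exact_mod_cast (by omega : K ≤ p)
        have h4 : (0 : ℝ) < p := by exact_mod_cast (hmem p hp).1.pos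
        rw [div_le_one (by positivity)]
        gcongr)
    refine le_trans ?_ h1
    have h2 : ∑ p ∈ pz y \ pz z, (K : ℝ) ^ 2 / (p : ℝ) ^ 2 ≤ (K : ℝ) ^ 2 / z := by
      calc ∑ p ∈ pz y \ pz z, (K : ℝ) ^ 2 / (p : ℝ) ^ 2 ≤ ∑ p ∈ Ioc z y, (K : ℝ) ^ 2 / (p : ℝ) ^ 2 := by
            apply sum_le_sum_of_subset_of_nonneg
            · intro p hp
              rw [mem_Ioc]
              exact (hmem p hp).2
            · intro p _ _
              positivity
        _ = (K : ℝ) ^ 2 * ∑ p ∈ Ioc z y, ((p : ℝ) ^ 2)⁻¹ := by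
            rw [mul_sum]
            apply sum_congr rfl
            intro p _
            rw [div_eq_mul_inv]
        _ ≤ (K : ℝ) ^ 2 * ((z : ℝ)⁻¹ - (y : ℝ)⁻¹) := by
            apply mul_le_mul_of_nonneg_left _ (by positivity)
            exact sum_Ioc_inv_sq_le_sub (by omega) hzy
        _ ≤ (K : ℝ) ^ 2 / z := by
            rw [div_eq_mul_inv]
            apply mul_le_mul_of_nonneg_left _ (by positivity)
            have : 0 ≤ (y : ℝ)⁻¹ := by positivity
            linarith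
    linarith
  · apply mul_le_mul_of_nonneg_right _ hS
    have hfac : ∀ p ∈ pz y \ pz z, lf K ν p ≤ if p ∈ W then Real.exp (2 * K / z) else 1 := by
      intro p hp
      obtain ⟨hpp, hpz, _⟩ := hmem p hp
      have hp0 : (0 : ℝ) < p := by exact_mod_cast hpp.pos
      split_ifs with hpW
      · refine (lf_up K ν p hpp (by omega)).trans ?_
        have h1 : 2 * (K : ℝ) / p ≤ 2 * K / z := by
          have h2 : (z : ℝ) ≤ p := by exact_mod_cast hpz.le
          gcongr
        have h2 := Real.add_one_le_exp (2 * (K : ℝ) / z)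
        linarith
      · exact lf_le_one K ν p hpp (hWν p hpp hpW)
    calc ∏ p ∈ pz y \ pz z, lf K ν p ≤ ∏ p ∈ pz y \ pz z, (if p ∈ W then Real.exp (2 * K / z) else 1) :=
          prod_le_prod (fun p hp => lf_nonneg K ν p (hmem p hp).1 (hν p (hmem p hp).1)) hfac
      _ = Real.exp (2 * K / z) ^ ((pz y \ pz z).filter (fun p => p ∈ W)).card := by
          rw [prod_ite, prod_const, prod_const_one, mul_one]
      _ = Real.exp ((((pz y \ pz z).filter (fun p => p ∈ W)).card : ℝ) * (2 * K / z)) := (Real.exp_nat_mul _ _).symm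
      _ ≤ Real.exp (w * (2 * K / z)) := by
          apply Real.exp_le_exp.2
          apply mul_le_mul_of_nonneg_right _ (by positivity)
          refine le_trans ?_ hW
          have : ((pz y \ pz z).filter (fun p => p ∈ W)).card ≤ W.card := by
            apply card_le_card
            intro p hp
            exact (mem_filter.1 hp).2
          exact_mod_cast this
      _ = Real.exp (2 * K * w / z) := by
          congr 1; ring

/-- the limit of the partial products -/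
theorem lS_tendsto {K : ℕ} (ν : ℕ → ℕ) (hν : ∀ p, p.Prime → ν p ≤ p) (D : ℕ) (hD : ∀ p, p.Prime → D < p → ν p = K) :
    ∃ S : ℝ, Tendsto (lS K ν) atTop (𝓝 S) := by
  have hanti : Antitone (fun j : ℕ => lS K ν (j + D)) := by
    apply antitone_nat_of_succ_le
    intro j
    have e : j + 1 + D = (j + D) + 1 := by ring
    rw [e]
    unfold lS
    by_cases hp : (j + D + 1).Prime
    · have h1 : pz (j + D + 1) = insert (j + D + 1) (pz (j + D)) := by
        ext p
        rw [mem_insert, mem_pz, mem_pz]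
        constructor
        · rintro ⟨h2, h3⟩
          rcases Nat.lt_or_ge p (j + D + 1) with h4 | h4
          · exact Or.inr ⟨by omega, h3⟩
          · exact Or.inl (by omega)
        · rintro (h2 | ⟨h2, h3⟩)
          · rw [h2]
            exact ⟨le_rfl, hp⟩
          · exact ⟨by omega, h3⟩
      rw [h1, prod_insert (by
        rw [mem_pz]
        rintro ⟨h2, _⟩
        omega)]
      have h2 : lf K ν (j + D + 1) ≤ 1 := lf_le_one K ν _ hp (hD _ hp (by omega))
      have h3 := lS_nonneg K ν hν (j + D)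
      unfold lS at h3
      exact mul_le_of_le_one_left h3 h2
    · have h1 : pz (j + D + 1) = pz (j + D) := by
        ext p
        rw [mem_pz, mem_pz]
        constructor
        · rintro ⟨h2, h3⟩
          refine ⟨?_, h3⟩
          by_contra h4
          have : p = j + D + 1 := by omega
          rw [this] at h3
          exact hp h3
        · rintro ⟨h2, h3⟩
          exact ⟨by omega, h3⟩
      rw [h1]
  have hbdd : BddBelow (Set.range (fun j : ℕ => lS K ν (j + D))) := ⟨0, by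
    rintro _ ⟨j, rfl⟩
    exact lS_nonneg K ν hν _⟩
  refine ⟨⨅ j, lS K ν (j + D), ?_⟩
  exact (Filter.tendsto_add_atTop_iff_nat D).1 (tendsto_atTop_ciInf hanti hbdd)

end

end Run7.h402.PD
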