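import Mathlib
import Pool.Agent.Run7.h402.PD.D1

/-!
# Systems of linear forms: the excluded classes
-/

set_option autoImplicit false

open Finset
open Filter (Tendsto atTop)
open scoped Topology

namespace Run7.h402.PD

open Run7.h402.PW (card_pf)
open Pool.Agent.H373R2.T7

noncomputable section

/-- some form is divisible by `p` at `n` -/
def Az {K : ℕ} (a v : Fin K → ℤ) (p n : ℕ) : Prop := ∃ i, (p : ℤ) ∣ a i * n + v i

instance {K : ℕ} (a v : Fin K → ℤ) (p n : ℕ) : Decidable (Az a v p n) := by unfold Az; infer_instance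

theorem Az_mod {K : ℕ} (a v : Fin K → ℤ) (p n : ℕ) : Az a v p (n % p) ↔ Az a v p n := by
  unfold Az
  have h : ∀ i, ((p : ℤ) ∣ a i * ((n % p : ℕ) : ℤ) + v i) ↔ ((p : ℤ) ∣ a i * n + v i) := by
    intro i
    have h1 : (n : ℤ) = ((n % p : ℕ) : ℤ) + (p : ℤ) * ((n / p : ℕ) : ℤ) := by exact_mod_cast (Nat.mod_add_div n p).symm
    have e : a i * (n : ℤ) + v i = (a i * ((n % p : ℕ) : ℤ) + v i) + (p : ℤ) * (a i * ((n / p : ℕ) : ℤ)) := by
      linear_combination (a i) * h1
    rw [e]
    exact (Int.dvd_add_left (dvd_mul_right _ _)).symm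
  exact exists_congr h

/-- number of excluded classes -/
def nz {K : ℕ} (a v : Fin K → ℤ) (p : ℕ) : ℕ := ((range p).filter (fun n => Az a v p n)).card

theorem nz_le_p {K : ℕ} (a v : Fin K → ℤ) (p : ℕ) : nz a v p ≤ p := by
  unfold nz
  exact (card_filter_le _ _).trans (by rw [card_range])

/-- one form -/
theorem one_form (a v : ℤ) (p : ℕ) (hp : p.Prime) (hap : ¬ (p : ℤ) ∣ a) : ((range p).filter (fun n : ℕ => (p : ℤ) ∣ a * n + v)).card = 1 := by
  have hp0 : 0 < p := hp.pos
  have hpZ : Prime (p : ℤ) := Nat.prime_iff_prime_int.1 hp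
  have : Fact p.Prime := ⟨hp⟩
  -- existence
  have haz : (a : ZMod p) ≠ 0 := by
    intro h
    exact hap ((ZMod.intCast_zmod_eq_zero_iff_dvd a p).1 h)
  set r : ℕ := (-(v : ZMod p) / (a : ZMod p)).val with hr
  have hrp : r < p := ZMod.val_lt _
  have hrz : (r : ZMod p) = -(v : ZMod p) / (a : ZMod p) := by rw [hr, ZMod.natCast_zmod_val]
  have hiff : ∀ n : ℕ, ((p : ℤ) ∣ a * n + v) ↔ (n : ZMod p) = (r : ZMod p) := by
    intro n
    rw [← ZMod.intCast_zmod_eq_zero_iff_dvd, hrz]
    push_cast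
    constructor
    · intro h
      rw [eq_div_iff haz]
      linear_combination h
    · intro h
      rw [h]
      field_simp
      ring
  have : (range p).filter (fun n : ℕ => (p : ℤ) ∣ a * n + v) = {r} := by
    ext n
    rw [mem_filter, mem_range, mem_singleton, hiff]
    constructor
    · rintro ⟨h1, h2⟩
      have h3 := (ZMod.natCast_eq_natCast_iff' _ _ _).1 h2
      rwa [Nat.mod_eq_of_lt h1, Nat.mod_eq_of_lt hrp] at h3
    · rintro rfl
      exact ⟨hrp, rfl⟩
  rw [this, card_singleton]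

theorem nz_le {K : ℕ} (a v : Fin K → ℤ) (p : ℕ) (hp : p.Prime) (h : nz a v p < p) : nz a v p ≤ K := by
  have h1 : (range p).filter (fun n => Az a v p n) ⊆ (univ : Finset (Fin K)).biUnion (fun i => (range p).filter (fun n : ℕ => (p : ℤ) ∣ a i * n + v i)) := by
    intro n hn
    rw [mem_filter] at hn
    obtain ⟨hn1, i, hi⟩ := hn
    rw [mem_biUnion]
    exact ⟨i, mem_univ _, mem_filter.2 ⟨hn1, hi⟩⟩
  have h2 : ∀ i ∈ (univ : Finset (Fin K)), ((range p).filter (fun n : ℕ => (p : ℤ) ∣ a i * n + v i)).card ≤ 1 := by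
    intro i _
    by_cases hap : (p : ℤ) ∣ a i
    · by_cases hv : (p : ℤ) ∣ v i
      · exfalso
        apply absurd h
        push Not
        unfold nz
        have : (range p).filter (fun n => Az a v p n) = range p := by
          apply filter_true_of_mem
          intro n _
          exact ⟨i, dvd_add (dvd_mul_of_dvd_left hap _) hv⟩
        rw [this, card_range]
      · have : (range p).filter (fun n : ℕ => (p : ℤ) ∣ a i * n + v i) = ∅ := by
          apply filter_false_of_mem
          intro n _ hd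
          apply hv
          exact (Int.dvd_add_right (dvd_mul_of_dvd_left hap _)).1 hd
        rw [this, card_empty]
        exact Nat.zero_le _
    · exact (one_form (a i) (v i) p hp hap).le
  unfold nz
  refine (card_le_card h1).trans (card_biUnion_le.trans ((sum_le_sum h2).trans ?_))
  rw [sum_const, card_univ, Fintype.card_fin, smul_eq_mul, mul_one]

/-- the number of the excluded classes at a good prime -/
theorem nz_eq {K : ℕ} (a v : Fin K → ℤ) (p : ℕ) (hp : p.Prime) (ha : ∀ i, ¬ (p : ℤ) ∣ a i) (hd : ∀ i j, i ≠ j → ¬ (p : ℤ) ∣ a i * v j - a j * v i) :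
    nz a v p = K := by
  have hpZ : Prime (p : ℤ) := Nat.prime_iff_prime_int.1 hp
  have h1 : (range p).filter (fun n => Az a v p n) = (univ : Finset (Fin K)).biUnion (fun i => (range p).filter (fun n : ℕ => (p : ℤ) ∣ a i * n + v i)) := by
    ext n
    rw [mem_filter, mem_biUnion]
    constructor
    · rintro ⟨hn1, i, hi⟩
      exact ⟨i, mem_univ _, mem_filter.2 ⟨hn1, hi⟩⟩
    · rintro ⟨i, _, hi⟩
      rw [mem_filter] at hi
      exact ⟨hi.1, i, hi.2⟩
  unfold nz
  rw [h1, card_biUnion]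
  · rw [sum_congr rfl fun i _ => one_form (a i) (v i) p hp (ha i), sum_const, card_univ, Fintype.card_fin, smul_eq_mul, mul_one]
  · intro i _ j _ hij
    rw [Function.onFun, disjoint_left]
    intro n hn1 hn2
    rw [mem_filter] at hn1 hn2
    apply hd i j hij
    have e : a i * v j - a j * v i = a i * (a j * n + v j) - a j * (a i * n + v i) := by ring
    rw [e]
    exact dvd_sub (dvd_mul_of_dvd_right hn2.2 _) (dvd_mul_of_dvd_right hn1.2 _)

/-- the forms are pairwise not proportional -/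
def Indep {K : ℕ} (a v : Fin K → ℤ) : Prop := ∀ i j, i ≠ j → a i * v j - a j * v i ≠ 0

/-- the primes at which the number of classes is smaller -/
def badp {K : ℕ} (a v : Fin K → ℤ) : Finset ℕ :=
  (univ : Finset (Fin K × Fin K)).biUnion (fun x => if x.1 = x.2 then (a x.1).natAbs.primeFactors else (a x.1 * v x.2 - a x.2 * v x.1).natAbs.primeFactors)

theorem badp_card {K : ℕ} (a v : Fin K → ℤ) (ha : ∀ i, a i ≠ 0) (hi : Indep a v) (D : ℝ) (h1 : ∀ i, Real.log ((a i).natAbs : ℝ) ≤ D)
    (h2 : ∀ i j, Real.log ((a i * v j - a j * v i).natAbs : ℝ) ≤ D) : ((badp a v).card : ℝ) ≤ (K : ℝ) ^ 2 * (2 * D) := by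
  have h3 : ((badp a v).card : ℝ) ≤ ∑ x : Fin K × Fin K, ((if x.1 = x.2 then (a x.1).natAbs.primeFactors else (a x.1 * v x.2 - a x.2 * v x.1).natAbs.primeFactors).card : ℝ) := by
    unfold badp
    exact_mod_cast card_biUnion_le
  refine h3.trans ?_
  have h4 : ∀ x ∈ (univ : Finset (Fin K × Fin K)), ((if x.1 = x.2 then (a x.1).natAbs.primeFactors else (a x.1 * v x.2 - a x.2 * v x.1).natAbs.primeFactors).card : ℝ) ≤ 2 * D := by
    intro x _
    split_ifs with h
    · refine (card_pf _ (by have := ha x.1; omega)).trans ?_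
      have := h1 x.1
      linarith
    · refine (card_pf _ (by have := hi x.1 x.2 h; omega)).trans ?_
      have := h2 x.1 x.2
      linarith
  refine (sum_le_sum h4).trans (le_of_eq ?_)
  rw [sum_const, card_univ, Fintype.card_prod, Fintype.card_fin, nsmul_eq_mul]
  push_cast
  ring

theorem nz_of_badp {K : ℕ} (a v : Fin K → ℤ) (ha : ∀ i, a i ≠ 0) (hi : Indep a v) (p : ℕ) (hp : p.Prime) (h : p ∉ badp a v) : nz a v p = K := by
  unfold badp at h
  rw [mem_biUnion] at h
  push Not at h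
  apply nz_eq a v p hp
  · intro i hd
    apply h (i, i) (mem_univ _)
    rw [if_pos rfl, Nat.mem_primeFactors]
    exact ⟨hp, Int.natCast_dvd.1 hd, Int.natAbs_ne_zero.2 (ha i)⟩
  · intro i j hij hd
    apply h (i, j) (mem_univ _)
    rw [if_neg (by simpa using hij), Nat.mem_primeFactors]
    exact ⟨hp, Int.natCast_dvd.1 hd, Int.natAbs_ne_zero.2 (hi i j hij)⟩

/-- the partial products of the singular series converge -/
theorem Sd_tendsto {K : ℕ} (a v : Fin K → ℤ) (ha : ∀ i, a i ≠ 0) (hi : Indep a v) : ∃ S : ℝ, Tendsto (lS K (nz a v)) atTop (𝓝 S) := by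
  refine lS_tendsto (nz a v) (fun p _ => nz_le_p a v p) (∑ p ∈ badp a v, p) (fun p hp hD => ?_)
  apply nz_of_badp a v ha hi p hp
  intro hb
  have := single_le_sum (f := fun p : ℕ => p) (fun _ _ => Nat.zero_le _) hb
  omega

/-- a nonempty finite set of consecutive natural numbers -/
theorem ioc_of_conn (s : Finset ℕ) (y1 y2 : ℕ) (h12 : y1 ≤ y2) (hs : s ⊆ Ioc y1 y2) (hc : ∀ x ∈ s, ∀ y ∈ s, ∀ w, x ≤ w → w ≤ y → w ∈ s) :
    ∃ p q : ℕ, y1 ≤ p ∧ p ≤ q ∧ q ≤ y2 ∧ s = Ioc p q := by
  rcases s.eq_empty_or_nonempty with h | h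
  · exact ⟨y1, y1, le_rfl, le_rfl, h12, by rw [h, Ioc_self]⟩
  · have h1 := s.min'_mem h
    have h2 := s.max'_mem h
    have h3 := mem_Ioc.1 (hs h1)
    have h4 := mem_Ioc.1 (hs h2)
    have h5 := s.min'_le _ h2
    refine ⟨s.min' h - 1, s.max' h, by omega, by omega, h4.2, ?_⟩
    ext n
    rw [mem_Ioc]
    constructor
    · intro hn
      have h6 := s.min'_le n hn
      have h7 := s.le_max' n hn
      omega
    · rintro ⟨h6, h7⟩
      exact hc _ h1 _ h2 n (by omega) h7

/-- half-lines -/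
theorem lin_conn (a v t : ℤ) (x y w : ℕ) (hx : t ≤ a * x + v) (hy : t ≤ a * y + v) (h1 : x ≤ w) (h2 : w ≤ y) : t ≤ a * w + v := by
  have h1' : (x : ℤ) ≤ w := by exact_mod_cast h1
  have h2' : (w : ℤ) ≤ y := by exact_mod_cast h2
  rcases le_total 0 a with ha | ha
  · nlinarith
  · nlinarith

/-- the arguments in `(y1, y2]` at which all the forms are at least `t` -/
theorem reg_ioc {K : ℕ} (a v : Fin K → ℤ) (t : ℤ) (y1 y2 : ℕ) (h : y1 ≤ y2) : ∃ p q : ℕ, y1 ≤ p ∧ p ≤ q ∧ q ≤ y2 ∧
    (Ioc y1 y2).filter (fun n : ℕ => ∀ i, t ≤ a i * n + v i) = Ioc p q := by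
  apply ioc_of_conn _ y1 y2 h (filter_subset _ _)
  intro x hx y hy w hw1 hw2
  rw [mem_filter, mem_Ioc] at hx hy ⊢
  refine ⟨⟨by omega, by omega⟩, fun i => lin_conn (a i) (v i) t x y w (hx.2 i) (hy.2 i) hw1 hw2⟩

/-- few arguments have a form in a short interval -/
theorem few_small {K : ℕ} (a v : Fin K → ℤ) (ha : ∀ i, a i ≠ 0) (s t : ℤ) (st : ℕ) (hst : t ≤ s + st) (F : Finset ℕ) :
    (F.filter (fun n : ℕ => ∃ i, s ≤ a i * n + v i ∧ a i * n + v i < t)).card ≤ K * st := by
  have h1 : F.filter (fun n : ℕ => ∃ i, s ≤ a i * n + v i ∧ a i * n + v i < t) ⊆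
      (univ : Finset (Fin K)).biUnion (fun i => F.filter (fun n : ℕ => s ≤ a i * n + v i ∧ a i * n + v i < t)) := by
    intro n hn
    rw [mem_filter] at hn
    obtain ⟨h0, i, hi⟩ := hn
    rw [mem_biUnion]
    exact ⟨i, mem_univ _, mem_filter.2 ⟨h0, hi⟩⟩
  refine (card_le_card h1).trans (card_biUnion_le.trans ?_)
  have h2 : ∀ i ∈ (univ : Finset (Fin K)), (F.filter (fun n : ℕ => s ≤ a i * n + v i ∧ a i * n + v i < t)).card ≤ st := by
    intro i _
    have h3 : (F.filter (fun n : ℕ => s ≤ a i * n + v i ∧ a i * n + v i < t)).card ≤ (Ico s t).card := by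
      apply card_le_card_of_injOn (fun n : ℕ => a i * n + v i)
      · intro n hn
        rw [mem_coe, mem_filter] at hn
        rw [mem_coe, mem_Ico]
        exact hn.2
      · intro n _ m _ h
        simp only [add_left_inj] at h
        have := mul_left_cancel₀ (ha i) h
        exact_mod_cast this
    refine h3.trans ?_
    rw [Int.card_Ico]
    omega
  refine (sum_le_sum h2).trans ?_
  rw [sum_const, card_univ, Fintype.card_fin, smul_eq_mul]

end

end Run7.h402.PD
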