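import Mathlib
import Pool.Agent.Run7.h402.PX.X10
import Pool.Agent.Run7.h402.PD.D2

/-!
# Systems of linear forms: the model, the singular series, the truncation
-/

set_option autoImplicit false

open Finset
open Filter (Tendsto atTop)
open scoped Topology

namespace Run7.h402.PD

open Run7.h402.PX Run7.h402.PV Run7.h402.PT
open Pool.Agent.H373R2.T7 (Vz Vz_inv_small Vz_pos lamz lamz_nonneg pz mem_pz)
open Pool.Agent.N475.SP (dom)

noncomputable section

/-- the natural number `a n + v` (zero if negative) -/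
def nf (a v : ℤ) (n : ℕ) : ℕ := (a * n + v).toNat

/-- the error terms of the fundamental lemma -/
theorem sieve_err {B E A : ℕ} {L : ℝ} (bg : Big B E A L) (hE : 1 ≤ E) {K : ℕ} (hKB : (K : ℝ) ≤ B * Real.log L)
    (X : ℕ) (hX : Real.exp L = X) (hV : (Vz (zL E L))⁻¹ ≤ L) (y : ℕ) (hy : y ≤ X) :
    (Vz (zL E L))⁻¹ ^ K * ((((zL E L : ℕ) : ℝ) + 1) * K) ^ ⌈√L⌉₊ + (Vz (zL E L))⁻¹ ^ K * (2 * (y : ℝ) * Real.exp (3 * (K * (1 + Real.log (zL E L : ℕ))) - ⌈√L⌉₊)) ≤ X / L ^ A := by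
  obtain ⟨hL0, hLe, hs1, hss, hsL, f1, f2, f3, f4, f5, f6⟩ := big_facts bg
  have h1 := bg.b1
  have h0 := bg.b0
  obtain ⟨hz1, hz2, hz3⟩ := zL_bounds bg hE
  set z := zL E L with hz
  set ℓ := Real.log L with hℓ
  have hpow : ∀ n : ℕ, L ^ n = Real.exp (n * ℓ) := by
    intro n
    rw [Real.exp_nat_mul, hLe]
  set r : ℕ := ⌈√L⌉₊ with hr
  have hr1 : √L ≤ r := Nat.le_ceil _
  have hr2 : (r : ℝ) ≤ 2 * √L := by
    have := (Nat.ceil_lt_add_one (Real.sqrt_nonneg L)).le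
    linarith
  have hz0 : (0 : ℝ) < z := by exact_mod_cast hz1
  have hlogz : Real.log z ≤ E * ℓ := by
    rw [hℓ, ← Real.log_pow]
    exact Real.log_le_log hz0 hz2
  have hX0 : (0 : ℝ) < X := by rw [← hX]; exact Real.exp_pos _
  have hVp := Vz_pos z
  have hVK : (Vz z)⁻¹ ^ K ≤ Real.exp (B * ℓ ^ 2) := by
    calc (Vz z)⁻¹ ^ K ≤ L ^ K := by gcongr
      _ = Real.exp (K * ℓ) := hpow K
      _ ≤ Real.exp (B * ℓ ^ 2) := by
          apply Real.exp_le_exp.2
          nlinarith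
  have hKL : (K : ℝ) ≤ L := by linarith
  have T1 : (((z : ℝ) + 1) * K) ^ r ≤ Real.exp (L / 2) := by
    have t1 : ((z : ℝ) + 1) * K ≤ Real.exp ((E + 2) * ℓ) := by
      have h3 : Real.exp ((E + 2) * ℓ) = L ^ E * L ^ 2 := by
        rw [add_mul, Real.exp_add, ← hpow E]
        congr 1
        exact (hpow 2).symm
      rw [h3]
      have h4 : 1 ≤ L ^ E := one_le_pow₀ (by linarith)
      calc ((z : ℝ) + 1) * K ≤ (L ^ E + L ^ E) * L := by gcongr
        _ = L ^ E * (2 * L) := by ring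
        _ ≤ L ^ E * L ^ 2 := by
            gcongr
            nlinarith
    calc (((z : ℝ) + 1) * K) ^ r ≤ (Real.exp ((E + 2) * ℓ)) ^ r := by gcongr
      _ = Real.exp (r * ((E + 2) * ℓ)) := (Real.exp_nat_mul _ _).symm
      _ ≤ Real.exp (L / 2) := by
          apply Real.exp_le_exp.2
          have h5 : ((E : ℝ) + 2) * ℓ ≤ √L / 4 := by linarith
          calc (r : ℝ) * ((E + 2) * ℓ) ≤ (2 * √L) * (√L / 4) := by
                apply mul_le_mul hr2 h5 (by positivity) (by positivity)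
            _ = L / 2 := by
                have : (2 * √L) * (√L / 4) = (√L * √L) / 2 := by ring
                rw [this, hss]
  have T2 : 2 * (y : ℝ) * Real.exp (3 * (K * (1 + Real.log z)) - r) ≤ X * Real.exp (-(√L / 4)) := by
    have hyX : (y : ℝ) ≤ X := by exact_mod_cast hy
    have h2 : 3 * (K * (1 + Real.log z)) - r ≤ -(√L / 4) - 1 := by
      have h3 : (K : ℝ) * (1 + Real.log z) ≤ B * ℓ + B * E * ℓ ^ 2 := by
        calc (K : ℝ) * (1 + Real.log z) ≤ (B * ℓ) * (1 + E * ℓ) := by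
              have h4 : 0 ≤ 1 + Real.log z := by
                have := Real.log_natCast_nonneg z
                linarith
              gcongr
          _ = _ := by ring
      linarith
    have h8 : (2 : ℝ) ≤ Real.exp 1 := by
      have := Real.add_one_le_exp (1 : ℝ)
      linarith
    calc 2 * (y : ℝ) * Real.exp (3 * (K * (1 + Real.log z)) - r) ≤ Real.exp 1 * X * Real.exp (-(√L / 4) - 1) := by
          gcongr
      _ = X * (Real.exp 1 * Real.exp (-(√L / 4) - 1)) := by ring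
      _ = X * Real.exp (-(√L / 4)) := by rw [← Real.exp_add]; congr 2; ring
  have hT : Real.exp (L / 2) ≤ X * Real.exp (-(√L / 4)) := by
    rw [← hX, ← Real.exp_add]
    apply Real.exp_le_exp.2
    linarith
  rw [← mul_add]
  calc (Vz z)⁻¹ ^ K * ((((z : ℝ) + 1) * K) ^ r + 2 * (y : ℝ) * Real.exp (3 * (K * (1 + Real.log z)) - r)) ≤
        Real.exp (B * ℓ ^ 2) * (X * Real.exp (-(√L / 4)) + X * Real.exp (-(√L / 4))) := by
        apply mul_le_mul hVK (add_le_add (T1.trans hT) T2) (by positivity) (by positivity)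
    _ = X * (2 * (Real.exp (B * ℓ ^ 2) * Real.exp (-(√L / 4)))) := by ring
    _ = X * (2 * Real.exp (B * ℓ ^ 2 + -(√L / 4))) := by rw [← Real.exp_add]
    _ ≤ X * (Real.exp 1 * Real.exp (B * ℓ ^ 2 + -(√L / 4))) := by
        have := Real.add_one_le_exp (1 : ℝ)
        gcongr
        linarith
    _ = X * Real.exp (1 + (B * ℓ ^ 2 + -(√L / 4))) := by rw [← Real.exp_add]
    _ ≤ X * Real.exp (-(A * ℓ)) := by
        gcongr
        linarith
    _ = X / L ^ A := by rw [hpow A, Real.exp_neg]; ring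

/-- the number of `n` in a region without small prime factors -/
theorem model_int {B E A : ℕ} {L : ℝ} (bg : Big B E A L) (hE : 1 ≤ E) {K : ℕ} (hK : 1 ≤ K) (hKB : (K : ℝ) ≤ B * Real.log L)
    (X : ℕ) (hX : Real.exp L = X) (hV : (Vz (zL E L))⁻¹ ≤ L) (a v : Fin K → ℤ) (hν : ∀ p, p.Prime → nz a v p ≤ K) (y : ℕ) (hy : y ≤ X) :
    |∑ n ∈ Ioc 0 y, ∏ i, gp (zL E L) (nf (a i) (v i) n) -
      lS K (nz a v) (zL E L) * (((Ioc 0 y).filter (fun n : ℕ => ∀ i, ((zL E L : ℕ) : ℤ) + 1 ≤ a i * n + v i)).card : ℝ)| ≤ 2 * (X / L ^ A) := by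
  set z := zL E L with hz
  have hz1 : 1 ≤ z := (zL_bounds bg hE).1
  obtain ⟨p, q, hp1, hpq, hq, hR⟩ := reg_ioc a v ((z : ℤ) + 1) 0 y (Nat.zero_le _)
  set R := (Ioc 0 y).filter (fun n : ℕ => ∀ i, (z : ℤ) + 1 ≤ a i * n + v i) with hRd
  have hVp := Vz_pos z
  have hV0 : 0 ≤ (Vz z)⁻¹ ^ K := by positivity
  have hsum : ∑ n ∈ Ioc 0 y, ∏ i, gp z (nf (a i) (v i) n) = (Vz z)⁻¹ ^ K * ((R.filter (fun n => ∀ p ∈ pz z, ¬ Az a v p n)).card : ℝ) := by
    have h2 : ∀ n ∈ Ioc 0 y, ∏ i, gp z (nf (a i) (v i) n) = if ((∀ i, (z : ℤ) + 1 ≤ a i * n + v i) ∧ ∀ p ∈ pz z, ¬ Az a v p n) then (Vz z)⁻¹ ^ K else 0 := by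
      intro n _
      split_ifs with h
      · have h3 : ∀ i : Fin K, gp z (nf (a i) (v i) n) = (Vz z)⁻¹ := by
          intro i
          have h4 := h.1 i
          unfold gp
          rw [if_pos (by unfold nf; omega)]
          unfold lamz
          rw [if_pos]
          intro p hp hd
          apply h.2 p hp
          refine ⟨i, ?_⟩
          have h5 : ((nf (a i) (v i) n : ℕ) : ℤ) = a i * n + v i := Int.toNat_of_nonneg (by omega)
          rw [← h5]
          exact_mod_cast hd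
        rw [prod_congr rfl fun i _ => h3 i, prod_const, card_univ, Fintype.card_fin]
      · have h3 : ∃ i, gp z (nf (a i) (v i) n) = 0 := by
          by_cases h4 : ∀ i, (z : ℤ) + 1 ≤ a i * n + v i
          · have h5 : ¬ ∀ p ∈ pz z, ¬ Az a v p n := fun h6 => h ⟨h4, h6⟩
            push Not at h5
            obtain ⟨p, hp, i, hi⟩ := h5
            refine ⟨i, ?_⟩
            have h6 := h4 i
            unfold gp
            rw [if_pos (by unfold nf; omega)]
            unfold lamz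
            rw [if_neg]
            intro h7
            apply h7 p hp
            have h8 : ((nf (a i) (v i) n : ℕ) : ℤ) = a i * n + v i := Int.toNat_of_nonneg (by omega)
            rw [← h8] at hi
            exact_mod_cast hi
          · push Not at h4
            obtain ⟨i, hi⟩ := h4
            refine ⟨i, ?_⟩
            unfold gp
            rw [if_neg (by unfold nf; omega)]
        obtain ⟨i, hi⟩ := h3
        exact prod_eq_zero (mem_univ i) hi
    rw [sum_congr rfl h2, ← sum_filter, sum_const, nsmul_eq_mul, mul_comm, hRd, filter_filter]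
  have hcount : ∀ H : ℕ, ((Ioc 0 H).filter (fun n => ∀ p ∈ pz z, ¬ Az a v p n)) = ((Icc 1 H).filter (fun n => ∀ p ∈ pz z, ¬ Az a v p n)) := by
    intro H
    rfl
  have hdiff : ((R.filter (fun n => ∀ p ∈ pz z, ¬ Az a v p n)).card : ℝ) =
      ((((Icc 1 q).filter (fun n => ∀ p ∈ pz z, ¬ Az a v p n)).card : ℕ) : ℝ) - ((((Icc 1 p).filter (fun n => ∀ p ∈ pz z, ¬ Az a v p n)).card : ℕ) : ℝ) := by
    rw [hR, ← hcount q, ← hcount p]
    have h1 : (Ioc 0 q).filter (fun n => ∀ p ∈ pz z, ¬ Az a v p n) = (Ioc 0 p).filter (fun n => ∀ p ∈ pz z, ¬ Az a v p n) ∪ (Ioc p q).filter (fun n => ∀ p ∈ pz z, ¬ Az a v p n) := by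
      rw [← filter_union, Ioc_union_Ioc_eq_Ioc (Nat.zero_le p) hpq]
    have h2 : Disjoint ((Ioc 0 p).filter (fun n => ∀ p ∈ pz z, ¬ Az a v p n)) ((Ioc p q).filter (fun n => ∀ p ∈ pz z, ¬ Az a v p n)) := by
      apply disjoint_filter_filter
      rw [disjoint_left]
      intro n hn hn'
      rw [mem_Ioc] at hn hn'
      omega
    rw [h1, card_union_of_disjoint h2]
    push_cast
    ring
  have hν' : ∀ p ∈ pz z, ((range p).filter (fun b => Az a v p b)).card ≤ K := fun p hp => hν p (mem_pz.1 hp).2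
  have k1 := multi_sieveG K hK (Az a v) (fun p n => Az_mod a v p n) q z ⌈√L⌉₊ hz1 hν'
  have k2 := multi_sieveG K hK (Az a v) (fun p n => Az_mod a v p n) p z ⌈√L⌉₊ hz1 hν'
  set P := ∏ p ∈ pz z, (1 - (((range p).filter (fun b => Az a v p b)).card : ℝ) / p) with hP
  have hlS : lS K (nz a v) z = (Vz z)⁻¹ ^ K * P := lS_eq K (nz a v) z
  have hRc : (R.card : ℝ) = (q : ℝ) - p := by
    rw [hR, Nat.card_Ioc, Nat.cast_sub hpq]
  rw [hsum, hdiff, hlS, hRc]
  have e : ∀ x1 x2 : ℝ, (Vz z)⁻¹ ^ K * (x1 - x2) - (Vz z)⁻¹ ^ K * P * ((q : ℝ) - p) = (Vz z)⁻¹ ^ K * (x1 - q * P) - (Vz z)⁻¹ ^ K * (x2 - p * P) := by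
    intro x1 x2
    ring
  rw [e]
  refine (abs_sub _ _).trans ?_
  rw [abs_mul, abs_mul, abs_of_nonneg hV0, two_mul]
  apply add_le_add
  · refine (mul_le_mul_of_nonneg_left k1 hV0).trans ?_
    rw [mul_add]
    exact sieve_err bg hE hKB X hX hV q (hq.trans hy)
  · refine (mul_le_mul_of_nonneg_left k2 hV0).trans ?_
    rw [mul_add]
    exact sieve_err bg hE hKB X hX hV p ((hpq.trans hq).trans hy)

/-- the singular series and its partial product -/
theorem S_parz {B E A : ℕ} {L : ℝ} (bg : Big B E A L) (hE : A + 8 ≤ E) {K : ℕ} (hKB : (K : ℝ) ≤ B * Real.log L)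
    (ν : ℕ → ℕ) (hν : ∀ p, p.Prime → ν p ≤ p) (hνK : ∀ p, p.Prime → ν p ≤ K) (W : Finset ℕ) (hW : (W.card : ℝ) ≤ (K : ℝ) ^ 2 * (2 * (2 * L)))
    (hWν : ∀ p, p.Prime → p ∉ W → ν p = K) (S : ℝ) (hS : Tendsto (lS K ν) atTop (𝓝 S)) :
    |S - lS K ν (zL E L)| ≤ lS K ν (zL E L) / L ^ (A + 2) := by
  obtain ⟨hL0, hLe, hs1, hss, hsL, f1, f2, f3, f4, f5, f6⟩ := big_facts bg
  have h1 := bg.b1
  obtain ⟨hz1, hz2, hz3⟩ := zL_bounds bg (by omega)
  set z := zL E L with hz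
  set s := lS K ν z with hs
  have hs0 : 0 ≤ s := lS_nonneg K ν hν z
  have hKL : (K : ℝ) ≤ L := by linarith
  have hz0 : (0 : ℝ) < z := by exact_mod_cast hz1
  have hLE : L ^ (A + 8) ≤ L ^ E := pow_le_pow_right₀ (by linarith) hE
  have hLA : 1 ≤ L ^ (A + 2) := one_le_pow₀ (by linarith)
  have hz4 : L ^ (A + 2) * L ^ 6 / 2 ≤ z := by
    have : L ^ (A + 8) = L ^ (A + 2) * L ^ 6 := by ring
    rw [← this]
    linarith
  have h2K : 2 * K ≤ z := by
    have h3 : (2 * K : ℝ) ≤ z := by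
      have h4 : L * 1000 ≤ L ^ 6 := by
        calc L * 1000 ≤ L * L ^ 5 := by
              gcongr
              calc (1000 : ℝ) ≤ L := h1
                _ = L ^ 1 := (pow_one L).symm
                _ ≤ L ^ 5 := pow_le_pow_right₀ (by linarith) (by norm_num)
          _ = L ^ 6 := by ring
      have h5 : L ^ 6 ≤ L ^ (A + 2) * L ^ 6 := le_mul_of_one_le_left (by positivity) hLA
      linarith
    exact_mod_cast h3
  have hx : 2 * (K : ℝ) * ((K : ℝ) ^ 2 * (2 * (2 * L))) / z ≤ 1 / L ^ (A + 2) / 2 := by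
    rw [div_div, div_le_div_iff₀ hz0 (by positivity), one_mul]
    have h3 : (K : ℝ) ^ 3 ≤ L ^ 3 := by gcongr
    have h4 : 32 * L ^ 4 ≤ L ^ 6 := by
      have : L ^ 6 = L ^ 2 * L ^ 4 := by ring
      rw [this]
      apply mul_le_mul_of_nonneg_right _ (by positivity)
      nlinarith
    calc 2 * (K : ℝ) * ((K : ℝ) ^ 2 * (2 * (2 * L))) * (L ^ (A + 2) * 2) = 8 * (K : ℝ) ^ 3 * L * (L ^ (A + 2) * 2) := by ring
      _ ≤ 8 * L ^ 3 * L * (L ^ (A + 2) * 2) := by gcongr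
      _ = L ^ (A + 2) * (32 * L ^ 4) / 2 := by ring
      _ ≤ L ^ (A + 2) * L ^ 6 / 2 := by gcongr
      _ ≤ z := hz4
  have hx2 : (K : ℝ) ^ 2 / z ≤ 1 / L ^ (A + 2) := by
    rw [div_le_div_iff₀ hz0 (by positivity), one_mul]
    have h3 : (K : ℝ) ^ 2 ≤ L ^ 2 := by gcongr
    have h4 : 2 * L ^ 2 ≤ L ^ 6 := by
      have : L ^ 6 = L ^ 4 * L ^ 2 := by ring
      rw [this]
      apply mul_le_mul_of_nonneg_right _ (by positivity)
      have : L ≤ L ^ 4 := le_self_pow₀ (by linarith) (by norm_num)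
      linarith
    calc (K : ℝ) ^ 2 * L ^ (A + 2) ≤ L ^ 2 * L ^ (A + 2) := by gcongr
      _ = L ^ (A + 2) * (2 * L ^ 2) / 2 := by ring
      _ ≤ L ^ (A + 2) * L ^ 6 / 2 := by gcongr
      _ ≤ z := hz4
  have hlim1 : (1 - (K : ℝ) ^ 2 / z) * s ≤ S := by
    apply ge_of_tendsto hS
    filter_upwards [Filter.eventually_ge_atTop z] with y hy
    exact (lS_tail ν hν hνK W _ hW hWν z y hz1 h2K hy).1
  have hlim2 : S ≤ Real.exp (2 * (K : ℝ) * ((K : ℝ) ^ 2 * (2 * (2 * L))) / z) * s := by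
    apply le_of_tendsto hS
    filter_upwards [Filter.eventually_ge_atTop z] with y hy
    exact (lS_tail ν hν hνK W _ hW hWν z y hz1 h2K hy).2
  have hLinv : 1 / L ^ (A + 2) ≤ 1 := by rw [div_le_one (by positivity)]; exact hLA
  have hx0 : 0 ≤ 2 * (K : ℝ) * ((K : ℝ) ^ 2 * (2 * (2 * L))) / z := by positivity
  have hexp : Real.exp (2 * (K : ℝ) * ((K : ℝ) ^ 2 * (2 * (2 * L))) / z) ≤ 1 + 1 / L ^ (A + 2) := by
    have h3 := Real.abs_exp_sub_one_le (x := 2 * (K : ℝ) * ((K : ℝ) ^ 2 * (2 * (2 * L))) / z) (by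
      rw [abs_of_nonneg hx0]; linarith)
    rw [abs_of_nonneg hx0] at h3
    have h4 := (abs_le.1 h3).2
    linarith
  have e1 : s / L ^ (A + 2) = 1 / L ^ (A + 2) * s := by ring
  rw [e1, abs_le]
  constructor
  · have h3 : (1 - 1 / L ^ (A + 2)) * s ≤ (1 - (K : ℝ) ^ 2 / z) * s := by
      apply mul_le_mul_of_nonneg_right _ hs0
      linarith
    linarith
  · have h3 : Real.exp (2 * (K : ℝ) * ((K : ℝ) ^ 2 * (2 * (2 * L))) / z) * s ≤ (1 + 1 / L ^ (A + 2)) * s :=
      mul_le_mul_of_nonneg_right hexp hs0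
    linarith

/-- removing the truncation -/
theorem trunc_z {K : ℕ} (z : ℕ) (Q : ℝ) (hQ : 0 ≤ Q) (a v : Fin K → ℤ) (ha : ∀ i, a i ≠ 0) (y : ℕ)
    (hb : ∀ n ∈ Ioc 0 y, ∀ i, Run7.h402.PT.Fp (nf (a i) (v i) n) ≤ Q) :
    |∑ n ∈ Ioc 0 y, ∏ i, Run7.h402.PT.Fp (nf (a i) (v i) n) - ∑ n ∈ Ioc 0 y, ∏ i, fp z (nf (a i) (v i) n)| ≤ ((K * z : ℕ) : ℝ) * Q ^ K := by
  rw [← sum_sub_distrib]
  refine (abs_sum_le_sum_abs _ _).trans ?_
  have hterm : ∀ n ∈ Ioc 0 y, |∏ i, Run7.h402.PT.Fp (nf (a i) (v i) n) - ∏ i, fp z (nf (a i) (v i) n)| ≤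
      if (∃ i, (1 : ℤ) ≤ a i * n + v i ∧ a i * n + v i < (z : ℤ) + 1) then Q ^ K else 0 := by
    intro n hn
    have h0 : ∀ i, 0 ≤ fp z (nf (a i) (v i) n) ∧ fp z (nf (a i) (v i) n) ≤ Run7.h402.PT.Fp (nf (a i) (v i) n) := by
      intro i
      refine ⟨fp_nonneg z _, ?_⟩
      unfold fp Run7.h402.PT.Fp
      split_ifs with h1 h2 h2
      · exact le_rfl
      · exact absurd h1.1 h2
      · exact Real.log_natCast_nonneg _
      · exact le_rfl
    split_ifs with h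
    · have h1 : ∏ i, Run7.h402.PT.Fp (nf (a i) (v i) n) ≤ Q ^ K := by
        calc ∏ i, Run7.h402.PT.Fp (nf (a i) (v i) n) ≤ ∏ _i : Fin K, Q := prod_le_prod (fun i _ => Fp_nonneg _) fun i _ => hb n hn i
          _ = Q ^ K := by rw [prod_const, card_univ, Fintype.card_fin]
      have h2 : 0 ≤ ∏ i, fp z (nf (a i) (v i) n) := prod_nonneg fun i _ => (h0 i).1
      have h3 : ∏ i, fp z (nf (a i) (v i) n) ≤ ∏ i, Run7.h402.PT.Fp (nf (a i) (v i) n) := prod_le_prod (fun i _ => (h0 i).1) fun i _ => (h0 i).2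
      rw [abs_of_nonneg (by linarith)]
      linarith
    · push Not at h
      have e1 : ∀ i, Run7.h402.PT.Fp (nf (a i) (v i) n) = fp z (nf (a i) (v i) n) := by
        intro i
        unfold Run7.h402.PT.Fp fp
        have : ((nf (a i) (v i) n).Prime ∧ z < nf (a i) (v i) n) ↔ (nf (a i) (v i) n).Prime := by
          refine ⟨fun h => h.1, fun h' => ⟨h', ?_⟩⟩
          have h1 := h'.one_lt
          have h2 : (1 : ℤ) ≤ a i * n + v i := by
            unfold nf at h1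
            omega
          have h3 := h i h2
          unfold nf
          omega
        simp only [this]
      rw [prod_congr rfl fun i _ => e1 i, sub_self, abs_zero]
  refine (sum_le_sum hterm).trans ?_
  rw [← sum_filter, sum_const, nsmul_eq_mul]
  apply mul_le_mul_of_nonneg_right _ (by positivity)
  exact_mod_cast few_small a v ha 1 ((z : ℤ) + 1) z (by omega) (Ioc 0 y)

end

end Run7.h402.PD
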