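import Mathlib
import Pool.Agent.Run7.h402.PD.D2

/-!
# Partial summation with monotone weights
-/

set_option autoImplicit false

open Finset

namespace Run7.h402.PD

noncomputable section

/-- all subintervals have small sums -/
def SubSmall (u : ℕ → ℝ) (p q : ℕ) (D : ℝ) : Prop := ∀ p' q' : ℕ, p ≤ p' → p' ≤ q' → q' ≤ q → |∑ n ∈ Ioc p' q', u n| ≤ D

theorem SubSmall.mono {u : ℕ → ℝ} {p q : ℕ} {D : ℝ} (h : SubSmall u p q D) (p' q' : ℕ) (h1 : p ≤ p') (h2 : q' ≤ q) : SubSmall u p' q' D :=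
  fun p'' q'' h3 h4 h5 => h p'' q'' (h1.trans h3) h4 (h5.trans h2)

theorem abel_anti (u : ℕ → ℝ) (p : ℕ) (D : ℝ) (hD : 0 ≤ D) (j : ℕ) : ∀ f : ℕ → ℝ, (∀ x y, p < x → x ≤ y → y ≤ p + j → f y ≤ f x) →
    (∀ x, p < x → x ≤ p + j → 0 ≤ f x) → SubSmall u p (p + j) D → |∑ n ∈ Ioc p (p + j), f n * u n| ≤ f (p + 1) * D ∨ j = 0 := by
  induction j with
  | zero => intro f _ _ _; right; rfl
  | succ j ih =>
    intro f hf hf0 hu
    left
    have hS : ∑ n ∈ Ioc p (p + (j + 1)), f n * u n = ∑ n ∈ Ioc p (p + j), (f n - f (p + (j + 1))) * u n + f (p + (j + 1)) * ∑ n ∈ Ioc p (p + (j + 1)), u n := by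
      rw [show p + (j + 1) = (p + j) + 1 by ring, Finset.sum_Ioc_succ_top (Nat.le_add_right p j), Finset.sum_Ioc_succ_top (Nat.le_add_right p j)]
      simp only [sub_mul, sum_sub_distrib, ← mul_sum]
      ring
    have h1 := ih (fun n => f n - f (p + (j + 1))) (fun x y hx hxy hy => by
        have := hf x y hx hxy (by omega)
        linarith) (fun x hx hy => by
        have := hf x (p + (j + 1)) hx (by omega) le_rfl
        linarith) (hu.mono p (p + j) le_rfl (by omega))
    have h2 := hu p (p + (j + 1)) le_rfl (by omega) le_rfl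
    have h3 := hf0 (p + (j + 1)) (by omega) le_rfl
    have h4 : |f (p + (j + 1)) * ∑ n ∈ Ioc p (p + (j + 1)), u n| ≤ f (p + (j + 1)) * D := by
      rw [abs_mul, abs_of_nonneg h3]
      exact mul_le_mul_of_nonneg_left h2 h3
    have h5 : |∑ n ∈ Ioc p (p + j), (f n - f (p + (j + 1))) * u n| ≤ (f (p + 1) - f (p + (j + 1))) * D := by
      rcases h1 with h1 | h1
      · exact h1
      · subst h1
        simp
    rw [hS]
    refine (abs_add_le _ _).trans ?_
    linarith

theorem abel_mono (u : ℕ → ℝ) (q : ℕ) (D : ℝ) (hD : 0 ≤ D) (j : ℕ) : ∀ p : ℕ, p + j = q → ∀ f : ℕ → ℝ, (∀ x y, p < x → x ≤ y → y ≤ q → f x ≤ f y) →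
    (∀ x, p < x → x ≤ q → 0 ≤ f x) → SubSmall u p q D → |∑ n ∈ Ioc p q, f n * u n| ≤ f q * D ∨ j = 0 := by
  induction j with
  | zero => intro p _ f _ _ _; right; rfl
  | succ j ih =>
    intro p hpq f hf hf0 hu
    left
    have hS : ∑ n ∈ Ioc p q, f n * u n = ∑ n ∈ Ioc (p + 1) q, (f n - f (p + 1)) * u n + f (p + 1) * ∑ n ∈ Ioc p q, u n := by
      have e : Ioc p q = insert (p + 1) (Ioc (p + 1) q) := by
        ext n
        rw [mem_insert, mem_Ioc, mem_Ioc]
        omega
      have hn : p + 1 ∉ Ioc (p + 1) q := by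
        rw [mem_Ioc]
        omega
      rw [e, sum_insert hn, sum_insert hn]
      simp only [sub_mul, sum_sub_distrib, ← mul_sum]
      ring
    have h1 := ih (p + 1) (by omega) (fun n => f n - f (p + 1)) (fun x y hx hxy hy => by
        have := hf x y (by omega) hxy (by omega)
        linarith) (fun x hx hy => by
        have := hf (p + 1) x (by omega) (by omega) hy
        linarith) (hu.mono (p + 1) q (by omega) le_rfl)
    have h2 := hu p q le_rfl (by omega) le_rfl
    have h3 := hf0 (p + 1) (by omega) (by omega)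
    have h4 : |f (p + 1) * ∑ n ∈ Ioc p q, u n| ≤ f (p + 1) * D := by
      rw [abs_mul, abs_of_nonneg h3]
      exact mul_le_mul_of_nonneg_left h2 h3
    have h5 : |∑ n ∈ Ioc (p + 1) q, (f n - f (p + 1)) * u n| ≤ (f q - f (p + 1)) * D := by
      rcases h1 with h1 | h1
      · exact h1
      · subst h1
        have : q = p + 1 := by omega
        subst this
        simp
    rw [hS]
    refine (abs_add_le _ _).trans ?_
    linarith

/-- monotone or antitone between `p` and `q` -/
def MonAnti (f : ℕ → ℝ) (p q : ℕ) : Prop := (∀ x y, p < x → x ≤ y → y ≤ q → f x ≤ f y) ∨ (∀ x y, p < x → x ≤ y → y ≤ q → f y ≤ f x)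

theorem abel_one (u : ℕ → ℝ) (p q : ℕ) (D c : ℝ) (hD : 0 ≤ D) (hc : 0 ≤ c) (f : ℕ → ℝ) (hf : MonAnti f p q) (hf0 : ∀ x, p < x → x ≤ q → 0 ≤ f x ∧ f x ≤ c)
    (hu : SubSmall u p q D) : SubSmall (fun n => f n * u n) p q (c * D) := by
  intro p' q' h1 h2 h3
  rcases Nat.eq_or_lt_of_le h2 with h4 | h4
  · rw [h4, Ioc_self, sum_empty, abs_zero]
    positivity
  · obtain ⟨j, hj⟩ : ∃ j, q' = p' + j := ⟨q' - p', by omega⟩
    have hj0 : j ≠ 0 := by omega
    rcases hf with hf | hf
    · have h5 := abel_mono u q' D hD j p' (by omega) f (fun x y hx hxy hy => hf x y (by omega) hxy (by omega))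
        (fun x hx hy => (hf0 x (by omega) (by omega)).1) (hu.mono p' q' h1 h3)
      rcases h5 with h5 | h5
      · refine h5.trans ?_
        exact mul_le_mul_of_nonneg_right (hf0 q' (by omega) h3).2 hD
      · exact absurd h5 hj0
    · subst hj
      have h5 := abel_anti u p' D hD j f (fun x y hx hxy hy => hf x y (by omega) hxy (by omega))
        (fun x hx hy => (hf0 x (by omega) (by omega)).1) (hu.mono p' (p' + j) h1 h3)
      rcases h5 with h5 | h5
      · refine h5.trans ?_
        exact mul_le_mul_of_nonneg_right (hf0 (p' + 1) (by omega) (by omega)).2 hD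
      · exact absurd h5 hj0

/-- products of monotone weights -/
theorem abel_prod {ι : Type*} (s : Finset ι) (u : ℕ → ℝ) (p q : ℕ) (D c : ℝ) (hD : 0 ≤ D) (hc : 0 ≤ c) (f : ι → ℕ → ℝ)
    (hf : ∀ i ∈ s, MonAnti (f i) p q) (hf0 : ∀ i ∈ s, ∀ x, p < x → x ≤ q → 0 ≤ f i x ∧ f i x ≤ c)
    (hu : SubSmall u p q D) : SubSmall (fun n => (∏ i ∈ s, f i n) * u n) p q (c ^ s.card * D) := by
  classical
  induction s using Finset.induction_on with
  | empty =>
    simp only [prod_empty, one_mul, card_empty, pow_zero]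
    exact hu
  | insert i s hi ih =>
    have h1 := ih (fun j hj => hf j (mem_insert_of_mem hj)) (fun j hj => hf0 j (mem_insert_of_mem hj))
    have h2 := abel_one _ p q (c ^ s.card * D) c (by positivity) hc (f i) (hf i (mem_insert_self _ _)) (hf0 i (mem_insert_self _ _)) h1
    intro p' q' h3 h4 h5
    have h6 := h2 p' q' h3 h4 h5
    rw [card_insert_of_notMem hi, pow_succ]
    have e : ∑ n ∈ Ioc p' q', (∏ i ∈ insert i s, f i n) * u n = ∑ n ∈ Ioc p' q', f i n * ((∏ i ∈ s, f i n) * u n) := by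
      apply sum_congr rfl
      intro n _
      rw [prod_insert hi, mul_assoc]
    rw [e]
    refine h6.trans (le_of_eq ?_)
    ring

/-- from a grid to all arguments -/
theorem grid_lemma2 (f g : ℕ → ℝ) (hf : ∀ x y, x ≤ y → f x ≤ f y) (hg1 : ∀ x y, x ≤ y → g x ≤ g y)
    (s : ℝ) (hs : 0 ≤ s) (hg2 : ∀ x y : ℕ, x ≤ y → g y ≤ g x + s * ((y : ℝ) - x)) (X M : ℕ) (hX : 1 ≤ X) (hM : 1 ≤ M) (err : ℝ)
    (hg : ∀ j : ℕ, j ≤ M → |f (X * j / M) - g (X * j / M)| ≤ err) (y : ℕ) (hy : y ≤ X) :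
    |f y - g y| ≤ err + s * (X / M + 1) := by
  have hM0 : (0 : ℝ) < M := by exact_mod_cast hM
  have hMn : 0 < M := hM
  set j : ℕ := y * M / X with hj
  have hjM : j ≤ M := by
    apply Nat.div_le_of_le_mul
    exact Nat.mul_le_mul_right M hy
  have hjlow : X * j / M ≤ y := by
    apply Nat.div_le_of_le_mul
    have := Nat.mul_div_le (y * M) X
    rw [mul_comm M y]
    exact this
  set j' : ℕ := min (j + 1) M with hj'
  have hj'M : j' ≤ M := min_le_right _ _
  have hjup : y ≤ X * j' / M := by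
    rw [Nat.le_div_iff_mul_le hMn, hj']
    rcases Nat.lt_or_ge j M with h3 | h3
    · rw [min_eq_left (by omega)]
      have := Nat.lt_mul_div_succ (y * M) (show 0 < X by omega)
      exact this.le
    · rw [min_eq_right (by omega)]
      exact Nat.mul_le_mul_right M hy
  have hdl : (y : ℝ) - (X / M + 1) ≤ ((X * j / M : ℕ) : ℝ) := by
    have h3 : (y : ℝ) * M < X * (j + 1) := by
      have := Nat.lt_mul_div_succ (y * M) (show 0 < X by omega)
      exact_mod_cast this
    have h4 : (X : ℝ) * j < M * (((X * j / M : ℕ) : ℝ) + 1) := by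
      have := Nat.lt_mul_div_succ (X * j) hMn
      exact_mod_cast this
    have h5 : ((y : ℝ) - (X / M + 1)) * M = y * M - X - M := by
      rw [sub_mul, add_mul, div_mul_cancel₀ _ hM0.ne', one_mul]; ring
    have h6 : ((y : ℝ) - (X / M + 1)) * M ≤ ((X * j / M : ℕ) : ℝ) * M := by
      rw [h5]
      linarith
    exact le_of_mul_le_mul_right h6 hM0
  have hdu : ((X * j' / M : ℕ) : ℝ) ≤ (y : ℝ) + (X / M + 1) := by
    have h3 : (X : ℝ) * j ≤ y * M := by
      have := Nat.mul_div_le (y * M) X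
      exact_mod_cast this
    have h4 : ((X * j' / M : ℕ) : ℝ) * M ≤ X * j' := by
      have := Nat.div_mul_le_self (X * j') M
      exact_mod_cast this
    have h5 : (j' : ℝ) ≤ j + 1 := by
      have : j' ≤ j + 1 := min_le_left _ _
      exact_mod_cast this
    have h7 : (X : ℝ) * j' ≤ X * (j + 1) := by gcongr
    have h6 : ((X * j' / M : ℕ) : ℝ) * M ≤ ((y : ℝ) + (X / M + 1)) * M := by
      have e : ((y : ℝ) + (X / M + 1)) * M = y * M + X + M := by
        rw [add_mul, add_mul, div_mul_cancel₀ _ hM0.ne', one_mul]; ring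
      rw [e]
      linarith
    exact le_of_mul_le_mul_right h6 hM0
  have u1 := (abs_le.1 (hg j' hj'M)).2
  have u2 := hf y _ hjup
  have u4 := hg2 y _ hjup
  have v1 := (abs_le.1 (hg j hjM)).1
  have v2 := hf _ y hjlow
  have v4 := hg2 _ y hjlow
  have u3 : s * (((X * j' / M : ℕ) : ℝ) - y) ≤ s * (X / M + 1) := mul_le_mul_of_nonneg_left (by linarith) hs
  have v3 : s * ((y : ℝ) - ((X * j / M : ℕ) : ℝ)) ≤ s * (X / M + 1) := mul_le_mul_of_nonneg_left (by linarith) hs
  rw [abs_le]
  constructor <;> linarith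

end

end Run7.h402.PD
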