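import Mathlib
import Pool.Agent.Run7.h402.PD.D3
import Pool.Agent.Run7.h402.PD.D4
import Pool.Agent.Run7.h402.PX.X12

/-!
# Systems of linear forms: the formulas for one system from the grid
-/

set_option autoImplicit false

open Finset
open Filter (Tendsto atTop)
open scoped Topology

namespace Run7.h402.PD

open Run7.h402.PX Run7.h402.PV
open Pool.Agent.H373R2.T7 (Vz Vz_inv_small Vz_pos lamz lamz_nonneg pz mem_pz)
open Pool.Agent.N475.SP (dom)

noncomputable section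

/-- the weighted number of `n` in `(y1, y2]` such that all the forms are prime -/
def wD {K : ℕ} (a v : Fin K → ℤ) (y1 y2 : ℕ) : ℝ := ∑ n ∈ Ioc y1 y2, ∏ i, Run7.h402.PT.Fp (nf (a i) (v i) n)

/-- the number of `n` in `(y1, y2]` such that all the forms are prime -/
def cD {K : ℕ} (a v : Fin K → ℤ) (y1 y2 : ℕ) : ℕ := ((Ioc y1 y2).filter (fun n => ∀ i, (nf (a i) (v i) n).Prime)).card

/-- the number of `n` in `(y1, y2]` such that all the forms are positive -/
def posD {K : ℕ} (a v : Fin K → ℤ) (y1 y2 : ℕ) : ℕ := ((Ioc y1 y2).filter (fun n : ℕ => ∀ i, 0 < a i * n + v i)).card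

/-- the sum of the products of the reciprocals of the logarithms -/
def lD {K : ℕ} (a v : Fin K → ℤ) (y1 y2 : ℕ) : ℝ := ∑ n ∈ (Ioc y1 y2).filter (fun n : ℕ => ∀ i, 2 ≤ a i * n + v i), ∏ i, (Real.log ((a i * n + v i : ℤ) : ℝ))⁻¹

/-- what is shown for almost all systems -/
def FineD (A X : ℕ) {K : ℕ} (a v : Fin K → ℤ) : Prop :=
  Indep a v ∧ ((∀ p, p.Prime → nz a v p < p) → ∀ S : ℝ, Tendsto (lS K (nz a v)) atTop (𝓝 S) → 0 < S ∧ ∀ y1 y2 : ℕ, y1 ≤ y2 → y2 ≤ X →
    |wD a v y1 y2 - S * posD a v y1 y2| ≤ S * (X / Real.log X ^ A) ∧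
    |(cD a v y1 y2 : ℝ) - S * lD a v y1 y2| ≤ S * (X / Real.log X ^ (A + K)))

theorem Fp_nonneg' (n : ℕ) : 0 ≤ Run7.h402.PT.Fp n := by
  unfold Run7.h402.PT.Fp
  split_ifs
  · exact Real.log_natCast_nonneg _
  · exact le_rfl

theorem posD_split {K : ℕ} (a v : Fin K → ℤ) (y1 y2 : ℕ) (h : y1 ≤ y2) : (posD a v 0 y2 : ℝ) = posD a v 0 y1 + posD a v y1 y2 := by
  unfold posD
  have h1 : (Ioc 0 y2).filter (fun n : ℕ => ∀ i, 0 < a i * n + v i) = (Ioc 0 y1).filter (fun n : ℕ => ∀ i, 0 < a i * n + v i) ∪ (Ioc y1 y2).filter (fun n : ℕ => ∀ i, 0 < a i * n + v i) := by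
    rw [← filter_union, Ioc_union_Ioc_eq_Ioc (Nat.zero_le y1) h]
  have h2 : Disjoint ((Ioc 0 y1).filter (fun n : ℕ => ∀ i, 0 < a i * n + v i)) ((Ioc y1 y2).filter (fun n : ℕ => ∀ i, 0 < a i * n + v i)) := by
    apply disjoint_filter_filter
    rw [disjoint_left]
    intro n hn hn'
    rw [mem_Ioc] at hn hn'
    omega
  rw [h1, card_union_of_disjoint h2]
  push_cast
  ring

theorem wD_split {K : ℕ} (a v : Fin K → ℤ) (y1 y2 : ℕ) (h : y1 ≤ y2) : wD a v 0 y2 = wD a v 0 y1 + wD a v y1 y2 := by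
  unfold wD
  rw [← Ioc_union_Ioc_eq_Ioc (Nat.zero_le y1) h, sum_union]
  rw [disjoint_left]
  intro n hn hn'
  rw [mem_Ioc] at hn hn'
  omega

theorem wD_nonneg {K : ℕ} (a v : Fin K → ℤ) (y1 y2 : ℕ) : 0 ≤ wD a v y1 y2 := sum_nonneg fun n _ => prod_nonneg fun i _ => Fp_nonneg' _

theorem posD_le {K : ℕ} (a v : Fin K → ℤ) (y1 y2 : ℕ) (h : y1 ≤ y2) : (posD a v y1 y2 : ℝ) ≤ (y2 : ℝ) - y1 := by
  rw [← Nat.cast_sub h]
  unfold posD
  have := card_filter_le (Ioc y1 y2) (fun n : ℕ => ∀ i, 0 < a i * n + v i)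
  rw [Nat.card_Ioc] at this
  exact_mod_cast this

theorem cast_toNat (x : ℤ) (h : 0 < x) : ((x.toNat : ℕ) : ℝ) = (x : ℝ) := by
  have : ((x.toNat : ℕ) : ℤ) = x := Int.toNat_of_nonneg h.le
  exact_mod_cast this

/-- the weights -/
theorem uD {K : ℕ} (a v : Fin K → ℤ) (S : ℝ) (p q : ℕ) :
    ∑ n ∈ Ioc p q, (∏ i, Run7.h402.PT.Fp (nf (a i) (v i) n) - S * (if (∀ i, 0 < a i * (n : ℤ) + v i) then (1 : ℝ) else 0)) = wD a v p q - S * posD a v p q := by
  rw [sum_sub_distrib, ← mul_sum]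
  unfold wD posD
  rw [← sum_filter, sum_const, nsmul_eq_mul, mul_one]

/-- from weights to counts: one system -/
theorem unweightD {K : ℕ} (a v : Fin K → ℤ) (ha : ∀ i, a i ≠ 0) (S : ℝ) (hS : 0 ≤ S) (y1 y2 : ℕ) (h12 : y1 ≤ y2) (D : ℝ) (hD : 0 ≤ D)
    (hu : ∀ p q : ℕ, y1 ≤ p → p ≤ q → q ≤ y2 → |wD a v p q - S * posD a v p q| ≤ D) (t : ℕ) (ht : 3 ≤ t) (c : ℝ) (hc : (Real.log t)⁻¹ ≤ c) :
    |(cD a v y1 y2 : ℝ) - S * lD a v y1 y2| ≤ c ^ K * D + ((K * t : ℕ) : ℝ) * (1 + S * 2 ^ K) := by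
  classical
  have hlt : 0 < Real.log t := Real.log_pos (by exact_mod_cast (by omega : 1 < t))
  have hc0 : 0 ≤ c := (inv_nonneg.2 hlt.le).trans hc
  obtain ⟨p, q, hp1, hpq, hq, hR⟩ := reg_ioc a v (t : ℤ) y1 y2 h12
  set f : Fin K → ℕ → ℝ := fun i n => (Real.log ((a i * n + v i : ℤ) : ℝ))⁻¹ with hf
  set u : ℕ → ℝ := fun n => ∏ i, Run7.h402.PT.Fp (nf (a i) (v i) n) - S * (if (∀ i, 0 < a i * (n : ℤ) + v i) then (1 : ℝ) else 0) with hud
  have hreg : ∀ n, p < n → n ≤ q → ∀ i, (t : ℤ) ≤ a i * n + v i := by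
    intro n h1 h2
    have : n ∈ (Ioc y1 y2).filter (fun n : ℕ => ∀ i, (t : ℤ) ≤ a i * n + v i) := by
      rw [hR, mem_Ioc]
      exact ⟨h1, h2⟩
    exact (mem_filter.1 this).2
  have hsmall : SubSmall u p q D := by
    intro p' q' h1 h2 h3
    rw [hud, uD]
    exact hu p' q' (hp1.trans h1) h2 (h3.trans hq)
  have hlogmono : ∀ x y : ℤ, (t : ℤ) ≤ x → x ≤ y → (Real.log (y : ℝ))⁻¹ ≤ (Real.log (x : ℝ))⁻¹ := by
    intro x y h1 h2
    have hx : (1 : ℝ) < x := by exact_mod_cast (by omega : (1 : ℤ) < x)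
    apply inv_anti₀ (Real.log_pos hx)
    exact Real.log_le_log (by linarith) (by exact_mod_cast h2)
  have hma : ∀ i ∈ (univ : Finset (Fin K)), MonAnti (f i) p q := by
    intro i _
    rcases lt_or_gt_of_ne (ha i) with h1 | h1
    · left
      intro x y hx hxy hy
      apply hlogmono
      · exact hreg y (by omega) hy i
      · have : (x : ℤ) ≤ y := by exact_mod_cast hxy
        nlinarith
    · right
      intro x y hx hxy hy
      apply hlogmono
      · exact hreg x hx (by omega) i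
      · have : (x : ℤ) ≤ y := by exact_mod_cast hxy
        nlinarith
  have hbd : ∀ i ∈ (univ : Finset (Fin K)), ∀ x, p < x → x ≤ q → 0 ≤ f i x ∧ f i x ≤ c := by
    intro i _ x hx hxq
    have h1 := hreg x hx hxq i
    have hx1 : (1 : ℝ) < ((a i * x + v i : ℤ) : ℝ) := by exact_mod_cast (by omega : (1 : ℤ) < a i * x + v i)
    refine ⟨inv_nonneg.2 (Real.log_pos hx1).le, ?_⟩
    refine le_trans ?_ hc
    apply inv_anti₀ hlt
    apply Real.log_le_log (by exact_mod_cast (by omega : 0 < t))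
    exact_mod_cast h1
  have key := abel_prod univ u p q D c hD hc0 f hma hbd hsmall p q le_rfl hpq le_rfl
  rw [card_univ, Fintype.card_fin] at key
  -- the two sides on the region
  have hmain : ∑ n ∈ Ioc p q, (∏ i, f i n) * u n = (((Ioc p q).filter (fun n => ∀ i, (nf (a i) (v i) n).Prime)).card : ℝ) - S * ∑ n ∈ Ioc p q, ∏ i, f i n := by
    have e : ∀ n ∈ Ioc p q, (∏ i, f i n) * u n = (if (∀ i, (nf (a i) (v i) n).Prime) then (1 : ℝ) else 0) - S * ∏ i, f i n := by
      intro n hn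
      rw [mem_Ioc] at hn
      have h1 := hreg n hn.1 hn.2
      have h2 : ∀ i, 0 < a i * (n : ℤ) + v i := fun i => by have := h1 i; omega
      rw [hud]
      simp only
      rw [if_pos h2, mul_one, mul_sub, mul_comm _ S]
      congr 1
      rw [← prod_mul_distrib]
      have h3 : ∀ i ∈ (univ : Finset (Fin K)), f i n * Run7.h402.PT.Fp (nf (a i) (v i) n) = if (nf (a i) (v i) n).Prime then 1 else 0 := by
        intro i _
        unfold Run7.h402.PT.Fp
        split_ifs with h4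
        · rw [hf]
          simp only
          have e1 : ((nf (a i) (v i) n : ℕ) : ℝ) = ((a i * n + v i : ℤ) : ℝ) := cast_toNat _ (h2 i)
          rw [e1]
          apply inv_mul_cancel₀
          rw [← e1]
          exact (Real.log_pos (by exact_mod_cast h4.one_lt)).ne'
        · rw [mul_zero]
      rw [prod_congr rfl h3]
      split_ifs with h5
      · apply prod_eq_one
        intro i _
        rw [if_pos (h5 i)]
      · push Not at h5
        obtain ⟨i, hi⟩ := h5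
        apply prod_eq_zero (mem_univ i)
        rw [if_neg hi]
    rw [sum_congr rfl e, sum_sub_distrib, ← sum_filter, sum_const, nsmul_eq_mul, mul_one, ← mul_sum]
  rw [hmain] at key
  -- the exceptional arguments
  set T := (Ioc y1 y2).filter (fun n : ℕ => ∃ i, (0 : ℤ) ≤ a i * n + v i ∧ a i * n + v i < (t : ℤ)) with hT
  have hTc : (T.card : ℝ) ≤ ((K * t : ℕ) : ℝ) := by
    exact_mod_cast few_small a v ha 0 (t : ℤ) t (by omega) (Ioc y1 y2)
  have hT0 : (0 : ℝ) ≤ T.card := by positivity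
  have hsubI : Ioc p q ⊆ Ioc y1 y2 := by
    rw [← hR]
    exact filter_subset _ _
  -- counts
  have hc1 : (((Ioc p q).filter (fun n => ∀ i, (nf (a i) (v i) n).Prime)).card : ℝ) ≤ cD a v y1 y2 := by
    unfold cD
    exact_mod_cast card_le_card (filter_subset_filter _ hsubI)
  have hc2 : (cD a v y1 y2 : ℝ) ≤ (((Ioc p q).filter (fun n => ∀ i, (nf (a i) (v i) n).Prime)).card : ℝ) + T.card := by
    have h1 : (Ioc y1 y2).filter (fun n => ∀ i, (nf (a i) (v i) n).Prime) ⊆ (Ioc p q).filter (fun n => ∀ i, (nf (a i) (v i) n).Prime) ∪ T := by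
      intro n hn
      rw [mem_filter] at hn
      rw [mem_union, mem_filter, hT, mem_filter]
      by_cases h2 : ∀ i, (t : ℤ) ≤ a i * n + v i
      · left
        refine ⟨?_, hn.2⟩
        rw [← hR, mem_filter]
        exact ⟨hn.1, h2⟩
      · right
        push Not at h2
        obtain ⟨i, hi⟩ := h2
        refine ⟨hn.1, i, ?_, hi⟩
        have h3 := (hn.2 i).one_lt
        unfold nf at h3
        omega
    have h2 := (card_le_card h1).trans (card_union_le _ _)
    unfold cD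
    exact_mod_cast h2
  -- sums
  have hf0 : ∀ n ∈ (Ioc y1 y2).filter (fun n : ℕ => ∀ i, 2 ≤ a i * n + v i), 0 ≤ ∏ i, f i n := by
    intro n hn
    rw [mem_filter] at hn
    apply prod_nonneg
    intro i _
    apply inv_nonneg.2
    apply Real.log_nonneg
    have := hn.2 i
    exact_mod_cast (by omega : (1 : ℤ) ≤ a i * n + v i)
  have hsub2 : Ioc p q ⊆ (Ioc y1 y2).filter (fun n : ℕ => ∀ i, 2 ≤ a i * n + v i) := by
    intro n hn
    rw [mem_filter]
    refine ⟨hsubI hn, fun i => ?_⟩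
    have h1 := mem_Ioc.1 hn
    have := hreg n h1.1 h1.2 i
    omega
  have hl1 : ∑ n ∈ Ioc p q, ∏ i, f i n ≤ lD a v y1 y2 := by
    unfold lD
    exact sum_le_sum_of_subset_of_nonneg hsub2 fun n hn _ => hf0 n hn
  have hl2 : lD a v y1 y2 ≤ ∑ n ∈ Ioc p q, ∏ i, f i n + T.card * 2 ^ K := by
    have h1 : lD a v y1 y2 = ∑ n ∈ Ioc p q, ∏ i, f i n + ∑ n ∈ (Ioc y1 y2).filter (fun n : ℕ => ∀ i, 2 ≤ a i * n + v i) \ Ioc p q, ∏ i, f i n := by
      unfold lD
      rw [add_comm]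
      exact (sum_sdiff hsub2).symm
    rw [h1]
    have h2 : ∑ n ∈ (Ioc y1 y2).filter (fun n : ℕ => ∀ i, 2 ≤ a i * n + v i) \ Ioc p q, ∏ i, f i n ≤
        ∑ _n ∈ (Ioc y1 y2).filter (fun n : ℕ => ∀ i, 2 ≤ a i * n + v i) \ Ioc p q, (2 : ℝ) ^ K := by
      apply sum_le_sum
      intro n hn
      rw [mem_sdiff, mem_filter] at hn
      calc ∏ i, f i n ≤ ∏ _i : Fin K, (2 : ℝ) := by
            apply prod_le_prod
            · intro i _
              apply inv_nonneg.2
              apply Real.log_nonneg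
              have := hn.1.2 i
              exact_mod_cast (by omega : (1 : ℤ) ≤ a i * n + v i)
            · intro i _
              rw [hf]
              simp only
              rw [inv_le_comm₀ _ (by norm_num)]
              · have h3 : (2 : ℝ) ≤ ((a i * n + v i : ℤ) : ℝ) := by exact_mod_cast hn.1.2 i
                have h4 := Real.log_le_log (by norm_num) h3
                have h5 := Real.log_two_gt_d9
                linarith
              · apply Real.log_pos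
                have := hn.1.2 i
                exact_mod_cast (by omega : (1 : ℤ) < a i * n + v i)
        _ = 2 ^ K := by rw [prod_const, card_univ, Fintype.card_fin]
    rw [sum_const, nsmul_eq_mul] at h2
    have h3 : ((((Ioc y1 y2).filter (fun n : ℕ => ∀ i, 2 ≤ a i * n + v i)) \ Ioc p q).card : ℝ) ≤ T.card := by
      have h4 : ((Ioc y1 y2).filter (fun n : ℕ => ∀ i, 2 ≤ a i * n + v i)) \ Ioc p q ⊆ T := by
        intro n hn
        rw [mem_sdiff, mem_filter, ← hR, mem_filter] at hn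
        rw [hT, mem_filter]
        refine ⟨hn.1.1, ?_⟩
        have h5 : ¬ ∀ i, (t : ℤ) ≤ a i * n + v i := fun h6 => hn.2 ⟨hn.1.1, h6⟩
        push Not at h5
        obtain ⟨i, hi⟩ := h5
        refine ⟨i, ?_, hi⟩
        have := hn.1.2 i
        omega
      exact_mod_cast card_le_card h4
    have h4 : ((((Ioc y1 y2).filter (fun n : ℕ => ∀ i, 2 ≤ a i * n + v i)) \ Ioc p q).card : ℝ) * 2 ^ K ≤ T.card * 2 ^ K := by gcongr
    linarith
  have hk1 := (abs_le.1 key).1
  have hk2 := (abs_le.1 key).2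
  have hST : S * (T.card * 2 ^ K) ≤ ((K * t : ℕ) : ℝ) * (S * 2 ^ K) := by
    calc S * (T.card * 2 ^ K) = T.card * (S * 2 ^ K) := by ring
      _ ≤ _ := by gcongr
  have hS1 : S * ∑ n ∈ Ioc p q, ∏ i, f i n ≤ S * lD a v y1 y2 := mul_le_mul_of_nonneg_left hl1 hS
  have hS2 : S * lD a v y1 y2 ≤ S * ∑ n ∈ Ioc p q, ∏ i, f i n + S * (T.card * 2 ^ K) := by
    rw [← mul_add]
    exact mul_le_mul_of_nonneg_left hl2 hS
  have hK0 : (0 : ℝ) ≤ ((K * t : ℕ) : ℝ) := by positivity
  have hK1 : (0 : ℝ) ≤ ((K * t : ℕ) : ℝ) * (S * 2 ^ K) := by positivity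
  rw [abs_le, mul_add, mul_one]
  constructor <;> linarith

end

end Run7.h402.PD
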