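import Mathlib
import Pool.Agent.Run7.h402.PD.D5

/-!
# Systems of linear forms: the formulas for one system from the grid, final form
-/

set_option autoImplicit false

open Finset
open Filter (Tendsto atTop)
open scoped Topology

namespace Run7.h402.PD

open Run7.h402.PX Run7.h402.PV
open Pool.Agent.H373R2.T7 (Vz Vz_inv_small Vz_pos lamz lamz_nonneg pz mem_pz)
open Pool.Agent.N475.SP (dom)

noncomputable section

theorem natAbs_cast (x : ℤ) : ((x.natAbs : ℕ) : ℝ) = |(x : ℝ)| := by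
  rw [← Int.cast_abs, Int.abs_eq_natAbs]
  simp

/-- sizes -/
theorem sizes {T : ℕ} {L : ℝ} (hL1 : 1000 ≤ L) (hT : 4 * L ^ (2 * T) ≤ Real.exp L) (X : ℕ) (hX : Real.exp L = X) {K : ℕ} (a v : Fin K → ℤ)
    (ha : ∀ i, |(a i : ℝ)| ≤ L ^ T) (hv : ∀ i, |(v i : ℝ)| ≤ 2 * X * L ^ T) :
    (∀ i, Real.log ((a i).natAbs : ℝ) ≤ 2 * L) ∧ (∀ i j, Real.log ((a i * v j - a j * v i).natAbs : ℝ) ≤ 2 * L) ∧
      ∀ n : ℕ, n ≤ X → ∀ i, Run7.h402.PT.Fp (nf (a i) (v i) n) ≤ 2 * L := by
  have hL0 : 0 < L := by linarith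
  have hX0 : (0 : ℝ) < X := by rw [← hX]; exact Real.exp_pos _
  have hX1 : (1 : ℝ) ≤ X := by rw [← hX]; exact Real.one_le_exp hL0.le
  have hLT : 1 ≤ L ^ T := one_le_pow₀ (by linarith)
  have hLT2 : L ^ (2 * T) = L ^ T * L ^ T := by rw [two_mul, pow_add]
  have h2L : ∀ x : ℝ, 0 ≤ x → x ≤ 4 * L ^ (2 * T) * X → Real.log x ≤ 2 * L := by
    intro x hx0 hx
    rcases hx0.eq_or_lt with h | h
    · rw [← h, Real.log_zero]
      linarith
    · rw [Real.log_le_iff_le_exp h]
      refine hx.trans ?_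
      calc 4 * L ^ (2 * T) * (X : ℝ) ≤ Real.exp L * Real.exp L := by
            rw [← hX]
            exact mul_le_mul_of_nonneg_right hT (Real.exp_pos _).le
        _ = Real.exp (2 * L) := by rw [← Real.exp_add]; congr 1; ring
  refine ⟨fun i => ?_, fun i j => ?_, fun n hn i => ?_⟩
  · rw [natAbs_cast]
    apply h2L _ (abs_nonneg _)
    refine (ha i).trans ?_
    rw [hLT2]
    calc L ^ T = L ^ T * (1 * 1) := by ring
      _ ≤ (4 * (L ^ T * L ^ T)) * X := by
          have : L ^ T * (1 * 1) ≤ L ^ T * (L ^ T * X) := by gcongr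
          have h9 : 0 ≤ L ^ T * (L ^ T * X) := by positivity
          linarith
  · rw [natAbs_cast]
    apply h2L _ (abs_nonneg _)
    push_cast
    refine (abs_sub _ _).trans ?_
    rw [abs_mul, abs_mul]
    calc |(a i : ℝ)| * |(v j : ℝ)| + |(a j : ℝ)| * |(v i : ℝ)| ≤ L ^ T * (2 * X * L ^ T) + L ^ T * (2 * X * L ^ T) := by
          apply add_le_add
          · exact mul_le_mul (ha i) (hv j) (abs_nonneg _) (by positivity)
          · exact mul_le_mul (ha j) (hv i) (abs_nonneg _) (by positivity)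
      _ = 4 * L ^ (2 * T) * X := by rw [hLT2]; ring
  · unfold Run7.h402.PT.Fp
    split_ifs with h
    · apply h2L _ (Nat.cast_nonneg _)
      have h1 := h.one_lt
      have h2 : 0 < a i * n + v i := by
        unfold nf at h1
        omega
      have e : ((nf (a i) (v i) n : ℕ) : ℝ) = ((a i * n + v i : ℤ) : ℝ) := cast_toNat _ h2
      rw [e]
      push_cast
      have h3 := (le_abs_self (a i : ℝ)).trans (ha i)
      have h4 := (le_abs_self (v i : ℝ)).trans (hv i)
      have hn' : (n : ℝ) ≤ X := by exact_mod_cast hn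
      have hn0 : (0 : ℝ) ≤ n := by positivity
      calc (a i : ℝ) * n + v i ≤ L ^ T * X + 2 * X * L ^ T := by
            apply add_le_add _ h4
            calc (a i : ℝ) * n ≤ L ^ T * n := by gcongr
              _ ≤ L ^ T * X := by gcongr
        _ = 3 * (L ^ T * 1) * X := by ring
        _ ≤ 4 * (L ^ T * L ^ T) * X := by gcongr <;> linarith
        _ = _ := by rw [hLT2]
    · linarith

/-- the formulas for one system from the grid -/
theorem fine_forms {B E A T : ℕ} {L : ℝ} (A3 : ℕ) (hA3 : A3 = 5 * B + A + 6) (bg : Big B E (A3 + 2) L) (hE : A3 + 10 ≤ E) {K : ℕ} (hK : 1 ≤ K)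
    (hKB : (K : ℝ) ≤ B * Real.log L) (X M : ℕ) (hX : Real.exp L = X) (hM : L ^ (A + 3) ≤ M) (hMX : M ≤ X) (hV : (Vz (zL E L))⁻¹ ≤ L)
    (hT : 4 * L ^ (2 * T) ≤ Real.exp L) (a v : Fin K → ℤ) (ha0 : ∀ i, a i ≠ 0)
    (ha : ∀ i, |(a i : ℝ)| ≤ L ^ T) (hv : ∀ i, |(v i : ℝ)| ≤ 2 * X * L ^ T) (hind : Indep a v)
    (hgrid : ∀ j : ℕ, j ≤ M → |∑ n ∈ Ioc 0 (X * j / M), (∏ i, fp (zL E L) (nf (a i) (v i) n) - ∏ i, gp (zL E L) (nf (a i) (v i) n))| ≤ X / L ^ A3) :
    FineD A X a v := by
  obtain ⟨hL0, hLe, hs1, hss, hsL, f1, f2, f3, f4, f5, f6⟩ := big_facts bg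
  have h1 := bg.b1
  have h0 := bg.b0
  have h3b := bg.b3
  have h4b := bg.b4
  have hX0 : (0 : ℝ) < X := by rw [← hX]; exact Real.exp_pos _
  have hXn : 1 ≤ X := by exact_mod_cast hX0
  have hlogX : Real.log X = L := by rw [← hX, Real.log_exp]
  set ℓ := Real.log L with hℓ
  have hpow : ∀ n : ℕ, L ^ n = Real.exp (n * ℓ) := by
    intro n
    rw [Real.exp_nat_mul, hLe]
  have hKr : (1 : ℝ) ≤ K := by exact_mod_cast hK
  have hKL : (K : ℝ) ≤ L := by linarith
  have hE1 : 1 ≤ E := by omega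
  refine ⟨hind, fun hadm S hS => ?_⟩
  have hνK : ∀ p, p.Prime → nz a v p ≤ K := fun p hp => nz_le a v p hp (hadm p hp)
  obtain ⟨hz1, hz2, hz3⟩ := zL_bounds bg hE1
  obtain ⟨g1, g2, g3⟩ := sizes h1 hT X hX a v ha hv
  have hlow := lS_low hK (nz a v) hadm hνK (zL E L)
  have hSs := S_parz bg (by omega) hKB (nz a v) (fun p _ => nz_le_p a v p) hνK (badp a v) (badp_card a v ha0 hind (2 * L) g1 g2)
    (fun p hp h => nz_of_badp a v ha0 hind p hp h) S hS
  have hsm := small_term bg hE1 K hKB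
  rw [hX] at hsm
  set z := zL E L with hz
  set s := lS K (nz a v) z with hs
  have hs0 : 0 < s := (Real.exp_pos _).trans_le hlow
  have hLA : ∀ n : ℕ, 1 ≤ L ^ n := fun n => one_le_pow₀ (by linarith)
  have hsS : s ≤ 2 * S ∧ S ≤ 2 * s := by
    have h3 := (abs_le.1 hSs).1
    have h3' := (abs_le.1 hSs).2
    have h4 : s / L ^ (A3 + 2 + 2) ≤ s / 2 := by
      apply div_le_div_of_nonneg_left hs0.le (by norm_num)
      calc (2 : ℝ) ≤ L := by linarith
        _ = L ^ 1 := (pow_one L).symm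
        _ ≤ L ^ (A3 + 2 + 2) := pow_le_pow_right₀ (by linarith) (by omega)
    constructor <;> linarith
  have hS0 : 0 < S := by linarith [hsS.1]
  refine ⟨hS0, ?_⟩
  have hMr : (1 : ℝ) ≤ M := (hLA _).trans hM
  have hM1 : 1 ≤ M := by exact_mod_cast hMr
  -- the lower bound for s as a power of L
  have hsl : 1 / L ^ (5 * B) ≤ s := by
    refine le_trans ?_ hlow
    rw [hpow, one_div, ← Real.exp_neg]
    apply Real.exp_le_exp.2
    push_cast
    linarith
  -- the upper bound for s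
  have hsu : s ≤ L ^ K := by
    rw [hs, lS_eq]
    have hV0 : 0 ≤ (Vz z)⁻¹ := inv_nonneg.2 (Vz_pos z).le
    have h3 : ∏ p ∈ pz z, (1 - (nz a v p : ℝ) / p) ≤ 1 := by
      apply prod_le_one
      · intro p hp
        have hp0 : (0 : ℝ) < p := by exact_mod_cast (mem_pz.1 hp).2.pos
        have h4 : (nz a v p : ℝ) / p ≤ 1 := by
          rw [div_le_one hp0]
          exact_mod_cast nz_le_p a v p
        linarith
      · intro p _
        have : 0 ≤ (nz a v p : ℝ) / p := by positivity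
        linarith
    calc (Vz z)⁻¹ ^ K * ∏ p ∈ pz z, (1 - (nz a v p : ℝ) / p) ≤ (Vz z)⁻¹ ^ K * 1 := by gcongr
      _ ≤ L ^ K := by rw [mul_one]; gcongr
  -- small quantities
  have hLA3 : L ^ (A3 + 2) = L ^ 2 * L ^ A3 := by rw [pow_add]; ring
  have hK3 : (K : ℝ) * (X / L ^ (A3 + 2)) ≤ (X / L ^ A3) / 1000 := by
    rw [hLA3]
    have e : (K : ℝ) * (X / (L ^ 2 * L ^ A3)) = (K / L ^ 2) * (X / L ^ A3) := by field_simp
    rw [e]
    have h5 : (K : ℝ) / L ^ 2 ≤ 1 / 1000 := by
      rw [div_le_div_iff₀ (by positivity) (by norm_num), one_mul, pow_two]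
      exact mul_le_mul hKL h1 (by norm_num) hL0.le
    calc (K / L ^ 2) * (X / L ^ A3) ≤ (1 / 1000) * (X / L ^ A3) := by gcongr
      _ = _ := by ring
  have hKz : ((K * z : ℕ) : ℝ) * (2 * L) ^ K ≤ (X / L ^ A3) / 1000 := by
    push_cast
    have h5 : (z : ℝ) * (2 * L) ^ K ≤ X / L ^ (A3 + 2) := by
      refine le_trans ?_ hsm
      have h6 : 0 ≤ (2 * L) ^ K := by positivity
      have hz0 : (0 : ℝ) ≤ z := by positivity
      exact mul_le_mul (by linarith) (by linarith) h6 (by linarith)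
    calc (K : ℝ) * z * (2 * L) ^ K = K * (z * (2 * L) ^ K) := by ring
      _ ≤ K * (X / L ^ (A3 + 2)) := by gcongr
      _ ≤ _ := hK3
  have hKzs : s * ((K * z : ℕ) : ℝ) ≤ (X / L ^ A3) / 1000 := by
    refine le_trans ?_ hKz
    rw [mul_comm]
    apply mul_le_mul_of_nonneg_left _ (by positivity)
    refine hsu.trans ?_
    apply pow_le_pow_left₀ hL0.le
    linarith
  have hmod := fun y hy => model_int bg hE1 hK hKB X hX hV a v hνK y hy
  have hmod2 : 2 * (X / L ^ (A3 + 2)) ≤ (X / L ^ A3) / 1000 := by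
    rw [hLA3]
    have e : 2 * ((X : ℝ) / (L ^ 2 * L ^ A3)) = (2 / L ^ 2) * (X / L ^ A3) := by field_simp
    rw [e]
    have h5 : (2 : ℝ) / L ^ 2 ≤ 1 / 1000 := by
      rw [div_le_div_iff₀ (by positivity) (by norm_num), one_mul, pow_two]
      exact mul_le_mul (by linarith) h1 (by norm_num) hL0.le
    calc (2 / L ^ 2) * (X / L ^ A3) ≤ (1 / 1000) * (X / L ^ A3) := by gcongr
      _ = _ := by ring
  -- at the grid
  have hg : ∀ j : ℕ, j ≤ M → |wD a v 0 (X * j / M) - s * posD a v 0 (X * j / M)| ≤ 2 * (X / L ^ A3) := by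
    intro j hj
    have q1 := hgrid j hj
    have hle : X * j / M ≤ X := by
      apply Nat.div_le_of_le_mul
      rw [mul_comm M X]
      exact Nat.mul_le_mul_left X hj
    set y := X * j / M with hy
    have q2 := hmod y hle
    rw [sum_sub_distrib] at q1
    have q3 := trunc_z z (2 * L) (by linarith) a v ha0 y (fun n hn i => g3 n ((mem_Ioc.1 hn).2.trans hle) i)
    have q4 : |(((Ioc 0 y).filter (fun n : ℕ => ∀ i, (z : ℤ) + 1 ≤ a i * n + v i)).card : ℝ) - posD a v 0 y| ≤ ((K * z : ℕ) : ℝ) := by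
      have r1 : (Ioc 0 y).filter (fun n : ℕ => ∀ i, (z : ℤ) + 1 ≤ a i * n + v i) ⊆ (Ioc 0 y).filter (fun n : ℕ => ∀ i, 0 < a i * n + v i) := by
        intro n hn
        rw [mem_filter] at hn ⊢
        exact ⟨hn.1, fun i => by have := hn.2 i; omega⟩
      have r2 : (Ioc 0 y).filter (fun n : ℕ => ∀ i, 0 < a i * n + v i) ⊆ (Ioc 0 y).filter (fun n : ℕ => ∀ i, (z : ℤ) + 1 ≤ a i * n + v i) ∪
          (Ioc 0 y).filter (fun n : ℕ => ∃ i, (1 : ℤ) ≤ a i * n + v i ∧ a i * n + v i < (z : ℤ) + 1) := by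
        intro n hn
        rw [mem_filter] at hn
        rw [mem_union, mem_filter, mem_filter]
        by_cases h : ∀ i, (z : ℤ) + 1 ≤ a i * n + v i
        · exact Or.inl ⟨hn.1, h⟩
        · right
          push Not at h
          obtain ⟨i, hi⟩ := h
          exact ⟨hn.1, i, by have := hn.2 i; omega, hi⟩
      have r3 := few_small a v ha0 1 ((z : ℤ) + 1) z (by omega) (Ioc 0 y)
      have r4 := card_le_card r1
      have r5 := (card_le_card r2).trans (card_union_le _ _)
      unfold posD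
      have r6 : (((Ioc 0 y).filter (fun n : ℕ => ∀ i, (z : ℤ) + 1 ≤ a i * n + v i)).card : ℝ) ≤ (((Ioc 0 y).filter (fun n : ℕ => ∀ i, 0 < a i * n + v i)).card : ℝ) := by exact_mod_cast r4
      have r7 : (((Ioc 0 y).filter (fun n : ℕ => ∀ i, 0 < a i * n + v i)).card : ℝ) ≤ (((Ioc 0 y).filter (fun n : ℕ => ∀ i, (z : ℤ) + 1 ≤ a i * n + v i)).card : ℝ) + ((K * z : ℕ) : ℝ) := by
        exact_mod_cast r5.trans (Nat.add_le_add_left r3 _)
      rw [abs_le]
      constructor <;> linarith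
    set Z := (((Ioc 0 y).filter (fun n : ℕ => ∀ i, (z : ℤ) + 1 ≤ a i * n + v i)).card : ℝ) with hZ
    have q5 : |s * Z - s * posD a v 0 y| ≤ (X / L ^ A3) / 1000 := by
      rw [← mul_sub, abs_mul, abs_of_nonneg hs0.le]
      exact (mul_le_mul_of_nonneg_left q4 hs0.le).trans hKzs
    have e : wD a v 0 y - s * posD a v 0 y =
        (∑ n ∈ Ioc 0 y, ∏ i, Run7.h402.PT.Fp (nf (a i) (v i) n) - ∑ n ∈ Ioc 0 y, ∏ i, fp z (nf (a i) (v i) n)) +
        (∑ n ∈ Ioc 0 y, ∏ i, fp z (nf (a i) (v i) n) - ∑ n ∈ Ioc 0 y, ∏ i, gp z (nf (a i) (v i) n)) +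
        (∑ n ∈ Ioc 0 y, ∏ i, gp z (nf (a i) (v i) n) - s * Z) + (s * Z - s * posD a v 0 y) := by
      unfold wD
      ring
    rw [e]
    have t1 := abs_add_le ((∑ n ∈ Ioc 0 y, ∏ i, Run7.h402.PT.Fp (nf (a i) (v i) n) - ∑ n ∈ Ioc 0 y, ∏ i, fp z (nf (a i) (v i) n)) +
        (∑ n ∈ Ioc 0 y, ∏ i, fp z (nf (a i) (v i) n) - ∑ n ∈ Ioc 0 y, ∏ i, gp z (nf (a i) (v i) n)) +
        (∑ n ∈ Ioc 0 y, ∏ i, gp z (nf (a i) (v i) n) - s * Z)) (s * Z - s * posD a v 0 y)
    have t2 := abs_add_le ((∑ n ∈ Ioc 0 y, ∏ i, Run7.h402.PT.Fp (nf (a i) (v i) n) - ∑ n ∈ Ioc 0 y, ∏ i, fp z (nf (a i) (v i) n)) +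
        (∑ n ∈ Ioc 0 y, ∏ i, fp z (nf (a i) (v i) n) - ∑ n ∈ Ioc 0 y, ∏ i, gp z (nf (a i) (v i) n)))
        (∑ n ∈ Ioc 0 y, ∏ i, gp z (nf (a i) (v i) n) - s * Z)
    have t3 := abs_add_le (∑ n ∈ Ioc 0 y, ∏ i, Run7.h402.PT.Fp (nf (a i) (v i) n) - ∑ n ∈ Ioc 0 y, ∏ i, fp z (nf (a i) (v i) n))
        (∑ n ∈ Ioc 0 y, ∏ i, fp z (nf (a i) (v i) n) - ∑ n ∈ Ioc 0 y, ∏ i, gp z (nf (a i) (v i) n))
    have hp : 0 ≤ (X : ℝ) / L ^ A3 := by positivity
    linarith
  -- all y
  have hXs : X / L ^ A3 ≤ s * (X / L ^ (A + 6)) := by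
    have e : L ^ A3 = L ^ (5 * B) * L ^ (A + 6) := by rw [hA3, ← pow_add]; congr 1
    rw [e]
    calc (X : ℝ) / (L ^ (5 * B) * L ^ (A + 6)) = 1 / L ^ (5 * B) * (X / L ^ (A + 6)) := by field_simp
      _ ≤ s * (X / L ^ (A + 6)) := by gcongr
  set Δ := X / L ^ (A + 3) with hΔ
  have hΔ0 : 0 < Δ := by positivity
  have h63 : X / L ^ (A + 6) ≤ Δ / 1000 := by
    rw [hΔ, div_div]
    apply div_le_div_of_nonneg_left hX0.le (by positivity)
    have e : L ^ (A + 6) = L ^ (A + 3) * L ^ 3 := by rw [← pow_add]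
    rw [e]
    apply mul_le_mul_of_nonneg_left _ (by positivity)
    calc (1000 : ℝ) ≤ L := h1
      _ = L ^ 1 := (pow_one L).symm
      _ ≤ L ^ 3 := pow_le_pow_right₀ (by linarith) (by norm_num)
  have hall : ∀ y : ℕ, y ≤ X → |wD a v 0 y - S * posD a v 0 y| ≤ S * (8 * Δ) := by
    intro y hy
    have k1 := grid_lemma2 (fun y => wD a v 0 y) (fun y => s * posD a v 0 y)
      (fun x y hxy => by
        have := wD_split a v x y hxy
        have h9 := wD_nonneg a v x y
        linarith)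
      (fun x y hxy => by
        have h9 := posD_split a v x y hxy
        have h10 : (0 : ℝ) ≤ posD a v x y := by positivity
        apply mul_le_mul_of_nonneg_left _ hs0.le
        linarith) s hs0.le
      (fun x y hxy => by
        have h9 := posD_split a v x y hxy
        have h10 := posD_le a v x y hxy
        rw [h9, mul_add]
        have := mul_le_mul_of_nonneg_left h10 hs0.le
        linarith) X M hXn hM1 _ hg y hy
    have k2 : s * (X / M + 1) ≤ s * (2 * Δ) := by
      apply mul_le_mul_of_nonneg_left _ hs0.le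
      have k3 : (X : ℝ) / M ≤ Δ := by
        rw [hΔ]
        exact div_le_div_of_nonneg_left hX0.le (by positivity) hM
      have k4 : 1 ≤ (X : ℝ) / M := by
        rw [one_le_div (by linarith)]
        exact_mod_cast hMX
      linarith
    have k5 : |s * posD a v 0 y - S * posD a v 0 y| ≤ s * Δ := by
      rw [← sub_mul, abs_mul, abs_sub_comm]
      have k6 : |((posD a v 0 y : ℕ) : ℝ)| ≤ X := by
        rw [abs_of_nonneg (Nat.cast_nonneg _)]
        have := posD_le a v 0 y (Nat.zero_le _)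
        have hy' : (y : ℝ) ≤ X := by exact_mod_cast hy
        push_cast at this
        linarith
      calc |S - s| * |((posD a v 0 y : ℕ) : ℝ)| ≤ (s / L ^ (A3 + 2 + 2)) * X := by
            apply mul_le_mul hSs k6 (abs_nonneg _) (by positivity)
        _ = s * (X / L ^ (A3 + 2 + 2)) := by ring
        _ ≤ s * Δ := by
            apply mul_le_mul_of_nonneg_left _ hs0.le
            rw [hΔ]
            apply div_le_div_of_nonneg_left hX0.le (by positivity)
            apply pow_le_pow_right₀ (by linarith)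
            omega
    have k7 : 2 * (X / L ^ A3) ≤ s * Δ := by
      calc 2 * (X / L ^ A3) ≤ 2 * (s * (Δ / 1000)) := by
            have := mul_le_mul_of_nonneg_left h63 hs0.le
            linarith
        _ ≤ s * Δ := by
            have : 0 < s * Δ := by positivity
            linarith
    have e : wD a v 0 y - S * posD a v 0 y = (wD a v 0 y - s * posD a v 0 y) + (s * posD a v 0 y - S * posD a v 0 y) := by ring
    rw [e]
    refine (abs_add_le _ _).trans ?_
    have hsΔ : 0 < s * Δ := by positivity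
    have k8 : 4 * (s * Δ) ≤ S * (8 * Δ) := by
      have := mul_le_mul_of_nonneg_right hsS.1 hΔ0.le
      linarith
    linarith
  -- all intervals
  have hint : ∀ p q : ℕ, p ≤ q → q ≤ X → |wD a v p q - S * posD a v p q| ≤ S * (16 * Δ) := by
    intro p q hpq hq
    have k1 := hall p (hpq.trans hq)
    have k2 := hall q hq
    have k3 := wD_split a v p q hpq
    have k4 := posD_split a v p q hpq
    have e : wD a v p q - S * posD a v p q = (wD a v 0 q - S * posD a v 0 q) - (wD a v 0 p - S * posD a v 0 p) := by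
      rw [k3, k4]
      ring
    rw [e]
    refine (abs_sub _ _).trans ?_
    linarith
  have hΔA : 16 * Δ ≤ X / L ^ (A + 2) / 60 := by
    rw [hΔ]
    have e : L ^ (A + 3) = L ^ (A + 2) * L := by rw [← pow_succ]
    rw [e]
    have h5 : (16 : ℝ) / L ≤ 1 / 60 := by
      rw [div_le_div_iff₀ hL0 (by norm_num)]
      linarith
    calc 16 * ((X : ℝ) / (L ^ (A + 2) * L)) = (16 / L) * (X / L ^ (A + 2)) := by field_simp
      _ ≤ (1 / 60) * (X / L ^ (A + 2)) := by gcongr
      _ = _ := by ring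
  intro y1 y2 h12 hy2
  rw [hlogX]
  constructor
  · refine (hint y1 y2 h12 hy2).trans ?_
    apply mul_le_mul_of_nonneg_left _ hS0.le
    refine hΔA.trans ?_
    have h5 : X / L ^ (A + 2) ≤ X / L ^ A := by
      apply div_le_div_of_nonneg_left hX0.le (by positivity)
      exact pow_le_pow_right₀ (by linarith) (by omega)
    have h6 : 0 ≤ X / L ^ (A + 2) := by positivity
    linarith
  · -- counts
    set l : ℝ := ((A + K + 5 * B + 2 : ℕ) : ℝ) * ℓ with hl
    have hBℓ : (B : ℝ) ≤ ℓ := by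
      push_cast at h3b
      have : (0 : ℝ) ≤ A3 := by positivity
      have : (0 : ℝ) ≤ B := by positivity
      linarith
    have hAℓ : (A : ℝ) + 5 * B + 2 ≤ ℓ := by
      push_cast at h3b
      have hA3r : (A3 : ℝ) = 5 * B + A + 6 := by rw [hA3]; push_cast; ring
      have : (0 : ℝ) ≤ B := by positivity
      linarith
    have hℓ0 : 0 < ℓ := by linarith
    have hKl : (K : ℝ) * l ≤ L / 2 := by
      have hB0 : (0 : ℝ) ≤ B := by positivity
      have e1 : l ≤ (ℓ + B * ℓ) * ℓ := by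
        rw [hl]
        apply mul_le_mul_of_nonneg_right _ hℓ0.le
        push_cast
        linarith
      have e2 : (K : ℝ) * l ≤ (B * ℓ) * ((ℓ + B * ℓ) * ℓ) := by
        apply mul_le_mul hKB e1 (by positivity) (by positivity)
      have e3 : ((B : ℝ) * ℓ) * ((ℓ + B * ℓ) * ℓ) = (B * ((B : ℝ) + 1)) * ℓ ^ 3 := by ring
      have e4 : ((B : ℝ) * ((B : ℝ) + 1)) * ℓ ^ 3 ≤ (ℓ * ((B : ℝ) + 1)) * ℓ ^ 3 := by gcongr
      have e5 : (ℓ * ((B : ℝ) + 1)) * ℓ ^ 3 = ((B : ℝ) + 1) * ℓ ^ 4 := by ring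
      have e6 : Real.exp (ℓ / 10) ≤ L := by
        rw [← hLe]
        apply Real.exp_le_exp.2
        linarith
      linarith
    have hl0 : 0 ≤ l := by positivity
    have hlL : l ≤ L / 2 := by
      calc l = 1 * l := (one_mul l).symm
        _ ≤ K * l := by gcongr
        _ ≤ _ := hKl
    set t : ℕ := ⌈X * Real.exp (-l)⌉₊ with ht
    have hel : X * Real.exp (-l) = Real.exp (L - l) := by
      rw [← hX, ← Real.exp_add]
      rfl
    have ht1 : Real.exp (L - l) ≤ t := by
      rw [← hel]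
      exact Nat.le_ceil _
    have ht3 : (3 : ℝ) ≤ Real.exp (L - l) := by
      have := Real.add_one_le_exp (L - l)
      linarith
    have ht3' : 3 ≤ t := by
      have : (3 : ℝ) ≤ t := ht3.trans ht1
      exact_mod_cast this
    have ht2 : (t : ℝ) ≤ 2 * (X * Real.exp (-l)) := by
      have := (Nat.ceil_lt_add_one (show 0 ≤ X * Real.exp (-l) by positivity)).le
      rw [← ht] at this
      rw [← hel] at ht3
      linarith
    have hLl : 0 < L - l := by linarith
    have hc : (Real.log t)⁻¹ ≤ (L - l)⁻¹ := by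
      apply inv_anti₀ hLl
      rw [Real.le_log_iff_exp_le (by linarith)]
      exact ht1
    have key := unweightD a v ha0 S hS0.le y1 y2 h12 (S * (16 * Δ)) (by positivity)
      (fun p q _ h9 h10 => hint p q h9 (h10.trans hy2)) t ht3' (L - l)⁻¹ hc
    refine key.trans ?_
    have c1 : (L - l)⁻¹ ^ K ≤ 2 / L ^ K := by
      have e1 : (L - l)⁻¹ ^ K = (L ^ K * (1 - l / L) ^ K)⁻¹ := by
        rw [← mul_pow, inv_pow]
        congr 2
        field_simp
      have e2 : 1 / 2 ≤ (1 - l / L) ^ K := by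
        have h5 : -2 ≤ -(l / L) := by
          have : l / L ≤ 1 := by rw [div_le_one hL0]; linarith
          linarith
        have h6 := one_add_mul_le_pow h5 K
        have e3 : 1 + (K : ℝ) * -(l / L) = 1 - K * l / L := by ring
        have e4 : 1 + -(l / L) = 1 - l / L := by ring
        rw [e3, e4] at h6
        have h7 : K * l / L ≤ 1 / 2 := by
          rw [div_le_iff₀ hL0]
          linarith
        linarith
      have h9 : 0 < L ^ K := by positivity
      have h8 : L ^ K * (1 / 2) ≤ L ^ K * (1 - l / L) ^ K := mul_le_mul_of_nonneg_left e2 h9.le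
      have h10 : 0 < L ^ K * (1 / 2) := by positivity
      rw [e1]
      refine (inv_anti₀ h10 h8).trans (le_of_eq ?_)
      field_simp
    have c2 : (L - l)⁻¹ ^ K * (S * (16 * Δ)) ≤ S * (X / L ^ (A + K)) / 30 := by
      calc (L - l)⁻¹ ^ K * (S * (16 * Δ)) ≤ (2 / L ^ K) * (S * (X / L ^ (A + 2) / 60)) := by gcongr
        _ = S * (X / (L ^ (A + 2) * L ^ K)) / 30 := by field_simp; ring
        _ ≤ S * (X / L ^ (A + K)) / 30 := by
            have : L ^ (A + K) ≤ L ^ (A + 2) * L ^ K := by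
              rw [← pow_add]
              exact pow_le_pow_right₀ (by linarith) (by omega)
            gcongr
    have c3 : ((K * t : ℕ) : ℝ) * (1 + S * 2 ^ K) ≤ S * (X / L ^ (A + K)) / 2 := by
      have d1 : (1 : ℝ) ≤ 2 * S * L ^ (5 * B) := by
        have h5 : 1 ≤ s * L ^ (5 * B) := by
          rw [← div_le_iff₀ (by positivity)]
          exact hsl
        calc (1 : ℝ) ≤ s * L ^ (5 * B) := h5
          _ ≤ 2 * S * L ^ (5 * B) := mul_le_mul_of_nonneg_right hsS.1 (by positivity)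
      have d2 : (2 : ℝ) ^ K ≤ L ^ (5 * B) := by
        have h5 : (2 : ℝ) ^ K ≤ Real.exp K := by
          rw [← Real.exp_one_pow]
          apply pow_le_pow_left₀ (by norm_num)
          have := Real.add_one_le_exp (1 : ℝ)
          linarith
        refine h5.trans ?_
        rw [hpow]
        apply Real.exp_le_exp.2
        push_cast
        have : 0 ≤ (B : ℝ) * ℓ := by positivity
        linarith
      have d3 : 1 + S * 2 ^ K ≤ 3 * (S * L ^ (5 * B)) := by
        have := mul_le_mul_of_nonneg_left d2 hS0.le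
        linarith
      have d4 : Real.exp (-l) = 1 / L ^ (A + K + 5 * B + 2) := by
        rw [hl, hpow, Real.exp_neg, one_div]
      push_cast
      calc (K : ℝ) * t * (1 + S * 2 ^ K) ≤ K * (2 * (X * Real.exp (-l))) * (3 * (S * L ^ (5 * B))) := by gcongr
        _ = S * (X / L ^ (A + K)) * (6 * K / L ^ 2) := by
            rw [d4]
            have e : L ^ (A + K + 5 * B + 2) = L ^ (A + K) * L ^ (5 * B) * L ^ 2 := by rw [← pow_add, ← pow_add]
            rw [e]
            field_simp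
            ring
        _ ≤ S * (X / L ^ (A + K)) * (1 / 2) := by
            apply mul_le_mul_of_nonneg_left _ (by positivity)
            rw [div_le_div_iff₀ (by positivity) (by norm_num), one_mul, pow_two]
            have h9 : (K : ℝ) * 1000 ≤ L * L := mul_le_mul hKL h1 (by norm_num) hL0.le
            linarith
        _ = _ := by ring
    have c4 : 0 ≤ S * (X / L ^ (A + K)) := by positivity
    linarith

end

end Run7.h402.PD
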