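import Mathlib
import Pool.Agent.Run7.h402.PD.D6
import Pool.Agent.Run7.h402.PY.Y6

/-!
# Almost all systems of linear forms with constants in short boxes
-/

set_option autoImplicit false

open Finset
open Filter (Tendsto atTop)
open scoped Topology Classical

namespace Run7.h402.PD

open Run7.h402.PX Run7.h402.PV Run7.h402.PY
open Pool.Agent.H373R2.T7 (Vz Vz_inv_small Vz_pos lamz lamz_nonneg pz mem_pz)
open Pool.Agent.N475.SP (dom)

noncomputable section

/-- dependent systems are rare -/
theorem card_dep (k : ℕ) (a b : Fin k → ℤ) (ha : ∀ i, a i ≠ 0) (H : Fin k → ℕ) (h : ℝ) (hH : ∀ i, h ≤ H i) :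
    (((Fintype.piFinset (fun i : Fin k => range (H i))).filter (fun m => ¬ Indep a (fun i => b i + (m i : ℕ)))).card : ℝ) * h ≤
      (k : ℝ) ^ 2 * ∏ i, (H i : ℝ) := by
  have h1 : (Fintype.piFinset (fun i : Fin k => range (H i))).filter (fun m => ¬ Indep a (fun i => b i + (m i : ℕ))) ⊆
      (univ : Finset (Fin k × Fin k)).biUnion (fun x => if x.1 = x.2 then ∅ else
        (Fintype.piFinset (fun i : Fin k => range (H i))).filter (fun m => a x.1 * (b x.2 + (m x.2 : ℕ)) = a x.2 * (b x.1 + (m x.1 : ℕ)))) := by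
    intro m hm
    rw [mem_filter] at hm
    obtain ⟨hm1, hm2⟩ := hm
    unfold Indep at hm2
    push Not at hm2
    obtain ⟨i, j, hij, hne⟩ := hm2
    rw [mem_biUnion]
    refine ⟨(i, j), mem_univ _, ?_⟩
    rw [if_neg (by simpa using hij), mem_filter]
    exact ⟨hm1, by linarith⟩
  have h2 : ∀ x ∈ (univ : Finset (Fin k × Fin k)), (((if x.1 = x.2 then ∅ else
        (Fintype.piFinset (fun i : Fin k => range (H i))).filter (fun m => a x.1 * (b x.2 + (m x.2 : ℕ)) = a x.2 * (b x.1 + (m x.1 : ℕ)))) : Finset (Fin k → ℕ)).card : ℝ) * h ≤ ∏ i, (H i : ℝ) := by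
    rintro ⟨i, j⟩ _
    simp only
    split_ifs with hij
    · rw [card_empty, Nat.cast_zero, zero_mul]
      exact prod_nonneg fun i _ => Nat.cast_nonneg _
    · have h3 : (((Fintype.piFinset (fun i : Fin k => range (H i))).filter (fun m => a i * (b j + (m j : ℕ)) = a j * (b i + (m i : ℕ)))) ×ˢ (range (H j))).card ≤
          (Fintype.piFinset (fun i : Fin k => range (H i))).card := by
        apply card_le_card_of_injOn (fun x : (Fin k → ℕ) × ℕ => Function.update x.1 j x.2)
        · rintro ⟨m, t⟩ hx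
          rw [Finset.mem_coe, mem_product, mem_filter] at hx
          rw [Finset.mem_coe, Fintype.mem_piFinset]
          intro i'
          by_cases h4 : i' = j
          · subst h4
            simp only [Function.update_self]
            exact hx.2
          · simp only [Function.update_of_ne h4]
            exact (Fintype.mem_piFinset.1 hx.1.1) i'
        · rintro ⟨m, t⟩ hx ⟨m', t'⟩ hx' h
          rw [Finset.mem_coe, mem_product, mem_filter] at hx hx'
          simp only at h hx hx'
          have ht : t = t' := by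
            have := congrFun h j
            simpa using this
          have hm : ∀ i', i' ≠ j → m i' = m' i' := by
            intro i' hi'
            have := congrFun h i'
            simpa [Function.update_of_ne hi'] using this
          have hmm : m = m' := by
            funext i'
            by_cases h4 : i' = j
            · rw [h4]
              have e1 := hx.1.2
              have e2 := hx'.1.2
              have e3 := hm i hij
              rw [e3] at e1
              have e4 : a i * (b j + (m j : ℕ)) = a i * (b j + (m' j : ℕ)) := e1.trans e2.symm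
              have e5 := mul_left_cancel₀ (ha i) e4
              have e6 : ((m j : ℕ) : ℤ) = (m' j : ℕ) := by linarith
              exact_mod_cast e6
            · exact hm i' h4
          rw [ht, hmm]
      rw [card_product, card_range, Fintype.card_piFinset] at h3
      have h4 : ((((Fintype.piFinset (fun i : Fin k => range (H i))).filter (fun m => a i * (b j + (m j : ℕ)) = a j * (b i + (m i : ℕ)))).card * H j : ℕ) : ℝ) ≤ ((∏ i : Fin k, (range (H i)).card : ℕ) : ℝ) := by
        exact_mod_cast h3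
      push_cast at h4
      simp only [card_range] at h4
      refine le_trans ?_ h4
      exact mul_le_mul_of_nonneg_left (hH j) (Nat.cast_nonneg _)
  have hP : 0 ≤ ∏ i, (H i : ℝ) := prod_nonneg fun i _ => Nat.cast_nonneg _
  rcases le_or_gt h 0 with hh | hh
  · exact (mul_nonpos_of_nonneg_of_nonpos (Nat.cast_nonneg _) hh).trans (by positivity)
  have h3 : (((Fintype.piFinset (fun i : Fin k => range (H i))).filter (fun m => ¬ Indep a (fun i => b i + (m i : ℕ)))).card : ℝ) ≤
      ∑ x : Fin k × Fin k, (((if x.1 = x.2 then ∅ else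
        (Fintype.piFinset (fun i : Fin k => range (H i))).filter (fun m => a x.1 * (b x.2 + (m x.2 : ℕ)) = a x.2 * (b x.1 + (m x.1 : ℕ)))) : Finset (Fin k → ℕ)).card : ℝ) := by
    exact_mod_cast (card_le_card h1).trans card_biUnion_le
  calc _ ≤ (∑ x : Fin k × Fin k, (((if x.1 = x.2 then ∅ else
        (Fintype.piFinset (fun i : Fin k => range (H i))).filter (fun m => a x.1 * (b x.2 + (m x.2 : ℕ)) = a x.2 * (b x.1 + (m x.1 : ℕ)))) : Finset (Fin k → ℕ)).card : ℝ)) * h :=
        mul_le_mul_of_nonneg_right h3 hh.le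
    _ = ∑ x : Fin k × Fin k, (((if x.1 = x.2 then ∅ else
        (Fintype.piFinset (fun i : Fin k => range (H i))).filter (fun m => a x.1 * (b x.2 + (m x.2 : ℕ)) = a x.2 * (b x.1 + (m x.1 : ℕ)))) : Finset (Fin k → ℕ)).card : ℝ) * h := sum_mul _ _ _
    _ ≤ ∑ _x : Fin k × Fin k, ∏ i, (H i : ℝ) := sum_le_sum h2
    _ = (k : ℝ) ^ 2 * ∏ i, (H i : ℝ) := by
        rw [sum_const, card_univ, Fintype.card_prod, Fintype.card_fin, nsmul_eq_mul]
        push_cast
        ring

/-- **almost all systems with constants in short boxes** -/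
theorem almost_forms (B A T : ℕ) : ∃ C' X0 : ℕ, ∀ X : ℕ, X0 ≤ X → ∀ K : ℕ, 1 ≤ K → (K : ℝ) ≤ B * Real.log (Real.log X) →
    ∀ a b : Fin K → ℤ, (∀ i, a i ≠ 0) → (∀ i, |(a i : ℝ)| ≤ Real.log X ^ T) → (∀ i, |(b i : ℝ)| ≤ X * Real.log X ^ T) →
    ∀ H : Fin K → ℕ, (∀ i, (X : ℝ) ^ (1 / 3 : ℝ) * Real.log X ^ C' ≤ H i) → (∀ i, H i ≤ X) →
    (((Fintype.piFinset (fun i : Fin K => range (H i))).filter (fun m => ¬ FineD A X a (fun i => b i + (m i : ℕ)))).card : ℝ) ≤
      (∏ i, (H i : ℝ)) / Real.log X ^ A := by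
  set A3 : ℕ := 5 * B + A + 6 with hA3
  set A1 : ℕ := A + (A + 3) + A3 + 4 with hA1
  obtain ⟨C', E0, hcore⟩ := core' law B (T + 1) A1
  set E : ℕ := max E0 (A3 + 10) with hE
  obtain ⟨N1, hc⟩ := hcore E (le_max_left _ _)
  obtain ⟨N2, hVi⟩ := Vz_inv_small E
  obtain ⟨L1, hb1⟩ := big_ev B E (A3 + 2)
  obtain ⟨L2, hb2⟩ := big_ev B E A1
  obtain ⟨L3, hb3⟩ := dom 4 1 (2 * T) one_pos
  refine ⟨C', max (max N1 N2) (max 3 ⌈Real.exp (max (max L1 L2) L3)⌉₊), fun X hX K hK hKB a b ha0 ha hb H hH1 hHX => ?_⟩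
  have hX1 : N1 ≤ X := le_trans (le_trans (le_max_left _ _) (le_max_left _ _)) hX
  have hX2 : N2 ≤ X := le_trans (le_trans (le_max_right _ _) (le_max_left _ _)) hX
  have hX3 : 3 ≤ X := le_trans (le_trans (le_max_left _ _) (le_max_right _ _)) hX
  have hX0 : (0 : ℝ) < X := by exact_mod_cast (by omega : 0 < X)
  have hXL : Real.exp (max (max L1 L2) L3) ≤ X := (Nat.le_ceil _).trans (by exact_mod_cast le_trans (le_trans (le_max_right _ _) (le_max_right _ _)) hX)
  have hXn : 1 ≤ X := by omega
  have hcX := hc X hX1 K hK hKB a (fun i => b i + a i) ha0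
  set L : ℝ := Real.log X with hL
  have hLL : max (max L1 L2) L3 ≤ L := by rwa [hL, Real.le_log_iff_exp_le hX0]
  have bg := hb1 L (((le_max_left _ _).trans (le_max_left _ _)).trans hLL)
  have bg2 := hb2 L (((le_max_right _ _).trans (le_max_left _ _)).trans hLL)
  have hT' := hb3 L ((le_max_right _ _).trans hLL)
  rw [one_mul] at hT'
  obtain ⟨hL0, hLe, hs1, hss, hsL, f1, f2, f3, f4, f5, f6⟩ := big_facts bg2
  have h1 := bg.b1
  have hXe : Real.exp L = X := by rw [hL, Real.exp_log hX0]
  have hE1 : 1 ≤ E := le_trans (by omega) (le_max_right E0 (A3 + 10))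
  have hEA : A3 + 10 ≤ E := le_max_right _ _
  obtain ⟨hz1, hz2, hz3⟩ := zL_bounds bg hE1
  have hV : (Vz (zL E L))⁻¹ ≤ L := hVi X hX2 _ hz1 hz2
  set z := zL E L with hz
  set M : ℕ := ⌈L ^ (A + 3)⌉₊ with hM
  have hM1 : L ^ (A + 3) ≤ M := Nat.le_ceil _
  have hLA : ∀ n : ℕ, 1 ≤ L ^ n := fun n => one_le_pow₀ (by linarith)
  have hM2 : (M : ℝ) + 1 ≤ 3 * L ^ (A + 3) := by
    have h5 := (Nat.ceil_lt_add_one (show 0 ≤ L ^ (A + 3) by positivity)).le
    have h6 := hLA (A + 3)
    rw [← hM] at h5
    linarith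
  have hpow : ∀ n : ℕ, L ^ n = Real.exp (n * Real.log L) := by
    intro n
    rw [Real.exp_nat_mul, hLe]
  have hMX : M ≤ X := by
    have h5 : L ^ (A + 3) ≤ Real.exp (L / 2) := by
      rw [hpow]
      apply Real.exp_le_exp.2
      have h13 : ((A + 3 : ℕ) : ℝ) ≤ A1 := by exact_mod_cast (by omega : A + 3 ≤ A1)
      have h15 := bg.b0
      have h14 : ((A + 3 : ℕ) : ℝ) * Real.log L ≤ A1 * Real.log L := by gcongr
      linarith
    have h6 : 3 ≤ Real.exp (L / 2) := by
      have := Real.add_one_le_exp (L / 2)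
      linarith
    have h7 : Real.exp L = Real.exp (L / 2) * Real.exp (L / 2) := by rw [← Real.exp_add]; congr 1; ring
    have h8 : 3 * Real.exp (L / 2) ≤ Real.exp (L / 2) * Real.exp (L / 2) := by gcongr
    have h9 : (M : ℝ) ≤ X := by
      rw [← hXe, h7]
      linarith
    exact_mod_cast h9
  set Om := Fintype.piFinset (fun i : Fin K => range (H i)) with hOm
  set PH : ℝ := ∏ i, (H i : ℝ) with hPH
  have hPH0 : 0 ≤ PH := prod_nonneg fun i _ => Nat.cast_nonneg _
  have hOmc : (Om.card : ℝ) = PH := by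
    rw [hOm, Fintype.card_piFinset]
    simp [hPH]
  set G : (Fin K → ℕ) → ℕ → ℝ := fun m j =>
    |∑ n ∈ Ioc 0 (X * j / M), (∏ i, fp z (nf (a i) (b i + (m i : ℕ)) n) - ∏ i, gp z (nf (a i) (b i + (m i : ℕ)) n))| with hG
  have hG0 : ∀ m j, 0 ≤ G m j := fun _ _ => abs_nonneg _
  have hM0 : (0 : ℝ) < M := lt_of_lt_of_le (by positivity) hM1
  have hMn : 0 < M := by exact_mod_cast hM0
  have hLT : L ^ T ≤ L ^ (T + 1) := pow_le_pow_right₀ (by linarith) (by omega)
  have hLT2 : 2 * L ^ T ≤ L ^ (T + 1) := by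
    rw [pow_succ]
    have : 0 < L ^ T := by positivity
    nlinarith
  have hsum : ∀ j ∈ range (M + 1), ∑ m ∈ Om, G m j ≤ X * PH / L ^ A1 := by
    intro j hj
    rw [mem_range] at hj
    have hle : X * j / M ≤ X := by
      apply Nat.div_le_of_le_mul
      rw [mul_comm M X]
      exact Nat.mul_le_mul_left X (by omega)
    set y := X * j / M with hy
    have h2 := hcX (fun i => by
      rw [natAbs_cast]
      exact (ha i).trans hLT) (fun i => by
      rw [natAbs_cast]
      push_cast
      refine (abs_add_le _ _).trans ?_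
      have h3 := hb i
      have h4 := ha i
      have h5 : L ^ T ≤ X * L ^ T := by
        have : (1 : ℝ) ≤ X := by exact_mod_cast hXn
        have h6 : 0 < L ^ T := by positivity
        nlinarith
      calc |(b i : ℝ)| + |(a i : ℝ)| ≤ X * L ^ T + X * L ^ T := by linarith
        _ = X * (2 * L ^ T) := by ring
        _ ≤ X * L ^ (T + 1) := by gcongr) H hH1 hHX (fun n => if n + 1 ≤ y then (1 : ℝ) else 0) (fun n => by split_ifs <;> simp)
    refine le_trans (le_of_eq ?_) h2
    apply sum_congr rfl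
    intro m _
    rw [hG]
    simp only
    congr 1
    have e1 : ∀ (n : ℕ) (i : Fin K), (a i * n + (b i + a i) + (m i : ℕ) : ℤ).toNat = nf (a i) (b i + (m i : ℕ)) (n + 1) := by
      intro n i
      unfold nf
      congr 1
      push_cast
      ring
    have e2 : ∀ n ∈ range X, (if n + 1 ≤ y then (1 : ℝ) else 0) *
        (∏ i, fp z ((a i * n + (b i + a i) + (m i : ℕ) : ℤ).toNat) - ∏ i, gp z ((a i * n + (b i + a i) + (m i : ℕ) : ℤ).toNat)) =
        if n + 1 ≤ y then (∏ i, fp z (nf (a i) (b i + (m i : ℕ)) (n + 1)) - ∏ i, gp z (nf (a i) (b i + (m i : ℕ)) (n + 1))) else 0 := by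
      intro n _
      have u1 : ∏ i, fp z ((a i * n + (b i + a i) + (m i : ℕ) : ℤ).toNat) = ∏ i, fp z (nf (a i) (b i + (m i : ℕ)) (n + 1)) := prod_congr rfl fun i _ => by rw [e1 n i]
      have u2 : ∏ i, gp z ((a i * n + (b i + a i) + (m i : ℕ) : ℤ).toNat) = ∏ i, gp z (nf (a i) (b i + (m i : ℕ)) (n + 1)) := prod_congr rfl fun i _ => by rw [e1 n i]
      rw [u1, u2]
      split_ifs <;> simp
    rw [sum_congr rfl e2, ← sum_filter]
    refine sum_bij' (fun n _ => n - 1) (fun n _ => n + 1) ?_ ?_ ?_ ?_ ?_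
    · intro n hn
      rw [mem_Ioc] at hn
      rw [mem_filter, mem_range]
      omega
    · intro n hn
      rw [mem_filter, mem_range] at hn
      rw [mem_Ioc]
      omega
    · intro n hn
      rw [mem_Ioc] at hn
      omega
    · intro n hn
      omega
    · intro n hn
      rw [mem_Ioc] at hn
      rw [show n - 1 + 1 = n by omega]
  set thr : ℝ := X / L ^ A3 with hthr
  have hthr0 : 0 < thr := by positivity
  set B1 := Om.filter (fun m => BadG (G m) M thr) with hB1
  set B2 := Om.filter (fun m => ¬ Indep a (fun i => b i + (m i : ℕ))) with hB2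
  have hB1c : (B1.card : ℝ) ≤ PH / L ^ A / 2 := by
    have h5 : (B1.card : ℝ) * thr ≤ ((M : ℝ) + 1) * (X * PH / L ^ A1) := by
      calc (B1.card : ℝ) * thr = ∑ m ∈ B1, thr := by rw [sum_const, nsmul_eq_mul]
        _ ≤ ∑ m ∈ B1, ∑ j ∈ range (M + 1), G m j := by
            apply sum_le_sum
            intro m hm
            rw [hB1, mem_filter] at hm
            obtain ⟨_, j, hj, hjE⟩ := hm
            exact hjE.le.trans (single_le_sum (f := fun j => G m j) (fun j _ => hG0 m j) hj)
        _ ≤ ∑ m ∈ Om, ∑ j ∈ range (M + 1), G m j := by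
            apply sum_le_sum_of_subset_of_nonneg (filter_subset _ _)
            intro m _ _
            exact sum_nonneg fun j _ => hG0 m j
        _ = ∑ j ∈ range (M + 1), ∑ m ∈ Om, G m j := sum_comm
        _ ≤ ∑ _j ∈ range (M + 1), X * PH / L ^ A1 := sum_le_sum hsum
        _ = _ := by
            rw [sum_const, card_range, nsmul_eq_mul]
            push_cast
            ring
    have e1 : L ^ A1 = L ^ A * L ^ (A + 3) * L ^ A3 * L ^ 4 := by
      rw [hA1]
      ring
    have h6 : (B1.card : ℝ) * thr ≤ (PH / L ^ A / 2) * thr := by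
      refine h5.trans ?_
      calc ((M : ℝ) + 1) * (X * PH / L ^ A1) ≤ (3 * L ^ (A + 3)) * (X * PH / L ^ A1) := by gcongr
        _ = (PH / L ^ A) * (X / L ^ A3) * (3 / L ^ 4) := by
            rw [e1]
            field_simp
        _ ≤ (PH / L ^ A) * (X / L ^ A3) * (1 / 2) := by
            apply mul_le_mul_of_nonneg_left _ (by positivity)
            rw [div_le_div_iff₀ (by positivity) (by norm_num)]
            have : L ≤ L ^ 4 := le_self_pow₀ (by linarith) (by norm_num)
            linarith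
        _ = _ := by rw [hthr]; ring
    exact le_of_mul_le_mul_right h6 hthr0
  have hHlow : ∀ i, Real.exp (L / 4) ≤ H i := by
    intro i
    refine le_trans ?_ (hH1 i)
    have hX3' : (X : ℝ) ^ (1 / 3 : ℝ) = Real.exp (L / 3) := by
      rw [← hXe, ← Real.exp_mul]
      congr 1
      ring
    rw [hX3']
    calc Real.exp (L / 4) ≤ Real.exp (L / 3) := Real.exp_le_exp.2 (by linarith)
      _ ≤ _ := le_mul_of_one_le_right (Real.exp_pos _).le (hLA _)
  have hB2c : (B2.card : ℝ) ≤ PH / L ^ A / 2 := by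
    have h5 := card_dep K a b ha0 H (Real.exp (L / 4)) hHlow
    have hpos : 0 < Real.exp (L / 4) := Real.exp_pos _
    have h6 : (B2.card : ℝ) * Real.exp (L / 4) ≤ (PH / L ^ A / 2) * Real.exp (L / 4) := by
      refine h5.trans ?_
      have h7 : (K : ℝ) ^ 2 ≤ 1 / L ^ A / 2 * Real.exp (L / 4) := by
        have h8 : (K : ℝ) ≤ √L := by linarith
        have h9 : (K : ℝ) ^ 2 ≤ L := by
          calc (K : ℝ) ^ 2 ≤ √L ^ 2 := by gcongr
            _ = L := Real.sq_sqrt hL0.le
        have h10 : 2 * L * L ^ A ≤ Real.exp (L / 4) := by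
          have h11 : 2 * L * L ^ A ≤ L ^ (A + 2) := by
            have e5 : L ^ (A + 2) = L ^ A * L ^ 2 := by ring
            rw [e5]
            have : 0 < L ^ A := by positivity
            have h12 : 2 * L ≤ L ^ 2 := by nlinarith
            nlinarith
          refine h11.trans ?_
          rw [hpow]
          apply Real.exp_le_exp.2
          have h13 : ((A + 2 : ℕ) : ℝ) ≤ A1 := by exact_mod_cast (by omega : A + 2 ≤ A1)
          have h15 := bg.b0
          have h14 : ((A + 2 : ℕ) : ℝ) * Real.log L ≤ A1 * Real.log L := by gcongr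
          linarith
        refine h9.trans ?_
        have e6 : 1 / L ^ A / 2 * Real.exp (L / 4) = Real.exp (L / 4) / (2 * L ^ A) := by field_simp
        rw [e6, le_div_iff₀ (by positivity)]
        linarith
      calc (K : ℝ) ^ 2 * PH ≤ (1 / L ^ A / 2 * Real.exp (L / 4)) * PH := by gcongr
        _ = _ := by ring
    exact le_of_mul_le_mul_right h6 hpos
  have hsub : Om.filter (fun m => ¬ FineD A X a (fun i => b i + (m i : ℕ))) ⊆ B1 ∪ B2 := by
    intro m hm
    rw [mem_filter] at hm
    obtain ⟨hmO, hmF⟩ := hm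
    rw [mem_union]
    by_contra hcon
    push Not at hcon
    obtain ⟨hn1, hn2⟩ := hcon
    apply hmF
    have hind : Indep a (fun i => b i + (m i : ℕ)) := by
      by_contra hni
      exact hn2 (mem_filter.2 ⟨hmO, hni⟩)
    have hv : ∀ i, |((b i + (m i : ℕ) : ℤ) : ℝ)| ≤ 2 * X * L ^ T := by
      intro i
      have e1 := mem_range.1 (Fintype.mem_piFinset.1 hmO i)
      have e2 := hHX i
      have e3 : ((m i : ℕ) : ℝ) ≤ X := by exact_mod_cast (by omega : m i ≤ X)
      push_cast
      refine (abs_add_le _ _).trans ?_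
      rw [abs_of_nonneg (show (0 : ℝ) ≤ (m i : ℝ) by positivity)]
      have e4 := hb i
      have e5 : (X : ℝ) ≤ X * L ^ T := le_mul_of_one_le_right hX0.le (hLA T)
      linarith
    refine fine_forms (T := T) A3 rfl bg hEA hK hKB X M hXe hM1 hMX hV hT' a (fun i => b i + (m i : ℕ)) ha0 ha hv hind ?_
    intro j hj
    by_contra hcc
    push Not at hcc
    apply hn1
    rw [hB1, mem_filter]
    exact ⟨hmO, j, mem_range.2 (by omega), hcc⟩
  have h5 : ((Om.filter (fun m => ¬ FineD A X a (fun i => b i + (m i : ℕ)))).card : ℝ) ≤ B1.card + B2.card := by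
    exact_mod_cast (card_le_card hsub).trans (card_union_le _ _)
  linarith

end

end Run7.h402.PD
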