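import Mathlib
import Pool.Agent.Run7.h402.PD.D7

/-!
# Covering a region by cubes
-/

set_option autoImplicit false

open Finset
open scoped Classical

namespace Run7.h402.PD

noncomputable section

/-- the cube with the index `j` -/
def cube {K : ℕ} (h : ℕ) (j : Fin K → ℤ) : Finset (Fin K → ℤ) := Fintype.piFinset (fun i => Ico ((h : ℤ) * j i) ((h : ℤ) * j i + h))

theorem mem_cube {K : ℕ} (h : ℕ) (hh : 1 ≤ h) (j v : Fin K → ℤ) : v ∈ cube h j ↔ ∀ i, v i / (h : ℤ) = j i := by
  unfold cube
  rw [Fintype.mem_piFinset]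
  have hh0 : (0 : ℤ) < h := by exact_mod_cast hh
  apply forall_congr'
  intro i
  rw [mem_Ico]
  constructor
  · rintro ⟨h1, h2⟩
    have h3 : j i ≤ v i / (h : ℤ) := (Int.le_ediv_iff_mul_le hh0).2 (by linarith)
    have h4 : v i / (h : ℤ) < j i + 1 := (Int.ediv_lt_iff_lt_mul hh0).2 (by linarith)
    omega
  · intro h1
    rw [← h1]
    have h2 := Int.mul_ediv_add_emod (v i) h
    have h3 := Int.emod_nonneg (v i) hh0.ne'
    have h4 := Int.emod_lt_of_pos (v i) hh0
    constructor <;> linarith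

theorem card_cube {K : ℕ} (h : ℕ) (j : Fin K → ℤ) : ((cube h j).card : ℝ) = (h : ℝ) ^ K := by
  unfold cube
  rw [Fintype.card_piFinset]
  have : ∀ i : Fin K, (Ico ((h : ℤ) * j i) ((h : ℤ) * j i + h)).card = h := by
    intro i
    rw [Int.card_Ico]
    omega
  simp only [this, prod_const, card_univ, Fintype.card_fin]
  push_cast
  rfl

/-- **covering by cubes**: a bad set which has density at most `ε` in all the cubes has at most `ε Π (H_i + 2 R)` elements in
a region which is mapped into a box by an injective map `M` which moves points of a cube by at most `R` -/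
theorem cover_cubes {K : ℕ} (h : ℕ) (hh : 1 ≤ h) (M : (Fin K → ℤ) → (Fin K → ℤ)) (hM : Function.Injective M) (R : ℕ)
    (hR : ∀ v w : Fin K → ℤ, (∀ i, |v i - w i| ≤ h) → ∀ i, |M v i - M w i| ≤ R) (F : Finset (Fin K → ℤ)) (β : Fin K → ℤ) (H : Fin K → ℕ)
    (hF : ∀ v ∈ F, ∀ i, β i ≤ M v i ∧ M v i < β i + H i) (Bad : (Fin K → ℤ) → Prop) (ε : ℝ) (hε : 0 ≤ ε)
    (hbad : ∀ j : Fin K → ℤ, (∃ v ∈ F, v ∈ cube h j) → (((cube h j).filter Bad).card : ℝ) ≤ ε * (h : ℝ) ^ K) :
    ((F.filter Bad).card : ℝ) ≤ ε * ∏ i, ((H i : ℝ) + 2 * R) := by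
  have hh0 : (0 : ℝ) < h := by exact_mod_cast hh
  set J := F.image (fun v => (fun i => v i / (h : ℤ))) with hJ
  have hself : ∀ v : Fin K → ℤ, v ∈ cube h (fun i => v i / (h : ℤ)) := fun v => (mem_cube h hh _ v).2 fun i => rfl
  have hsub : F.filter Bad ⊆ J.biUnion (fun j => (cube h j).filter Bad) := by
    intro v hv
    rw [mem_filter] at hv
    rw [mem_biUnion]
    exact ⟨_, mem_image_of_mem _ hv.1, mem_filter.2 ⟨hself v, hv.2⟩⟩
  have h1 : ((F.filter Bad).card : ℝ) ≤ (J.card : ℝ) * (ε * (h : ℝ) ^ K) := by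
    calc ((F.filter Bad).card : ℝ) ≤ ∑ j ∈ J, (((cube h j).filter Bad).card : ℝ) := by
          exact_mod_cast (card_le_card hsub).trans card_biUnion_le
      _ ≤ ∑ _j ∈ J, ε * (h : ℝ) ^ K := by
          apply sum_le_sum
          intro j hj
          rw [hJ, mem_image] at hj
          obtain ⟨v, hv, rfl⟩ := hj
          exact hbad _ ⟨v, hv, hself v⟩
      _ = _ := by rw [sum_const, nsmul_eq_mul]
  have h2 : (J.card : ℝ) * (h : ℝ) ^ K ≤ ∏ i, ((H i : ℝ) + 2 * R) := by
    have h3 : (J.biUnion (fun j => cube h j)).card = ∑ j ∈ J, (cube h j).card := by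
      apply card_biUnion
      intro j _ j' _ hne
      rw [Function.onFun, disjoint_left]
      intro v hv hv'
      apply hne
      funext i
      rw [← (mem_cube h hh j v).1 hv i, ← (mem_cube h hh j' v).1 hv' i]
    have h4 : (J.card : ℝ) * (h : ℝ) ^ K = ((J.biUnion (fun j => cube h j)).card : ℝ) := by
      rw [h3]
      push_cast
      rw [sum_congr rfl fun j _ => card_cube h j, sum_const, nsmul_eq_mul]
    rw [h4]
    have h5 : (J.biUnion (fun j => cube h j)).card ≤ (Fintype.piFinset (fun i => Ico (β i - R) (β i + H i + R))).card := by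
      apply card_le_card_of_injOn M
      · intro w hw
        rw [mem_coe, mem_biUnion] at hw
        obtain ⟨j, hj, hw⟩ := hw
        rw [hJ, mem_image] at hj
        obtain ⟨v, hv, rfl⟩ := hj
        rw [mem_coe, Fintype.mem_piFinset]
        intro i
        rw [mem_Ico]
        have e1 := hF v hv i
        have e2 : ∀ i, |w i - v i| ≤ h := by
          intro i
          have e3 := mem_Ico.1 (Fintype.mem_piFinset.1 hw i)
          have e4 := mem_Ico.1 (Fintype.mem_piFinset.1 (hself v) i)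
          simp only at e3 e4
          rw [abs_le]
          constructor <;> linarith
        have e5 := abs_le.1 (hR w v e2 i)
        constructor <;> linarith
      · exact hM.injOn
    rw [Fintype.card_piFinset] at h5
    have h6 : ∀ i, ((Ico (β i - R) (β i + H i + R)).card : ℝ) = (H i : ℝ) + 2 * R := by
      intro i
      rw [Int.card_Ico]
      have : (β i + H i + R - (β i - R)).toNat = H i + 2 * R := by omega
      rw [this]
      push_cast
      ring
    calc ((J.biUnion (fun j => cube h j)).card : ℝ) ≤ ((∏ i, (Ico (β i - R) (β i + H i + R)).card : ℕ) : ℝ) := by exact_mod_cast h5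
      _ = ∏ i, ((H i : ℝ) + 2 * R) := by
          push_cast
          exact prod_congr rfl fun i _ => h6 i
  calc ((F.filter Bad).card : ℝ) ≤ (J.card : ℝ) * (ε * (h : ℝ) ^ K) := h1
    _ = ε * ((J.card : ℝ) * (h : ℝ) ^ K) := by ring
    _ ≤ _ := mul_le_mul_of_nonneg_left h2 hε

theorem prod_enlarge {K : ℕ} (H : Fin K → ℕ) (R : ℝ) (m : ℝ) (hR : 0 ≤ R) (hm : 0 < m) (hH : ∀ i, m ≤ H i) (hKm : 2 * (K * R) ≤ m) :
    ∏ i, ((H i : ℝ) + R) ≤ 2 * ∏ i, (H i : ℝ) := by
  have h1 : ∀ i ∈ (univ : Finset (Fin K)), (H i : ℝ) + R ≤ H i * Real.exp (R / m) := by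
    intro i _
    have h3 := hH i
    have h4 : (1 : ℝ) + R / m ≤ Real.exp (R / m) := by
      have := Real.add_one_le_exp (R / m)
      linarith
    have h5 : R ≤ H i * (R / m) := by
      rw [mul_div_assoc', le_div_iff₀ hm]
      nlinarith
    calc (H i : ℝ) + R ≤ H i * (1 + R / m) := by rw [mul_add, mul_one]; linarith
      _ ≤ _ := by gcongr
  have h2 : ∏ i, ((H i : ℝ) + R) ≤ ∏ i, ((H i : ℝ) * Real.exp (R / m)) := prod_le_prod (fun i _ => by positivity) h1
  refine h2.trans ?_
  rw [prod_mul_distrib, prod_const, card_univ, Fintype.card_fin, ← Real.exp_nat_mul, mul_comm]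
  apply mul_le_mul_of_nonneg_right _ (prod_nonneg fun i _ => Nat.cast_nonneg _)
  have h3 : (K : ℝ) * (R / m) ≤ 1 / 2 := by
    rw [mul_div_assoc', div_le_iff₀ hm]
    linarith
  calc Real.exp (K * (R / m)) ≤ Real.exp (1 / 2) := Real.exp_le_exp.2 h3
    _ ≤ 2 := by
        have h9 : Real.exp (1 / 2) * Real.exp (1 / 2) = Real.exp 1 := by rw [← Real.exp_add]; norm_num
        have h10 := Real.exp_one_lt_d9
        by_contra hcon
        push Not at hcon
        nlinarith

end

end Run7.h402.PD
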