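import Mathlib
import Pool.Agent.Run7.h402.PD.D8

/-!
# Almost all systems of linear forms, constants in regions
-/

set_option autoImplicit false

open Finset
open Filter (Tendsto atTop)
open scoped Topology Classical

namespace Run7.h402.PD

open Run7.h402.PX Run7.h402.PV Run7.h402.PY
open Pool.Agent.N475.SP (dom)

noncomputable section

/-- the negation of `FineD` -/
def BadD (A X : ℕ) {K : ℕ} (a v : Fin K → ℤ) : Prop := ¬ FineD A X a v

/-- a cube in terms of integers -/
theorem cube_card {K : ℕ} (h : ℕ) (j : Fin K → ℤ) (P : (Fin K → ℤ) → Prop) :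
    ((cube h j).filter P).card ≤ ((Fintype.piFinset (fun _ : Fin K => range h)).filter (fun m => P (fun i => (h : ℤ) * j i + (m i : ℕ)))).card := by
  apply card_le_card_of_injOn (fun (v : Fin K → ℤ) (i : Fin K) => (v i - (h : ℤ) * j i).toNat)
  · intro v hv
    rw [mem_coe, mem_filter] at hv
    obtain ⟨hv1, hv2⟩ := hv
    have hb : ∀ i, (h : ℤ) * j i ≤ v i ∧ v i < (h : ℤ) * j i + h := fun i => mem_Ico.1 (Fintype.mem_piFinset.1 hv1 i)
    rw [mem_coe, mem_filter, Fintype.mem_piFinset]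
    refine ⟨fun i => ?_, ?_⟩
    · have := hb i
      simp only [mem_range]
      omega
    · have e : (fun i => (h : ℤ) * j i + (((v i - (h : ℤ) * j i).toNat : ℕ) : ℤ)) = v := by
        funext i
        have := hb i
        omega
      rw [e]
      exact hv2
  · intro v hv w hw hvw
    rw [mem_coe, mem_filter] at hv hw
    funext i
    have h1 := mem_Ico.1 (Fintype.mem_piFinset.1 hv.1 i)
    have h2 := mem_Ico.1 (Fintype.mem_piFinset.1 hw.1 i)
    have h3 := congrFun hvw i
    simp only at h3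
    omega

/-- **almost all systems with constants in a region which is mapped into a box** -/
theorem almost_skew (B A T : ℕ) : ∃ C X0 : ℕ, ∀ X : ℕ, X0 ≤ X → ∀ K : ℕ, 1 ≤ K → (K : ℝ) ≤ B * Real.log (Real.log X) →
    ∀ a : Fin K → ℤ, (∀ i, a i ≠ 0) → (∀ i, |(a i : ℝ)| ≤ Real.log X ^ T) →
    ∀ M : (Fin K → ℤ) → (Fin K → ℤ), Function.Injective M → ∀ ρ : ℕ, (ρ : ℝ) ≤ Real.log X ^ T →
    (∀ (h : ℕ) (v w : Fin K → ℤ), (∀ i, |v i - w i| ≤ h) → ∀ i, |M v i - M w i| ≤ ((ρ * h : ℕ) : ℤ)) →
    ∀ (β : Fin K → ℤ) (H : Fin K → ℕ), (∀ i, (X : ℝ) ^ (1 / 3 : ℝ) * Real.log X ^ C ≤ H i) →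
    ∀ F : Finset (Fin K → ℤ), (∀ v ∈ F, ∀ i, |(v i : ℝ)| ≤ X * Real.log X ^ T) → (∀ v ∈ F, ∀ i, β i ≤ M v i ∧ M v i < β i + H i) →
    ((F.filter (fun v => BadD A X a v)).card : ℝ) ≤ (∏ i, (H i : ℝ)) / Real.log X ^ A := by
  obtain ⟨C', X1, h1⟩ := almost_forms B (A + 1) (T + 1)
  obtain ⟨L1, hd1⟩ := dom 2 (1 / 2) C' (by norm_num)
  refine ⟨C' + T + 4, max X1 (max 3 ⌈Real.exp (max (max L1 1000) (Real.exp B))⌉₊), fun X hX K hK hKB a ha0 ha M hM ρ hρ hρM β H hH F hF1 hF2 => ?_⟩
  have hX1 : X1 ≤ X := le_trans (le_max_left _ _) hX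
  have hX3 : 3 ≤ X := le_trans (le_trans (le_max_left _ _) (le_max_right _ _)) hX
  have hX0 : (0 : ℝ) < X := by exact_mod_cast (by omega : 0 < X)
  have hXL : Real.exp (max (max L1 1000) (Real.exp B)) ≤ X := (Nat.le_ceil _).trans (by exact_mod_cast le_trans (le_trans (le_max_right _ _) (le_max_right _ _)) hX)
  have key := h1 X hX1 K hK hKB a
  set L : ℝ := Real.log X with hL
  have hLL : max (max L1 1000) (Real.exp B) ≤ L := by rwa [hL, Real.le_log_iff_exp_le hX0]
  have hL1 : L1 ≤ L := ((le_max_left _ _).trans (le_max_left _ _)).trans hLL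
  have hLk : 1000 ≤ L := ((le_max_right _ _).trans (le_max_left _ _)).trans hLL
  have hL0 : 0 < L := by linarith
  have hBL : (B : ℝ) ≤ Real.log L := by
    rw [Real.le_log_iff_exp_le hL0]
    exact (le_max_right _ _).trans hLL
  have hXe : Real.exp L = X := by rw [hL, Real.exp_log hX0]
  have hLA : ∀ n : ℕ, 1 ≤ L ^ n := fun n => one_le_pow₀ (by linarith)
  have hKL : (K : ℝ) ≤ L := by
    have h2 : Real.log L * Real.log L ≤ L := by
      have h3 := Real.add_one_le_exp (Real.log L / 2)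
      have h4 : Real.exp (Real.log L / 2) * Real.exp (Real.log L / 2) = L := by
        rw [← Real.exp_add, add_halves, Real.exp_log hL0]
      have h5 : 0 ≤ Real.log L := Real.log_nonneg (by linarith)
      have h6 := Real.quadratic_le_exp_of_nonneg h5
      rw [Real.exp_log hL0] at h6
      -- a cruder route: exp x ≥ (x/2)^2 * 4 is not enough, use exp (x/2) ≥ 1 + x/2 + x^2/8
      have h7 := Real.quadratic_le_exp_of_nonneg (show 0 ≤ Real.log L / 2 by linarith)
      have h8 : Real.log L ≤ Real.exp (Real.log L / 2) := by nlinarith [sq_nonneg (Real.log L / 2 - 1)]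
      calc Real.log L * Real.log L ≤ Real.exp (Real.log L / 2) * Real.exp (Real.log L / 2) := mul_le_mul h8 h8 h5 (Real.exp_pos _).le
        _ = L := h4
    have h5 : 0 ≤ Real.log L := Real.log_nonneg (by linarith)
    calc (K : ℝ) ≤ B * Real.log L := hKB
      _ ≤ Real.log L * Real.log L := by gcongr
      _ ≤ L := h2
  set x3 : ℝ := (X : ℝ) ^ (1 / 3 : ℝ) with hx3
  have hx3e : x3 = Real.exp (L / 3) := by
    rw [hx3, ← hXe, ← Real.exp_mul]
    congr 1
    ring
  have hx31 : 1 ≤ x3 := by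
    rw [hx3e]
    exact Real.one_le_exp (by linarith)
  set h : ℕ := ⌈x3 * L ^ C'⌉₊ with hh
  have hh1 : x3 * L ^ C' ≤ h := Nat.le_ceil _
  have hh0 : 1 ≤ x3 * L ^ C' := by
    have := hLA C'
    nlinarith
  have hhn : 1 ≤ h := by
    have : (1 : ℝ) ≤ h := hh0.trans hh1
    exact_mod_cast this
  have hh2 : (h : ℝ) ≤ 2 * (x3 * L ^ C') := by
    have := (Nat.ceil_lt_add_one (show 0 ≤ x3 * L ^ C' by positivity)).le
    rw [← hh] at this
    linarith
  have hhX : h ≤ X := by
    have h2 : 2 * L ^ C' ≤ Real.exp (L / 2) := by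
      have := hd1 L hL1
      rwa [show 1 / 2 * L = L / 2 by ring] at this
    have h3 : (h : ℝ) ≤ X := by
      calc (h : ℝ) ≤ x3 * (2 * L ^ C') := by linarith
        _ ≤ Real.exp (L / 3) * Real.exp (L / 2) := by rw [hx3e]; gcongr
        _ = Real.exp (L / 3 + L / 2) := (Real.exp_add _ _).symm
        _ ≤ Real.exp L := Real.exp_le_exp.2 (by linarith)
        _ = X := hXe
    exact_mod_cast h3
  have hLT : L ^ T ≤ L ^ (T + 1) := pow_le_pow_right₀ (by linarith) (by omega)
  have hLT2 : 2 * L ^ T ≤ L ^ (T + 1) := by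
    rw [pow_succ]
    have : 0 < L ^ T := by positivity
    nlinarith
  have hcov := cover_cubes h hhn M hM (ρ * h) (fun v w hvw i => hρM h v w hvw i) F β H hF2 (fun v => BadD A X a v) (1 / L ^ (A + 1)) (by positivity)
    (by
      rintro j ⟨v, hv, hvc⟩
      have h2 := key (fun i => (h : ℤ) * j i) ha0 (fun i => (ha i).trans hLT) (fun i => by
        have h3 := mem_Ico.1 (Fintype.mem_piFinset.1 hvc i)
        have h4 := hF1 v hv i
        have h5 : |((h : ℤ) * j i - v i)| ≤ h := by
          rw [abs_le]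
          constructor <;> linarith
        have h6 : |(((h : ℤ) * j i - v i : ℤ) : ℝ)| ≤ h := by
          rw [← Int.cast_abs]
          exact_mod_cast h5
        have h7 : (h : ℝ) ≤ X := by exact_mod_cast hhX
        have h8 : (X : ℝ) ≤ X * L ^ T := le_mul_of_one_le_right hX0.le (hLA T)
        have e : (((h : ℤ) * j i : ℤ) : ℝ) = (((h : ℤ) * j i - v i : ℤ) : ℝ) + (v i : ℝ) := by push_cast; ring
        rw [e]
        refine (abs_add_le _ _).trans ?_
        calc _ ≤ (h : ℝ) + X * L ^ T := add_le_add h6 h4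
          _ ≤ X * (2 * L ^ T) := by linarith
          _ ≤ X * L ^ (T + 1) := by gcongr) (fun _ => h) (fun _ => hh1) (fun _ => hhX)
      have h3 := cube_card h j (fun v => BadD A X a v)
      have h4 : ((Fintype.piFinset (fun _ : Fin K => range h)).filter (fun m => BadD A X a (fun i => (h : ℤ) * j i + (m i : ℕ)))).card ≤
          ((Fintype.piFinset (fun _ : Fin K => range h)).filter (fun m => ¬ FineD (A + 1) X a (fun i => (h : ℤ) * j i + (m i : ℕ)))).card := by
        apply card_le_card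
        intro m hm
        rw [mem_filter] at hm ⊢
        refine ⟨hm.1, fun hf => hm.2 ?_⟩
        refine ⟨hf.1, fun hadm S hS => ?_⟩
        obtain ⟨g1, g2⟩ := hf.2 hadm S hS
        refine ⟨g1, fun y1 y2 h12 hy => ?_⟩
        obtain ⟨g3, g4⟩ := g2 y1 y2 h12 hy
        constructor
        · refine g3.trans ?_
          apply mul_le_mul_of_nonneg_left _ g1.le
          apply div_le_div_of_nonneg_left hX0.le (by positivity)
          exact pow_le_pow_right₀ (by linarith) (by omega)
        · refine g4.trans ?_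
          apply mul_le_mul_of_nonneg_left _ g1.le
          apply div_le_div_of_nonneg_left hX0.le (by positivity)
          exact pow_le_pow_right₀ (by linarith) (by omega)
      have h5 : (((cube h j).filter (fun v => BadD A X a v)).card : ℝ) ≤ (∏ _i : Fin K, (h : ℝ)) / L ^ (A + 1) := by
        refine le_trans ?_ h2
        exact_mod_cast h3.trans h4
      rw [prod_const, card_univ, Fintype.card_fin] at h5
      calc _ ≤ (h : ℝ) ^ K / L ^ (A + 1) := h5
        _ = _ := by ring)
  refine hcov.trans ?_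
  have hpe := prod_enlarge H (2 * ((ρ * h : ℕ) : ℝ)) (x3 * L ^ (C' + T + 4)) (by positivity) (by positivity) hH (by
    push_cast
    have e : x3 * L ^ (C' + T + 4) = (x3 * L ^ C') * (L ^ T * (L * L ^ 3)) := by
      rw [pow_add, pow_add]; ring
    rw [e]
    calc 2 * ((K : ℝ) * (2 * (ρ * h))) = 4 * h * (ρ * K) := by ring
      _ ≤ 4 * (2 * (x3 * L ^ C')) * (L ^ T * L) := by gcongr
      _ = (x3 * L ^ C') * (L ^ T * (L * 8)) := by ring
      _ ≤ (x3 * L ^ C') * (L ^ T * (L * L ^ 3)) := by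
          gcongr
          calc (8 : ℝ) ≤ L := by linarith
            _ = L ^ 1 := (pow_one L).symm
            _ ≤ L ^ 3 := pow_le_pow_right₀ (by linarith) (by norm_num))
  have hPH : 0 ≤ ∏ i, (H i : ℝ) := prod_nonneg fun i _ => Nat.cast_nonneg _
  calc 1 / L ^ (A + 1) * ∏ i, ((H i : ℝ) + 2 * ((ρ * h : ℕ) : ℝ)) ≤ 1 / L ^ (A + 1) * (2 * ∏ i, (H i : ℝ)) := by gcongr
    _ = (2 / L) * ((∏ i, (H i : ℝ)) / L ^ A) := by rw [pow_succ]; field_simp
    _ ≤ 1 * ((∏ i, (H i : ℝ)) / L ^ A) := by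
        apply mul_le_mul_of_nonneg_right _ (by positivity)
        rw [div_le_one hL0]
        linarith
    _ = _ := one_mul _

end

end Run7.h402.PD
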