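import Mathlib
import Pool.Agent.Run7.h402.PD.D9

/-!
# Translations of the argument; systems which contain the form `n`
-/

set_option autoImplicit false

open Finset
open Filter (Tendsto atTop)
open scoped Topology Classical

namespace Run7.h402.PD

open Run7.h402.PX Run7.h402.PV Run7.h402.PY
open Pool.Agent.N475.SP (dom)

noncomputable section

theorem nf_shift (a v : ℤ) (t n : ℕ) : nf a (v + t * a) n = nf a v (n + t) := by
  unfold nf
  congr 1
  push_cast
  ring

theorem nz_shift {K : ℕ} (a v : Fin K → ℤ) (t p : ℕ) (hp : 0 < p) : nz a (fun i => v i + t * a i) p = nz a v p := by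
  unfold nz
  have hA : ∀ n, Az a (fun i => v i + t * a i) p n ↔ Az a v p (n + t) := by
    intro n
    unfold Az
    apply exists_congr
    intro i
    have e : a i * (n : ℤ) + (v i + t * a i) = a i * ((n + t : ℕ) : ℤ) + v i := by push_cast; ring
    rw [e]
  apply card_bij (fun n _ => (n + t) % p)
  · intro n hn
    rw [mem_filter] at hn ⊢
    rw [Az_mod]
    exact ⟨mem_range.2 (Nat.mod_lt _ hp), (hA n).1 hn.2⟩
  · intro n hn m hm h
    rw [mem_filter, mem_range] at hn hm
    have h1 : n + t ≡ m + t [MOD p] := h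
    have h2 := Nat.ModEq.add_right_cancel' t h1
    unfold Nat.ModEq at h2
    rwa [Nat.mod_eq_of_lt hn.1, Nat.mod_eq_of_lt hm.1] at h2
  · intro m hm
    rw [mem_filter, mem_range] at hm
    obtain ⟨s, hs⟩ : ∃ s, (s + t) % p = m := by
      refine ⟨m + (p - t % p), ?_⟩
      have h1 := Nat.mod_lt t hp
      have h2 : m + (p - t % p) + t = m + p * (t / p + 1) := by
        have := Nat.mod_add_div t p
        have e : p * (t / p + 1) = p * (t / p) + p := by ring
        omega
      rw [h2, Nat.add_mul_mod_self_left, Nat.mod_eq_of_lt hm.1]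
    refine ⟨s % p, ?_, ?_⟩
    · rw [mem_filter, mem_range]
      refine ⟨Nat.mod_lt _ hp, ?_⟩
      rw [hA, ← Az_mod, Nat.mod_add_mod, hs]
      exact hm.2
    · rw [Nat.mod_add_mod, hs]

theorem indep_shift {K : ℕ} (a v : Fin K → ℤ) (t : ℕ) : Indep a (fun i => v i + t * a i) ↔ Indep a v := by
  unfold Indep
  apply forall_congr'
  intro i
  apply forall_congr'
  intro j
  have e : a i * (v j + t * a j) - a j * (v i + t * a i) = a i * v j - a j * v i := by ring
  rw [e]

theorem wD_shift {K : ℕ} (a v : Fin K → ℤ) (t y1 y2 : ℕ) : wD a (fun i => v i + t * a i) y1 y2 = wD a v (y1 + t) (y2 + t) := by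
  unfold wD
  rw [← Finset.map_add_right_Ioc y1 y2 t, sum_map]
  apply sum_congr rfl
  intro n _
  apply prod_congr rfl
  intro i _
  rw [nf_shift]
  rfl

theorem cD_shift {K : ℕ} (a v : Fin K → ℤ) (t y1 y2 : ℕ) : cD a (fun i => v i + t * a i) y1 y2 = cD a v (y1 + t) (y2 + t) := by
  unfold cD
  rw [← Finset.map_add_right_Ioc y1 y2 t, filter_map, card_map]
  congr 1
  apply filter_congr
  intro n _
  simp only [Function.comp, nf_shift]
  rfl

theorem posD_shift {K : ℕ} (a v : Fin K → ℤ) (t y1 y2 : ℕ) : posD a (fun i => v i + t * a i) y1 y2 = posD a v (y1 + t) (y2 + t) := by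
  unfold posD
  rw [← Finset.map_add_right_Ioc y1 y2 t, filter_map, card_map]
  congr 1
  apply filter_congr
  intro n _
  simp only [Function.comp, addRightEmbedding_apply]
  apply forall_congr'
  intro i
  have e : a i * (n : ℤ) + (v i + t * a i) = a i * ((n + t : ℕ) : ℤ) + v i := by push_cast; ring
  rw [e]

theorem lD_shift {K : ℕ} (a v : Fin K → ℤ) (t y1 y2 : ℕ) : lD a (fun i => v i + t * a i) y1 y2 = lD a v (y1 + t) (y2 + t) := by
  unfold lD
  have e : ∀ (n : ℕ) i, a i * (n : ℤ) + (v i + t * a i) = a i * ((n + t : ℕ) : ℤ) + v i := by intro n i; push_cast; ring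
  rw [← Finset.map_add_right_Ioc y1 y2 t, filter_map, sum_map]
  apply sum_congr
  · apply filter_congr
    intro n _
    simp only [Function.comp, addRightEmbedding_apply]
    apply forall_congr'
    intro i
    rw [e]
  · intro n _
    apply prod_congr rfl
    intro i _
    rw [e]
    rfl

theorem cD_split {K : ℕ} (a v : Fin K → ℤ) (x y z : ℕ) (h1 : x ≤ y) (h2 : y ≤ z) : (cD a v x z : ℝ) = cD a v x y + cD a v y z := by
  unfold cD
  rw [← Ioc_union_Ioc_eq_Ioc h1 h2, filter_union, card_union_of_disjoint]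
  · push_cast
    ring
  · apply disjoint_filter_filter
    rw [disjoint_left]
    intro n hn hn'
    rw [mem_Ioc] at hn hn'
    omega

theorem posD_split' {K : ℕ} (a v : Fin K → ℤ) (x y z : ℕ) (h1 : x ≤ y) (h2 : y ≤ z) : (posD a v x z : ℝ) = posD a v x y + posD a v y z := by
  unfold posD
  rw [← Ioc_union_Ioc_eq_Ioc h1 h2, filter_union, card_union_of_disjoint]
  · push_cast
    ring
  · apply disjoint_filter_filter
    rw [disjoint_left]
    intro n hn hn'
    rw [mem_Ioc] at hn hn'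
    omega

theorem wD_split' {K : ℕ} (a v : Fin K → ℤ) (x y z : ℕ) (h1 : x ≤ y) (h2 : y ≤ z) : wD a v x z = wD a v x y + wD a v y z := by
  unfold wD
  rw [← Ioc_union_Ioc_eq_Ioc h1 h2, sum_union]
  rw [disjoint_left]
  intro n hn hn'
  rw [mem_Ioc] at hn hn'
  omega

theorem lD_split {K : ℕ} (a v : Fin K → ℤ) (x y z : ℕ) (h1 : x ≤ y) (h2 : y ≤ z) : lD a v x z = lD a v x y + lD a v y z := by
  unfold lD
  rw [← Ioc_union_Ioc_eq_Ioc h1 h2, filter_union, sum_union]
  apply disjoint_filter_filter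
  rw [disjoint_left]
  intro n hn hn'
  rw [mem_Ioc] at hn hn'
  omega

theorem lD_bounds {K : ℕ} (a v : Fin K → ℤ) (x y : ℕ) (h : x ≤ y) : 0 ≤ lD a v x y ∧ lD a v x y ≤ ((y : ℝ) - x) * 2 ^ K := by
  unfold lD
  have h1 : ∀ n ∈ (Ioc x y).filter (fun n : ℕ => ∀ i, 2 ≤ a i * n + v i), ∀ i, 0 ≤ (Real.log ((a i * n + v i : ℤ) : ℝ))⁻¹ ∧ (Real.log ((a i * n + v i : ℤ) : ℝ))⁻¹ ≤ 2 := by
    intro n hn i
    rw [mem_filter] at hn
    have h2 := hn.2 i
    have h3 : (2 : ℝ) ≤ ((a i * n + v i : ℤ) : ℝ) := by exact_mod_cast h2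
    have h4 := Real.log_le_log (by norm_num) h3
    have h5 := Real.log_two_gt_d9
    refine ⟨inv_nonneg.2 (by linarith), ?_⟩
    rw [inv_le_comm₀ (by linarith) (by norm_num)]
    linarith
  constructor
  · exact sum_nonneg fun n hn => prod_nonneg fun i _ => (h1 n hn i).1
  · calc _ ≤ ∑ _n ∈ (Ioc x y).filter (fun n : ℕ => ∀ i, 2 ≤ a i * n + v i), (2 : ℝ) ^ K := by
          apply sum_le_sum
          intro n hn
          calc _ ≤ ∏ _i : Fin K, (2 : ℝ) := prod_le_prod (fun i _ => (h1 n hn i).1) fun i _ => (h1 n hn i).2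
            _ = _ := by rw [prod_const, card_univ, Fintype.card_fin]
      _ ≤ ((y : ℝ) - x) * 2 ^ K := by
          rw [sum_const, nsmul_eq_mul]
          apply mul_le_mul_of_nonneg_right _ (by positivity)
          rw [← Nat.cast_sub h]
          have := card_filter_le (Ioc x y) (fun n : ℕ => ∀ i, 2 ≤ a i * n + v i)
          rw [Nat.card_Ioc] at this
          exact_mod_cast this

theorem cD_le {K : ℕ} (a v : Fin K → ℤ) (y1 y2 : ℕ) (h : y1 ≤ y2) : (cD a v y1 y2 : ℝ) ≤ (y2 : ℝ) - y1 := by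
  rw [← Nat.cast_sub h]
  unfold cD
  have := card_filter_le (Ioc y1 y2) (fun n => ∀ i, (nf (a i) (v i) n).Prime)
  rw [Nat.card_Ioc] at this
  exact_mod_cast this

theorem wD_le {K : ℕ} (a v : Fin K → ℤ) (y1 y2 : ℕ) (h : y1 ≤ y2) (Q : ℝ) (hQ : ∀ n, n ≤ y2 → ∀ i, Run7.h402.PT.Fp (nf (a i) (v i) n) ≤ Q) :
    wD a v y1 y2 ≤ ((y2 : ℝ) - y1) * Q ^ K := by
  unfold wD
  calc _ ≤ ∑ _n ∈ Ioc y1 y2, Q ^ K := by
        apply sum_le_sum
        intro n hn
        calc _ ≤ ∏ _i : Fin K, Q := prod_le_prod (fun i _ => Fp_nonneg' _) fun i _ => hQ n (mem_Ioc.1 hn).2 i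
          _ = _ := by rw [prod_const, card_univ, Fintype.card_fin]
    _ = _ := by rw [sum_const, nsmul_eq_mul, Nat.card_Ioc, Nat.cast_sub h]

/-- the numerical condition for translations by at most `t` -/
def Small (A K : ℕ) (L : ℝ) (t : ℕ) : Prop := (t : ℝ) * ((2 * L) ^ K * Real.exp (5 * K)) * L ^ (A + K + 2) ≤ Real.exp L

/-- **translations** -/
theorem fine_shift {A T : ℕ} {L : ℝ} (hL1 : 1000 ≤ L) (hT : 4 * L ^ (2 * T) ≤ Real.exp L) {K : ℕ} (hK : 1 ≤ K) (X : ℕ) (hX : Real.exp L = X)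
    (a v : Fin K → ℤ) (ha : ∀ i, |(a i : ℝ)| ≤ L ^ T) (hv : ∀ i, |(v i : ℝ)| ≤ 2 * X * L ^ T) (t : ℕ)
    (ht : Small A K L t) (h : FineD (A + 1) X a (fun i => v i + t * a i)) : FineD A X a v := by
  have hL0 : 0 < L := by linarith
  have hX0 : (0 : ℝ) < X := by rw [← hX]; exact Real.exp_pos _
  have hlogX : Real.log X = L := by rw [← hX, Real.log_exp]
  obtain ⟨_, _, g3⟩ := sizes hL1 hT X hX a v ha hv
  refine ⟨(indep_shift a v t).1 h.1, fun hadm S hS => ?_⟩
  have hpt : ∀ p, p.Prime → nz a (fun i => v i + t * a i) p = nz a v p := fun p hp => nz_shift a v t p hp.pos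
  have hadm' : ∀ p, p.Prime → nz a (fun i => v i + t * a i) p < p := fun p hp => by rw [hpt p hp]; exact hadm p hp
  have hlS : lS K (nz a (fun i => v i + t * a i)) = lS K (nz a v) := by
    funext z
    unfold lS lf
    apply prod_congr rfl
    intro p hp
    rw [hpt p (Pool.Agent.H373R2.T7.mem_pz.1 hp).2]
  obtain ⟨hS0, hmain⟩ := h.2 hadm' S (by rw [hlS]; exact hS)
  have hSlow : Real.exp (-(5 * (K : ℝ))) ≤ S :=
    ge_of_tendsto' hS fun z => lS_low hK (nz a v) hadm (fun p hp => nz_le a v p hp (hadm p hp)) z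
  refine ⟨hS0, fun y1 y2 h12 hy2 => ?_⟩
  rw [hlogX] at hmain ⊢
  have hLn : ∀ n : ℕ, 1 ≤ L ^ n := fun n => one_le_pow₀ (by linarith)
  -- the small quantity
  have hq : (t : ℝ) * (2 * L) ^ K ≤ S * (X / L ^ (A + K + 2)) := by
    unfold Small at ht
    rw [hX] at ht
    have e1 : (t : ℝ) * (2 * L) ^ K = ((t : ℝ) * ((2 * L) ^ K * Real.exp (5 * K)) * L ^ (A + K + 2)) * (Real.exp (-(5 * (K : ℝ))) / L ^ (A + K + 2)) := by
      rw [Real.exp_neg]
      field_simp
    rw [e1]
    calc _ ≤ (X : ℝ) * (Real.exp (-(5 * (K : ℝ))) / L ^ (A + K + 2)) := by gcongr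
      _ ≤ (X : ℝ) * (S / L ^ (A + K + 2)) := by gcongr
      _ = _ := by ring
  have h2L : (2 : ℝ) ^ K ≤ (2 * L) ^ K := pow_le_pow_left₀ (by norm_num) (by linarith) K
  have h2K : (1 : ℝ) ≤ 2 ^ K := one_le_pow₀ (by norm_num)
  have h2LK : (1 : ℝ) ≤ (2 * L) ^ K := h2K.trans h2L
  have ht0 : (0 : ℝ) ≤ t := by positivity
  have htX : (t : ℝ) * (2 * L) ^ K ≤ X / L ^ (A + K + 2) := by
    unfold Small at ht
    rw [hX] at ht
    rw [le_div_iff₀ (by positivity)]
    refine le_trans ?_ ht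
    have : 1 ≤ Real.exp (5 * (K : ℝ)) := Real.one_le_exp (by positivity)
    have h9 : (t : ℝ) * (2 * L) ^ K ≤ (t : ℝ) * ((2 * L) ^ K * Real.exp (5 * K)) := by
      apply mul_le_mul_of_nonneg_left _ ht0
      exact le_mul_of_one_le_right (by positivity) this
    exact mul_le_mul_of_nonneg_right h9 (by positivity)
  have hSX : S * ((t : ℝ) * (2 * L) ^ K) ≤ S * (X / L ^ (A + K + 2)) := mul_le_mul_of_nonneg_left htX hS0.le
  have hex : ∀ n : ℕ, n = A ∨ n = A + K → 2 * (X / L ^ (A + K + 2)) + X / L ^ (n + 1) ≤ X / L ^ n := by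
    intro n hn
    have e1 : X / L ^ (n + 1) = (1 / L) * (X / L ^ n) := by rw [pow_succ]; field_simp
    have e2 : X / L ^ (A + K + 2) ≤ (1 / L) * (X / L ^ n) := by
      rw [← e1]
      apply div_le_div_of_nonneg_left hX0.le (by positivity)
      apply pow_le_pow_right₀ (by linarith)
      omega
    have e3 : 3 * (1 / L) ≤ 1 := by
      rw [mul_one_div, div_le_one hL0]
      linarith
    have e4 : 0 ≤ X / L ^ n := by positivity
    have e5 : 3 * (1 / L) * (X / L ^ n) ≤ 1 * (X / L ^ n) := mul_le_mul_of_nonneg_right e3 e4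
    rw [e1]
    linarith
  -- the split point
  obtain ⟨y, hy1, hy2', hyt, hys⟩ : ∃ y, y1 ≤ y ∧ y ≤ y2 ∧ (y : ℝ) - y1 ≤ t ∧ (y = y2 ∨ t ≤ y) := by
    rcases le_or_gt t y1 with h1 | h1
    · exact ⟨y1, le_rfl, h12, by simp, Or.inr h1⟩
    · rcases le_or_gt t y2 with h3 | h3
      · refine ⟨t, h1.le, h3, ?_, Or.inr le_rfl⟩
        have : (0 : ℝ) ≤ y1 := by positivity
        linarith
      · refine ⟨y2, h12, le_rfl, ?_, Or.inl rfl⟩
        have h4 : (y2 : ℝ) ≤ t := by exact_mod_cast h3.le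
        have : (0 : ℝ) ≤ y1 := by positivity
        linarith
  have hyX : y ≤ X := hy2'.trans hy2
  have hmain2 : |wD a v y y2 - S * posD a v y y2| ≤ S * (X / L ^ (A + 1)) ∧
      |(cD a v y y2 : ℝ) - S * lD a v y y2| ≤ S * (X / L ^ (A + 1 + K)) := by
    rcases hys with h1 | h1
    · subst h1
      have e1 : wD a v y y = 0 := by unfold wD; simp
      have e2 : posD a v y y = 0 := by unfold posD; simp
      have e3 : cD a v y y = 0 := by unfold cD; simp
      have e4 : lD a v y y = 0 := by unfold lD; simp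
      rw [e1, e2, e3, e4]
      simp only [Nat.cast_zero, mul_zero, sub_zero, abs_zero]
      constructor <;> positivity
    · have h2 := hmain (y - t) (y2 - t) (by omega) (by omega)
      rw [wD_shift, posD_shift, cD_shift, lD_shift, Nat.sub_add_cancel h1, Nat.sub_add_cancel (h1.trans hy2')] at h2
      exact h2
  constructor
  · have e : wD a v y1 y2 - S * posD a v y1 y2 = (wD a v y y2 - S * posD a v y y2) + (wD a v y1 y - S * posD a v y1 y) := by
      rw [wD_split' a v y1 y y2 hy1 hy2', posD_split' a v y1 y y2 hy1 hy2']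
      ring
    rw [e]
    refine (abs_add_le _ _).trans ?_
    have u1 : |wD a v y1 y - S * posD a v y1 y| ≤ 2 * (S * (X / L ^ (A + K + 2))) := by
      have v1 := wD_nonneg a v y1 y
      have v2 := wD_le a v y1 y hy1 (2 * L) (fun n hn i => g3 n (hn.trans hyX) i)
      have v3 := posD_le a v y1 y hy1
      have v4 : (0 : ℝ) ≤ posD a v y1 y := by positivity
      have v5 : wD a v y1 y ≤ S * (X / L ^ (A + K + 2)) := by
        refine v2.trans (le_trans ?_ hq)
        exact mul_le_mul_of_nonneg_right hyt (by positivity)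
      have v6 : S * posD a v y1 y ≤ S * (X / L ^ (A + K + 2)) := by
        refine le_trans ?_ hSX
        apply mul_le_mul_of_nonneg_left _ hS0.le
        refine v3.trans (hyt.trans ?_)
        exact le_mul_of_one_le_right ht0 h2LK
      have v7 : 0 ≤ S * posD a v y1 y := by positivity
      have v8 : 0 ≤ S * (X / L ^ (A + K + 2)) := by positivity
      rw [abs_le]
      constructor <;> linarith
    have u2 := hex A (Or.inl rfl)
    have u3 := mul_le_mul_of_nonneg_left u2 hS0.le
    linarith [hmain2.1]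
  · have e : (cD a v y1 y2 : ℝ) - S * lD a v y1 y2 = ((cD a v y y2 : ℝ) - S * lD a v y y2) + ((cD a v y1 y : ℝ) - S * lD a v y1 y) := by
      rw [cD_split a v y1 y y2 hy1 hy2', lD_split a v y1 y y2 hy1 hy2']
      ring
    rw [e]
    refine (abs_add_le _ _).trans ?_
    have u1 : |(cD a v y1 y : ℝ) - S * lD a v y1 y| ≤ 2 * (S * (X / L ^ (A + K + 2))) := by
      have v1 : (0 : ℝ) ≤ cD a v y1 y := by positivity
      have v2 := cD_le a v y1 y hy1
      obtain ⟨v4, v3⟩ := lD_bounds a v y1 y hy1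
      have v5 : (cD a v y1 y : ℝ) ≤ S * (X / L ^ (A + K + 2)) := by
        refine v2.trans (hyt.trans (le_trans ?_ hq))
        exact le_mul_of_one_le_right ht0 h2LK
      have v6 : S * lD a v y1 y ≤ S * (X / L ^ (A + K + 2)) := by
        refine le_trans ?_ hSX
        apply mul_le_mul_of_nonneg_left _ hS0.le
        refine v3.trans ?_
        exact mul_le_mul hyt h2L (by positivity) ht0
      have v7 : 0 ≤ S * lD a v y1 y := by positivity
      have v8 : 0 ≤ S * (X / L ^ (A + K + 2)) := by positivity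
      rw [abs_le]
      constructor <;> linarith
    have u2 := hex (A + K) (Or.inr rfl)
    have u3 := mul_le_mul_of_nonneg_left u2 hS0.le
    have u4 := hmain2.2
    rw [show A + 1 + K = A + K + 1 by ring] at u4
    linarith

end

end Run7.h402.PD
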