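import Mathlib
import Pool.Agent.Run7.h402.PD.D10

/-!
# Systems which contain the form `n`
-/

set_option autoImplicit false

open Finset
open Filter (Tendsto atTop)
open scoped Topology Classical

namespace Run7.h402.PD

open Run7.h402.PX Run7.h402.PV Run7.h402.PY
open Pool.Agent.N475.SP (dom)

noncomputable section

theorem small_ev (A B C : ℕ) : ∃ L0 : ℝ, ∀ L : ℝ, L0 ≤ L → ∀ K : ℕ, ((K : ℕ) : ℝ) ≤ B * Real.log L → ∀ t : ℕ, (t : ℝ) ≤ 2 * (Real.exp (L / 3) * L ^ C) →
    Small A K L t := by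
  obtain ⟨a1, h1⟩ := dom (2 * ((C : ℝ) + A + 8 * B + 11)) 1 2 one_pos
  refine ⟨max (Real.exp (max a1 1)) 1000, fun L hL K hKB t ht => ?_⟩
  have hL1 : 1000 ≤ L := (le_max_right _ _).trans hL
  have hL0 : 0 < L := by linarith
  have hl : max a1 1 ≤ Real.log L := by
    rw [Real.le_log_iff_exp_le hL0]
    exact (le_max_left _ _).trans hL
  set ℓ := Real.log L with hℓ
  have hLe : Real.exp ℓ = L := Real.exp_log hL0
  have hℓ1 : 1 ≤ ℓ := (le_max_right _ _).trans hl
  have hd := h1 ℓ ((le_max_left _ _).trans hl)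
  rw [one_mul, hLe] at hd
  have hpow : ∀ n : ℕ, L ^ n = Real.exp (n * ℓ) := by
    intro n
    rw [Real.exp_nat_mul, hLe]
  have h2 : (2 : ℝ) ≤ Real.exp 1 := by
    have := Real.add_one_le_exp (1 : ℝ)
    linarith
  have h2L : (2 * L) ^ K ≤ Real.exp (K * (1 + ℓ)) := by
    rw [Real.exp_nat_mul, Real.exp_add, hLe]
    apply pow_le_pow_left₀ (by positivity)
    gcongr
  unfold Small
  have hℓℓ : ℓ ≤ ℓ ^ 2 := by nlinarith
  have hℓ2 : 1 ≤ ℓ ^ 2 := by nlinarith
  have hB0 : (0 : ℝ) ≤ B := by positivity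
  have hC0 : (0 : ℝ) ≤ C := by positivity
  have hA0 : (0 : ℝ) ≤ A := by positivity
  calc (t : ℝ) * ((2 * L) ^ K * Real.exp (5 * K)) * L ^ (A + K + 2) ≤
        (Real.exp 1 * (Real.exp (L / 3) * Real.exp (C * ℓ))) * (Real.exp (K * (1 + ℓ)) * Real.exp (5 * K)) * Real.exp ((A + K + 2 : ℕ) * ℓ) := by
        rw [← hpow (A + K + 2), ← hpow C]
        gcongr
        exact ht.trans (by gcongr)
    _ = Real.exp (1 + (L / 3 + C * ℓ) + (K * (1 + ℓ) + 5 * K) + (A + K + 2 : ℕ) * ℓ) := by
        rw [Real.exp_add, Real.exp_add, Real.exp_add, Real.exp_add, Real.exp_add]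
    _ ≤ Real.exp L := by
        apply Real.exp_le_exp.2
        push_cast
        have e1 : (K : ℝ) * (1 + ℓ) ≤ 2 * B * ℓ ^ 2 := by
          calc (K : ℝ) * (1 + ℓ) ≤ (B * ℓ) * (ℓ + ℓ) := by gcongr
            _ = _ := by ring
        have e2 : 5 * (K : ℝ) ≤ 5 * B * ℓ ^ 2 := by
          calc 5 * (K : ℝ) ≤ 5 * (B * ℓ) := by gcongr
            _ ≤ 5 * (B * ℓ ^ 2) := by gcongr
            _ = _ := by ring
        have e3 : ((A : ℝ) + K + 2) * ℓ ≤ (A + B + 2) * ℓ ^ 2 := by
          calc ((A : ℝ) + K + 2) * ℓ ≤ (A * ℓ + B * ℓ + 2 * ℓ) * ℓ := by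
                apply mul_le_mul_of_nonneg_right _ (by linarith)
                have : (A : ℝ) ≤ A * ℓ := le_mul_of_one_le_right hA0 hℓ1
                linarith
            _ = _ := by ring
        have e4 : (C : ℝ) * ℓ ≤ C * ℓ ^ 2 := by gcongr
        have e5 : 2 * ((C : ℝ) + A + 8 * B + 11) * ℓ ^ 2 = 2 * (C * ℓ ^ 2) + 2 * (A * ℓ ^ 2) + 16 * (B * ℓ ^ 2) + 22 * ℓ ^ 2 := by ring
        have e6 : (2 * (B : ℝ) * ℓ ^ 2) + (5 * B * ℓ ^ 2) + ((A + B + 2) * ℓ ^ 2) + C * ℓ ^ 2 = C * ℓ ^ 2 + A * ℓ ^ 2 + 8 * (B * ℓ ^ 2) + 2 * ℓ ^ 2 := by ring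
        have e7 : 0 ≤ ℓ ^ 2 := by positivity
        linarith

/-- **almost all systems with the form `n`, constants in a region which is mapped into a box** -/
theorem prime_skew (B A T : ℕ) : ∃ C X0 : ℕ, ∀ X : ℕ, X0 ≤ X → ∀ K : ℕ, 1 ≤ K → (K : ℝ) ≤ B * Real.log (Real.log X) →
    ∀ a : Fin K → ℤ, (∀ i, a i ≠ 0) → (∀ i, |(a i : ℝ)| ≤ Real.log X ^ T) →
    ∀ M : (Fin K → ℤ) → (Fin K → ℤ), Function.Injective M → ∀ ρ : ℕ, (ρ : ℝ) ≤ Real.log X ^ T →
    (∀ (h : ℕ) (v w : Fin K → ℤ), (∀ i, |v i - w i| ≤ h) → ∀ i, |M v i - M w i| ≤ ((ρ * h : ℕ) : ℤ)) →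
    ∀ (β : Fin K → ℤ) (H : Fin K → ℕ), (∀ i, (X : ℝ) ^ (1 / 3 : ℝ) * Real.log X ^ C ≤ H i) →
    ∀ F : Finset (Fin K → ℤ), (∀ v ∈ F, ∀ i, |(v i : ℝ)| ≤ X * Real.log X ^ T) → (∀ v ∈ F, ∀ i, β i ≤ M v i ∧ M v i < β i + H i) →
    ((F.filter (fun v => BadD A X (Fin.cons 1 a : Fin (K + 1) → ℤ) (Fin.cons 0 v : Fin (K + 1) → ℤ))).card : ℝ) ≤ (∏ i, (H i : ℝ)) / Real.log X ^ A := by
  obtain ⟨C, X1, h1⟩ := almost_skew (B + 1) (A + 1) (2 * T + 1)
  obtain ⟨L1, hd1⟩ := small_ev A (B + 1) C
  obtain ⟨L2, hd2⟩ := dom 4 1 (2 * (2 * T + 1)) one_pos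
  obtain ⟨L3, hd3⟩ := dom 2 (1 / 2) C (by norm_num)
  refine ⟨C, max X1 (max 3 ⌈Real.exp (max (max L1 1000) (max L2 L3))⌉₊), fun X hX K hK hKB a ha0 ha M hM ρ hρ hρM β H hH F hF1 hF2 => ?_⟩
  have hX1 : X1 ≤ X := le_trans (le_max_left _ _) hX
  have hX3 : 3 ≤ X := le_trans (le_trans (le_max_left _ _) (le_max_right _ _)) hX
  have hX0 : (0 : ℝ) < X := by exact_mod_cast (by omega : 0 < X)
  have hXL : Real.exp (max (max L1 1000) (max L2 L3)) ≤ X := (Nat.le_ceil _).trans (by exact_mod_cast le_trans (le_trans (le_max_right _ _) (le_max_right _ _)) hX)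
  have key := h1 X hX1 (K + 1) (by omega)
  set L : ℝ := Real.log X with hL
  have hLL : max (max L1 1000) (max L2 L3) ≤ L := by rwa [hL, Real.le_log_iff_exp_le hX0]
  have hL1 : L1 ≤ L := ((le_max_left _ _).trans (le_max_left _ _)).trans hLL
  have hLk : 1000 ≤ L := ((le_max_right _ _).trans (le_max_left _ _)).trans hLL
  have hL2 : L2 ≤ L := ((le_max_left _ _).trans (le_max_right _ _)).trans hLL
  have hL3 : L3 ≤ L := ((le_max_right _ _).trans (le_max_right _ _)).trans hLL
  have hL0 : 0 < L := by linarith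
  have hXe : Real.exp L = X := by rw [hL, Real.exp_log hX0]
  have hLA : ∀ n : ℕ, 1 ≤ L ^ n := fun n => one_le_pow₀ (by linarith)
  have hlogL : 1 ≤ Real.log L := by
    rw [Real.le_log_iff_exp_le hL0]
    have := Real.exp_one_lt_d9
    linarith
  have hKB' : ((K + 1 : ℕ) : ℝ) ≤ ((B + 1 : ℕ) : ℝ) * Real.log L := by
    push_cast
    rw [add_mul, one_mul]
    linarith
  set x3 : ℝ := (X : ℝ) ^ (1 / 3 : ℝ) with hx3
  have hx3e : x3 = Real.exp (L / 3) := by
    rw [hx3, ← hXe, ← Real.exp_mul]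
    congr 1
    ring
  have hx31 : 1 ≤ x3 := by
    rw [hx3e]
    exact Real.one_le_exp (by linarith)
  set h : ℕ := ⌈x3 * L ^ C⌉₊ with hh
  have hh1 : x3 * L ^ C ≤ h := Nat.le_ceil _
  have hh0 : 1 ≤ x3 * L ^ C := one_le_mul_of_one_le_of_one_le hx31 (hLA C)
  have hhn : (1 : ℝ) ≤ h := hh0.trans hh1
  have hh2 : (h : ℝ) ≤ 2 * (x3 * L ^ C) := by
    have := (Nat.ceil_lt_add_one (show 0 ≤ x3 * L ^ C by positivity)).le
    rw [← hh] at this
    linarith
  have hhX : (h : ℝ) ≤ X := by
    have h2 : 2 * L ^ C ≤ Real.exp (L / 2) := by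
      have := hd3 L hL3
      rwa [show 1 / 2 * L = L / 2 by ring] at this
    calc (h : ℝ) ≤ x3 * (2 * L ^ C) := by linarith
      _ ≤ Real.exp (L / 3) * Real.exp (L / 2) := by rw [hx3e]; gcongr
      _ = Real.exp (L / 3 + L / 2) := (Real.exp_add _ _).symm
      _ ≤ Real.exp L := Real.exp_le_exp.2 (by linarith)
      _ = X := hXe
  have hLT : L ^ T ≤ L ^ (2 * T + 1) := pow_le_pow_right₀ (by linarith) (by omega)
  have hLTT : 6 * (L ^ T * L ^ T) ≤ L ^ (2 * T + 1) := by
    rw [pow_succ, two_mul, pow_add]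
    have : 0 < L ^ T * L ^ T := by positivity
    nlinarith
  have hLT1 := hLA T
  have hLT3 : L ^ T ≤ L ^ T * L ^ T := le_mul_of_one_le_left (by positivity) hLT1
  set ca : ℕ := ⌈L ^ T⌉₊ with hca
  have hca1 : L ^ T ≤ ca := Nat.le_ceil _
  have hca2 : (ca : ℝ) ≤ L ^ T + 1 := (Nat.ceil_lt_add_one (by positivity)).le
  have haca : ∀ i, |a i| ≤ ca := by
    intro i
    have h2 : |(a i : ℝ)| ≤ ca := (ha i).trans hca1
    rw [← Int.cast_abs] at h2
    exact_mod_cast h2
  -- the extended system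
  set a' : Fin (K + 1) → ℤ := Fin.cons 1 a with ha'
  set M' : (Fin (K + 1) → ℤ) → (Fin (K + 1) → ℤ) := fun w => Fin.cons (w 0) (M (fun i => w i.succ - a i * w 0)) with hM'
  have hM'inj : Function.Injective M' := by
    intro w w' hww
    have e0 : w 0 = w' 0 := by
      have := congrFun hww 0
      simpa [hM'] using this
    have e1 : M (fun i => w i.succ - a i * w 0) = M (fun i => w' i.succ - a i * w' 0) := by
      funext i
      have := congrFun hww i.succ
      simpa [hM'] using this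
    have e2 := hM e1
    funext i
    refine Fin.cases e0 (fun j => ?_) i
    have e3 := congrFun e2 j
    rw [e0] at e3
    linarith
  set ρ' : ℕ := (ρ + 1) * (1 + ca) with hρ'
  have hρ'2 : (ρ' : ℝ) ≤ L ^ (2 * T + 1) := by
    rw [hρ']
    push_cast
    calc ((ρ : ℝ) + 1) * (1 + ca) ≤ (L ^ T + L ^ T) * (L ^ T + (L ^ T + L ^ T)) := by
          apply mul_le_mul (by linarith) (by linarith) (by positivity) (by positivity)
      _ = 6 * (L ^ T * L ^ T) := by ring
      _ ≤ _ := hLTT
  have hM'lip : ∀ (h : ℕ) (v w : Fin (K + 1) → ℤ), (∀ i, |v i - w i| ≤ h) → ∀ i, |M' v i - M' w i| ≤ ((ρ' * h : ℕ) : ℤ) := by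
    intro h v w hvw i
    refine Fin.cases ?_ (fun j => ?_) i
    · simp only [hM', Fin.cons_zero]
      refine (hvw 0).trans ?_
      have : h ≤ ρ' * h := by
        apply Nat.le_mul_of_pos_left
        rw [hρ']
        positivity
      exact_mod_cast this
    · simp only [hM', Fin.cons_succ]
      have e1 := hρM ((1 + ca) * h) (fun i => v i.succ - a i * v 0) (fun i => w i.succ - a i * w 0) (fun i => by
        have e2 : v i.succ - a i * v 0 - (w i.succ - a i * w 0) = (v i.succ - w i.succ) - a i * (v 0 - w 0) := by ring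
        rw [e2]
        refine (abs_sub _ _).trans ?_
        rw [abs_mul]
        have e3 := hvw i.succ
        have e4 := hvw 0
        have e5 := haca i
        have e6 : |a i| * |v 0 - w 0| ≤ ca * h := mul_le_mul e5 e4 (abs_nonneg _) (by positivity)
        push_cast
        linarith) j
      refine e1.trans ?_
      have : ρ * ((1 + ca) * h) ≤ ρ' * h := by
        rw [hρ', ← mul_assoc]
        apply Nat.mul_le_mul_right
        apply Nat.mul_le_mul_right
        omega
      exact_mod_cast this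
  set e : ℕ × (Fin K → ℤ) → (Fin (K + 1) → ℤ) := fun x => Fin.cons (x.1 : ℤ) (fun i => x.2 i + x.1 * a i) with he
  have heM : ∀ x, M' (e x) = Fin.cons (x.1 : ℤ) (M x.2) := by
    intro x
    have : (fun i => (e x) i.succ - a i * (e x) 0) = x.2 := by
      funext i
      simp only [he, Fin.cons_succ, Fin.cons_zero]
      ring
    simp only [hM', this]
    simp [he]
  have heinj : Function.Injective e := by
    intro x x' hxx
    have e0 : x.1 = x'.1 := by
      have := congrFun hxx 0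
      simp only [he, Fin.cons_zero] at this
      exact_mod_cast this
    have e1 : x.2 = x'.2 := by
      funext i
      have := congrFun hxx i.succ
      simp only [he, Fin.cons_succ, e0] at this
      linarith
    exact Prod.ext e0 e1
  set F' := (range h ×ˢ F).image e with hF'
  have hres := key (by exact_mod_cast hKB') a' (fun i => by
      refine Fin.cases ?_ (fun j => ?_) i
      · simp [ha']
      · simpa [ha'] using ha0 j) (fun i => by
      refine Fin.cases ?_ (fun j => ?_) i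
      · simp only [ha', Fin.cons_zero]
        simpa using hLA (2 * T + 1)
      · simp only [ha', Fin.cons_succ]
        exact (ha j).trans hLT) M' hM'inj ρ' hρ'2 hM'lip (Fin.cons 0 β) (Fin.cons h H) (fun i => by
      refine Fin.cases ?_ (fun j => ?_) i
      · simp only [Fin.cons_zero]
        exact hh1
      · simp only [Fin.cons_succ]
        exact hH j) F' (fun w hw i => by
      rw [hF', mem_image] at hw
      obtain ⟨x, hx, rfl⟩ := hw
      rw [mem_product, mem_range] at hx
      have hx1 : (x.1 : ℝ) ≤ X := by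
        have : (x.1 : ℝ) ≤ h := by exact_mod_cast hx.1.le
        linarith
      refine Fin.cases ?_ (fun j => ?_) i
      · simp only [he, Fin.cons_zero]
        rw [Int.cast_natCast, abs_of_nonneg (Nat.cast_nonneg _)]
        refine hx1.trans ?_
        exact le_mul_of_one_le_right hX0.le (hLA _)
      · simp only [he, Fin.cons_succ]
        push_cast
        refine (abs_add_le _ _).trans ?_
        rw [abs_mul, abs_of_nonneg (show (0 : ℝ) ≤ (x.1 : ℝ) by positivity)]
        calc |(x.2 j : ℝ)| + x.1 * |(a j : ℝ)| ≤ X * L ^ T + X * L ^ T := by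
              apply add_le_add (hF1 x.2 hx.2 j)
              exact mul_le_mul hx1 (ha j) (abs_nonneg _) hX0.le
          _ = X * (2 * L ^ T) := by ring
          _ ≤ X * L ^ (2 * T + 1) := by
              apply mul_le_mul_of_nonneg_left _ hX0.le
              linarith) (fun w hw i => by
      rw [hF', mem_image] at hw
      obtain ⟨x, hx, rfl⟩ := hw
      rw [mem_product, mem_range] at hx
      rw [heM]
      refine Fin.cases ?_ (fun j => ?_) i
      · simp only [Fin.cons_zero]
        have := hx.1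
        omega
      · simp only [Fin.cons_succ]
        exact hF2 x.2 hx.2 j)
  have hprod : ∏ i : Fin (K + 1), (((Fin.cons h H : Fin (K + 1) → ℕ) i : ℕ) : ℝ) = h * ∏ i, (H i : ℝ) := by
    rw [Fin.prod_univ_succ]
    simp
  rw [hprod] at hres
  -- bad systems give many bad systems
  have hsub : (range h ×ˢ (F.filter (fun v => BadD A X a' (Fin.cons 0 v)))).image e ⊆ F'.filter (fun v => BadD (A + 1) X a' v) := by
    intro w hw
    rw [mem_image] at hw
    obtain ⟨x, hx, rfl⟩ := hw
    rw [mem_product, mem_range, mem_filter] at hx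
    rw [mem_filter]
    refine ⟨mem_image_of_mem _ (mem_product.2 ⟨mem_range.2 hx.1, hx.2.1⟩), fun hF => ?_⟩
    apply hx.2.2
    have hx1 : (x.1 : ℝ) ≤ h := by exact_mod_cast hx.1.le
    refine fine_shift (T := 2 * T + 1) hLk (by
      have := hd2 L hL2
      rwa [one_mul] at this) (by omega) X hXe a' (Fin.cons 0 x.2) (fun i => by
      refine Fin.cases ?_ (fun j => ?_) i
      · simp only [ha', Fin.cons_zero]
        simpa using hLA (2 * T + 1)
      · simp only [ha', Fin.cons_succ]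
        exact (ha j).trans hLT) (fun i => by
      refine Fin.cases ?_ (fun j => ?_) i
      · simp only [Fin.cons_zero]
        simp only [Int.cast_zero, abs_zero]
        positivity
      · simp only [Fin.cons_succ]
        refine (hF1 x.2 hx.2.1 j).trans ?_
        calc X * L ^ T ≤ X * L ^ (2 * T + 1) := by gcongr
          _ ≤ 2 * X * L ^ (2 * T + 1) := by
              have : 0 ≤ X * L ^ (2 * T + 1) := by positivity
              linarith) x.1 (hd1 L hL1 (K + 1) hKB' x.1 (by
      rw [← hx3e]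
      linarith)) ?_
    have e2 : (fun i => (Fin.cons 0 x.2 : Fin (K + 1) → ℤ) i + x.1 * a' i) = e x := by
      funext i
      refine Fin.cases ?_ (fun j => ?_) i
      · simp [ha', he]
      · simp [ha', he]
    rw [e2]
    exact hF
  have hcard : (h : ℝ) * ((F.filter (fun v => BadD A X a' (Fin.cons 0 v))).card : ℝ) ≤ ((F'.filter (fun v => BadD (A + 1) X a' v)).card : ℝ) := by
    have h2 := card_le_card hsub
    rw [card_image_of_injective _ heinj, card_product, card_range] at h2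
    exact_mod_cast h2
  have hh0' : (0 : ℝ) < h := by linarith
  have h3 : (h : ℝ) * ((F.filter (fun v => BadD A X a' (Fin.cons 0 v))).card : ℝ) ≤ h * ((∏ i, (H i : ℝ)) / L ^ (A + 1)) := by
    refine (hcard.trans hres).trans (le_of_eq ?_)
    ring
  have h4 := le_of_mul_le_mul_left h3 hh0'
  refine h4.trans ?_
  apply div_le_div_of_nonneg_left (prod_nonneg fun i _ => Nat.cast_nonneg _) (by positivity)
  exact pow_le_pow_right₀ (by linarith) (by omega)

end

end Run7.h402.PD
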