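import Mathlib
import Pool.Agent.Run7.h402.PD.D11

/-!
# Chains of affine maps
-/

set_option autoImplicit false

open Finset
open Filter (Tendsto atTop)
open scoped Topology Classical

namespace Run7.h402.PD

open Run7.h402.PX Run7.h402.PV Run7.h402.PY
open Pool.Agent.N475.SP (dom)

noncomputable section

/-- `q, g_0 q + c_0, g_1 (g_0 q + c_0) + c_1, …` -/
def chain {k : ℕ} (g c : Fin k → ℤ) (q : ℤ) : ℕ → ℤ
  | 0 => q
  | i + 1 => if h : i < k then g ⟨i, h⟩ * chain g c q i + c ⟨i, h⟩ else 0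

/-- the slopes -/
def slp {k : ℕ} (g : Fin k → ℤ) : ℕ → ℤ
  | 0 => 1
  | i + 1 => if h : i < k then g ⟨i, h⟩ * slp g i else 0

theorem chain_eq {k : ℕ} (g c : Fin k → ℤ) (q : ℤ) (i : ℕ) (hi : i ≤ k) : chain g c q i = slp g i * q + chain g c 0 i := by
  induction i with
  | zero => simp [chain, slp]
  | succ i ih =>
    have h : i < k := hi
    rw [chain, dif_pos h, slp, dif_pos h, chain, dif_pos h, ih h.le]
    ring

/-- the constant terms of the forms in terms of the steps -/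
def stp {k : ℕ} (g v : Fin k → ℤ) : Fin k → ℤ :=
  fun i => (Fin.cons 0 v : Fin (k + 1) → ℤ) i.succ - g i * (Fin.cons 0 v : Fin (k + 1) → ℤ) i.castSucc

/-- the constant terms -/
def cst {k : ℕ} (g c : Fin k → ℤ) : Fin k → ℤ := fun i => chain g c 0 (i + 1)

theorem cons_cst {k : ℕ} (g c : Fin k → ℤ) (i : Fin (k + 1)) : (Fin.cons 0 (cst g c) : Fin (k + 1) → ℤ) i = chain g c 0 i := by
  refine Fin.cases ?_ (fun j => ?_) i
  · simp [chain]
  · simp [cst]

theorem stp_cst {k : ℕ} (g c : Fin k → ℤ) : stp g (cst g c) = c := by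
  funext i
  unfold stp
  rw [cons_cst, cons_cst]
  simp only [Fin.val_succ, Fin.val_castSucc]
  rw [chain, dif_pos i.isLt]
  ring

theorem stp_inj {k : ℕ} (g : Fin k → ℤ) : Function.Injective (stp g) := by
  intro v w h
  have key : ∀ i : Fin (k + 1), (Fin.cons 0 v : Fin (k + 1) → ℤ) i = (Fin.cons 0 w : Fin (k + 1) → ℤ) i := by
    intro i
    induction i using Fin.induction with
    | zero => simp
    | succ i ih =>
      have h1 := congrFun h i
      unfold stp at h1
      rw [ih] at h1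
      linarith
  funext i
  have := key i.succ
  simpa using this

theorem stp_lip {k : ℕ} (g : Fin k → ℤ) (G : ℕ) (hG : ∀ i, |g i| ≤ G) (h : ℕ) (v w : Fin k → ℤ) (hvw : ∀ i, |v i - w i| ≤ h) (i : Fin k) :
    |stp g v i - stp g w i| ≤ (((1 + G) * h : ℕ) : ℤ) := by
  have key : ∀ i : Fin (k + 1), |(Fin.cons 0 v : Fin (k + 1) → ℤ) i - (Fin.cons 0 w : Fin (k + 1) → ℤ) i| ≤ h := by
    intro i
    refine Fin.cases ?_ (fun j => ?_) i
    · simp
    · simpa using hvw j
  unfold stp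
  have e : (Fin.cons 0 v : Fin (k + 1) → ℤ) i.succ - g i * (Fin.cons 0 v : Fin (k + 1) → ℤ) i.castSucc -
      ((Fin.cons 0 w : Fin (k + 1) → ℤ) i.succ - g i * (Fin.cons 0 w : Fin (k + 1) → ℤ) i.castSucc) =
      ((Fin.cons 0 v : Fin (k + 1) → ℤ) i.succ - (Fin.cons 0 w : Fin (k + 1) → ℤ) i.succ) -
      g i * ((Fin.cons 0 v : Fin (k + 1) → ℤ) i.castSucc - (Fin.cons 0 w : Fin (k + 1) → ℤ) i.castSucc) := by ring
  rw [e]
  refine (abs_sub _ _).trans ?_
  rw [abs_mul]
  have h1 := key i.succ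
  have h2 := key i.castSucc
  have h3 : |g i| * |(Fin.cons 0 v : Fin (k + 1) → ℤ) i.castSucc - (Fin.cons 0 w : Fin (k + 1) → ℤ) i.castSucc| ≤ G * h :=
    mul_le_mul (hG i) h2 (abs_nonneg _) (by positivity)
  push_cast
  linarith

theorem slp_ne {k : ℕ} (g : Fin k → ℤ) (hg : ∀ i, g i ≠ 0) (i : ℕ) (hi : i ≤ k) : slp g i ≠ 0 := by
  induction i with
  | zero => simp [slp]
  | succ i ih =>
    have h : i < k := hi
    rw [slp, dif_pos h]
    exact mul_ne_zero (hg _) (ih h.le)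

theorem cst_le {k : ℕ} (g c : Fin k → ℤ) (hg : ∀ i, g i ≠ 0) (D : ℤ) (hc : ∀ i, |c i| ≤ D) (i : ℕ) (hi : i ≤ k) :
    |chain g c 0 i| ≤ |slp g i| * (i * D) := by
  induction i with
  | zero => simp [chain]
  | succ i ih =>
    have h : i < k := hi
    have h1 := slp_ne g hg (i + 1) hi
    rw [slp, dif_pos h] at h1
    have h2 : 1 ≤ |g ⟨i, h⟩ * slp g i| := Int.one_le_abs h1
    have hD : 0 ≤ D := (abs_nonneg _).trans (hc ⟨i, h⟩)
    rw [chain, dif_pos h, slp, dif_pos h]
    refine (abs_add_le _ _).trans ?_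
    rw [abs_mul]
    have h3 : |g ⟨i, h⟩| * |chain g c 0 i| ≤ |g ⟨i, h⟩| * (|slp g i| * (i * D)) := mul_le_mul_of_nonneg_left (ih h.le) (abs_nonneg _)
    have h4 := hc ⟨i, h⟩
    have h5 : D ≤ |g ⟨i, h⟩ * slp g i| * D := le_mul_of_one_le_left hD h2
    calc |g ⟨i, h⟩| * |chain g c 0 i| + |c ⟨i, h⟩| ≤ |g ⟨i, h⟩| * (|slp g i| * (i * D)) + |g ⟨i, h⟩ * slp g i| * D := by linarith
      _ = |g ⟨i, h⟩ * slp g i| * (((i + 1 : ℕ) : ℤ) * D) := by
          rw [abs_mul]
          push_cast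
          ring

/-- the forms of the chain -/
def Bch (A X : ℕ) {k : ℕ} (g c : Fin k → ℤ) : Prop :=
  BadD A X (fun i : Fin (k + 1) => slp g i) (fun i : Fin (k + 1) => chain g c 0 i)

/-- **almost all chains** -/
theorem almost_chains (B A T : ℕ) : ∃ C X0 : ℕ, ∀ X : ℕ, X0 ≤ X → ∀ k : ℕ, 1 ≤ k → (k : ℝ) ≤ B * Real.log (Real.log X) →
    ∀ g : Fin k → ℤ, (∀ i, g i ≠ 0) → (∀ i ≤ k, |(slp g i : ℝ)| ≤ Real.log X ^ T) →
    ∀ (β : Fin k → ℤ) (H : Fin k → ℕ), (∀ i, (X : ℝ) ^ (1 / 3 : ℝ) * Real.log X ^ C ≤ H i) → (∀ i, -(X : ℤ) ≤ β i ∧ β i + H i ≤ X) →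
    (((Fintype.piFinset (fun i : Fin k => Ico (β i) (β i + H i))).filter (fun c => Bch A X g c)).card : ℝ) ≤ (∏ i, (H i : ℝ)) / Real.log X ^ A := by
  obtain ⟨C, X1, h1⟩ := prime_skew B A (T + 1)
  refine ⟨C, max X1 (max 3 ⌈Real.exp (max 1000 (Real.exp B))⌉₊), fun X hX k hk hkB g hg hgT β H hH hβ => ?_⟩
  have hX1 : X1 ≤ X := le_trans (le_max_left _ _) hX
  have hX3 : 3 ≤ X := le_trans (le_trans (le_max_left _ _) (le_max_right _ _)) hX
  have hX0 : (0 : ℝ) < X := by exact_mod_cast (by omega : 0 < X)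
  have hXL : Real.exp (max 1000 (Real.exp B)) ≤ X := (Nat.le_ceil _).trans (by exact_mod_cast le_trans (le_trans (le_max_right _ _) (le_max_right _ _)) hX)
  have key := h1 X hX1 k hk hkB
  set L : ℝ := Real.log X with hL
  have hLL : max 1000 (Real.exp B) ≤ L := by rwa [hL, Real.le_log_iff_exp_le hX0]
  have hLk : 1000 ≤ L := (le_max_left _ _).trans hLL
  have hL0 : 0 < L := by linarith
  have hBL : (B : ℝ) ≤ Real.log L := by
    rw [Real.le_log_iff_exp_le hL0]
    exact (le_max_right _ _).trans hLL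
  have hℓ0 : 0 ≤ Real.log L := Real.log_nonneg (by linarith)
  have hkL : (k : ℝ) ≤ L := by
    have h7 := Real.quadratic_le_exp_of_nonneg (show 0 ≤ Real.log L / 2 by linarith)
    have h8 : Real.log L ≤ Real.exp (Real.log L / 2) := by nlinarith [sq_nonneg (Real.log L / 2 - 1)]
    have h4 : Real.exp (Real.log L / 2) * Real.exp (Real.log L / 2) = L := by
      rw [← Real.exp_add, add_halves, Real.exp_log hL0]
    calc (k : ℝ) ≤ B * Real.log L := hkB
      _ ≤ Real.log L * Real.log L := by gcongr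
      _ ≤ Real.exp (Real.log L / 2) * Real.exp (Real.log L / 2) := mul_le_mul h8 h8 hℓ0 (Real.exp_pos _).le
      _ = L := h4
  have hLA : ∀ n : ℕ, 1 ≤ L ^ n := fun n => one_le_pow₀ (by linarith)
  set G : ℕ := ⌊L ^ T⌋₊ with hG
  have hgG : ∀ i : Fin k, |g i| ≤ G := by
    intro i
    have h2 := hgT (i + 1) i.isLt
    have h3 := slp_ne g hg i i.isLt.le
    have h4 : |g i| ≤ |slp g (i + 1)| := by
      rw [slp, dif_pos i.isLt, abs_mul]
      exact le_mul_of_one_le_right (abs_nonneg _) (Int.one_le_abs h3)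
    have h5 : ((|g i| : ℤ) : ℝ) ≤ L ^ T := by
      refine le_trans ?_ h2
      rw [← Int.cast_abs]
      exact_mod_cast h4
    have h6 : (((|g i|).toNat : ℕ) : ℝ) ≤ L ^ T := by
      refine le_trans (le_of_eq ?_) h5
      have : (((|g i|).toNat : ℕ) : ℤ) = |g i| := Int.toNat_of_nonneg (abs_nonneg _)
      exact_mod_cast this
    have h7 := Nat.le_floor h6
    have : (((|g i|).toNat : ℕ) : ℤ) = |g i| := Int.toNat_of_nonneg (abs_nonneg _)
    rw [← this, hG]
    exact_mod_cast h7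
  have hρ : ((1 + G : ℕ) : ℝ) ≤ L ^ (T + 1) := by
    push_cast
    have h2 : (G : ℝ) ≤ L ^ T := Nat.floor_le (by positivity)
    have h3 := hLA T
    rw [pow_succ]
    nlinarith
  set F := (Fintype.piFinset (fun i : Fin k => Ico (β i) (β i + H i))).image (cst g) with hF
  have hcinj : Function.Injective (cst g) := by
    intro c c' h
    rw [← stp_cst g c, ← stp_cst g c', h]
  have hXT : ∀ i : Fin k, |(slp g (i + 1) : ℝ)| ≤ L ^ (T + 1) := by
    intro i
    refine (hgT (i + 1) i.isLt).trans ?_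
    exact pow_le_pow_right₀ (by linarith) (by omega)
  have hres := key (fun i => slp g (i + 1)) (fun i => slp_ne g hg _ i.isLt) hXT (stp g) (stp_inj g) (1 + G) hρ
    (fun h v w hvw i => stp_lip g G hgG h v w hvw i) β H hH F (fun v hv i => by
      rw [hF, mem_image] at hv
      obtain ⟨c, hc, rfl⟩ := hv
      have h2 := cst_le g c hg X (fun i => by
        have h3 := mem_Ico.1 (Fintype.mem_piFinset.1 hc i)
        have h4 := hβ i
        rw [abs_le]
        constructor <;> omega) (i + 1) i.isLt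
      unfold cst
      have h3 : |((chain g c 0 (i + 1) : ℤ) : ℝ)| ≤ |(slp g (i + 1) : ℝ)| * (((i + 1 : ℕ) : ℝ) * X) := by
        rw [← Int.cast_abs, ← Int.cast_abs]
        exact_mod_cast h2
      refine h3.trans ?_
      have h4 : (((i : ℕ) + 1 : ℕ) : ℝ) ≤ L := by
        refine le_trans ?_ hkL
        exact_mod_cast i.isLt
      calc |(slp g (i + 1) : ℝ)| * (((i + 1 : ℕ) : ℝ) * X) ≤ L ^ T * (L * X) := by
            apply mul_le_mul (hgT (i + 1) i.isLt) _ (by positivity) (by positivity)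
            exact mul_le_mul_of_nonneg_right h4 hX0.le
        _ = X * L ^ (T + 1) := by rw [pow_succ]; ring) (fun v hv i => by
      rw [hF, mem_image] at hv
      obtain ⟨c, hc, rfl⟩ := hv
      rw [stp_cst]
      exact mem_Ico.1 (Fintype.mem_piFinset.1 hc i))
  refine le_trans ?_ hres
  have e1 : ∀ c : Fin k → ℤ, Bch A X g c ↔ BadD A X (Fin.cons 1 (fun i : Fin k => slp g (i + 1)) : Fin (k + 1) → ℤ) (Fin.cons 0 (cst g c) : Fin (k + 1) → ℤ) := by
    intro c
    unfold Bch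
    have u1 : (fun i : Fin (k + 1) => slp g i) = (Fin.cons 1 (fun i : Fin k => slp g (i + 1)) : Fin (k + 1) → ℤ) := by
      funext i
      refine Fin.cases ?_ (fun j => ?_) i
      · simp [slp]
      · simp
    have u2 : (fun i : Fin (k + 1) => chain g c 0 i) = (Fin.cons 0 (cst g c) : Fin (k + 1) → ℤ) := by
      funext i
      exact (cons_cst g c i).symm
    rw [u1, u2]
  have hsub : ((Fintype.piFinset (fun i : Fin k => Ico (β i) (β i + H i))).filter (fun c => Bch A X g c)).image (cst g) ⊆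
      F.filter (fun v => BadD A X (Fin.cons 1 (fun i : Fin k => slp g (i + 1)) : Fin (k + 1) → ℤ) (Fin.cons 0 v : Fin (k + 1) → ℤ)) := by
    intro v hv
    rw [mem_image] at hv
    obtain ⟨c, hc, rfl⟩ := hv
    rw [mem_filter] at hc ⊢
    exact ⟨mem_image_of_mem _ hc.1, (e1 c).1 hc.2⟩
  have h2 := card_le_card hsub
  rw [card_image_of_injective _ hcinj] at h2
  exact_mod_cast h2

end

end Run7.h402.PD
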