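import Mathlib
import Pool.Agent.Run7.h402.PD.D11

/-!
# Sums of two members of constellations
-/

set_option autoImplicit false

open Finset
open Filter (Tendsto atTop)
open scoped Topology Classical

namespace Run7.h402.PD

open Run7.h402.PX Run7.h402.PV Run7.h402.PY
open Pool.Agent.N475.SP (dom)

noncomputable section

/-- the slopes of the forms `N - p`, `p + h_i` or `N - p + h_i` -/
def sgS {k : ℕ} (σ : Fin k → Bool) : Fin (k + 1) → ℤ := Fin.cons (-1) (fun i => if σ i then 1 else -1)

/-- the constant terms -/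
def cgS {k : ℕ} (σ : Fin k → Bool) (w : Fin (k + 1) → ℤ) : Fin (k + 1) → ℤ := Fin.cons (w 0) (fun i => w i.succ + if σ i then 0 else w 0)

/-- back -/
def ngS {k : ℕ} (σ : Fin k → Bool) (v : Fin (k + 1) → ℤ) : Fin (k + 1) → ℤ := Fin.cons (v 0) (fun i => v i.succ - if σ i then 0 else v 0)

theorem ng_cg {k : ℕ} (σ : Fin k → Bool) (w : Fin (k + 1) → ℤ) : ngS σ (cgS σ w) = w := by
  funext i
  refine Fin.cases ?_ (fun j => ?_) i
  · simp [ngS, cgS]
  · simp only [ngS, cgS, Fin.cons_succ, Fin.cons_zero]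
    ring

theorem cg_ng {k : ℕ} (σ : Fin k → Bool) (v : Fin (k + 1) → ℤ) : cgS σ (ngS σ v) = v := by
  funext i
  refine Fin.cases ?_ (fun j => ?_) i
  · simp [ngS, cgS]
  · simp only [ngS, cgS, Fin.cons_succ, Fin.cons_zero]
    ring

theorem ng_lip {k : ℕ} (σ : Fin k → Bool) (h : ℕ) (v w : Fin (k + 1) → ℤ) (hvw : ∀ i, |v i - w i| ≤ h) (i : Fin (k + 1)) :
    |ngS σ v i - ngS σ w i| ≤ ((2 * h : ℕ) : ℤ) := by
  refine Fin.cases ?_ (fun j => ?_) i
  · simp only [ngS, Fin.cons_zero]
    have := hvw 0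
    push_cast
    have : (0 : ℤ) ≤ h := by positivity
    linarith
  · simp only [ngS, Fin.cons_succ]
    have h1 := hvw j.succ
    have h2 := hvw 0
    push_cast
    split_ifs
    · simp only [sub_zero]
      have : (0 : ℤ) ≤ h := by positivity
      linarith
    · have e : v j.succ - v 0 - (w j.succ - w 0) = (v j.succ - w j.succ) - (v 0 - w 0) := by ring
      rw [e]
      refine (abs_sub _ _).trans ?_
      linarith

/-- the system of the forms is bad -/
def Bsum (A X : ℕ) {k : ℕ} (σ : Fin k → Bool) (w : Fin (k + 1) → ℤ) : Prop :=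
  BadD A X (Fin.cons 1 (sgS σ) : Fin (k + 2) → ℤ) (Fin.cons 0 (cgS σ w) : Fin (k + 2) → ℤ)

/-- **almost all sums** -/
theorem almost_sums (B A : ℕ) : ∃ C X0 : ℕ, ∀ X : ℕ, X0 ≤ X → ∀ k : ℕ, (k : ℝ) ≤ B * Real.log (Real.log X) →
    ∀ σ : Fin k → Bool, ∀ (β : Fin (k + 1) → ℤ) (H : Fin (k + 1) → ℕ), (∀ i, (X : ℝ) ^ (1 / 3 : ℝ) * Real.log X ^ C ≤ H i) →
    (∀ i, -(X : ℤ) ≤ β i ∧ β i + H i ≤ X) →
    (((Fintype.piFinset (fun i : Fin (k + 1) => Ico (β i) (β i + H i))).filter (fun w => Bsum A X σ w)).card : ℝ) ≤ (∏ i, (H i : ℝ)) / Real.log X ^ A := by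
  obtain ⟨C, X1, h1⟩ := prime_skew (B + 1) A 1
  refine ⟨C, max X1 (max 3 ⌈Real.exp 1000⌉₊), fun X hX k hkB σ β H hH hβ => ?_⟩
  have hX1 : X1 ≤ X := le_trans (le_max_left _ _) hX
  have hX3 : 3 ≤ X := le_trans (le_trans (le_max_left _ _) (le_max_right _ _)) hX
  have hX0 : (0 : ℝ) < X := by exact_mod_cast (by omega : 0 < X)
  have hXL : Real.exp 1000 ≤ X := (Nat.le_ceil _).trans (by exact_mod_cast le_trans (le_trans (le_max_right _ _) (le_max_right _ _)) hX)
  have key := h1 X hX1 (k + 1) (by omega)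
  set L : ℝ := Real.log X with hL
  have hLk : 1000 ≤ L := by rwa [hL, Real.le_log_iff_exp_le hX0]
  have hL0 : 0 < L := by linarith
  have hlogL : 1 ≤ Real.log L := by
    rw [Real.le_log_iff_exp_le hL0]
    have := Real.exp_one_lt_d9
    linarith
  have hKB' : ((k + 1 : ℕ) : ℝ) ≤ ((B + 1 : ℕ) : ℝ) * Real.log L := by
    push_cast
    rw [add_mul, one_mul]
    linarith
  set F := (Fintype.piFinset (fun i : Fin (k + 1) => Ico (β i) (β i + H i))).image (cgS σ) with hF
  have hcinj : Function.Injective (cgS σ) := by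
    intro c c' h
    rw [← ng_cg σ c, ← ng_cg σ c', h]
  have hninj : Function.Injective (ngS σ) := by
    intro c c' h
    rw [← cg_ng σ c, ← cg_ng σ c', h]
  have hsg : ∀ i, sgS σ i = 1 ∨ sgS σ i = -1 := by
    intro i
    refine Fin.cases ?_ (fun j => ?_) i
    · right
      simp [sgS]
    · simp only [sgS, Fin.cons_succ]
      split_ifs <;> simp
  have hres := key hKB' (sgS σ) (fun i => by rcases hsg i with h | h <;> rw [h] <;> norm_num) (fun i => by
      rw [pow_one]
      rcases hsg i with h | h <;> rw [h] <;> norm_num <;> linarith) (ngS σ) hninj 2 (by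
      rw [pow_one]
      push_cast
      linarith) (fun h v w hvw i => ng_lip σ h v w hvw i) β H hH F (fun v hv i => by
      rw [hF, mem_image] at hv
      obtain ⟨c, hc, rfl⟩ := hv
      have hcb : ∀ i, |(c i : ℝ)| ≤ X := by
        intro i
        have h3 := mem_Ico.1 (Fintype.mem_piFinset.1 hc i)
        have h4 := hβ i
        have h5 : |c i| ≤ (X : ℤ) := by
          rw [abs_le]
          constructor <;> omega
        rw [← Int.cast_abs]
        exact_mod_cast h5
      rw [pow_one]
      have h2X : 2 * (X : ℝ) ≤ X * L := by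
        rw [mul_comm]
        exact mul_le_mul_of_nonneg_left (by linarith) hX0.le
      refine Fin.cases ?_ (fun j => ?_) i
      · simp only [cgS, Fin.cons_zero]
        have := hcb 0
        linarith
      · simp only [cgS, Fin.cons_succ]
        have h2 := hcb j.succ
        have h3 := hcb 0
        push_cast
        refine (abs_add_le _ _).trans ?_
        split_ifs
        · simp only [Int.cast_zero, abs_zero]
          linarith
        · linarith) (fun v hv i => by
      rw [hF, mem_image] at hv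
      obtain ⟨c, hc, rfl⟩ := hv
      rw [ng_cg]
      exact mem_Ico.1 (Fintype.mem_piFinset.1 hc i))
  refine le_trans ?_ hres
  have hsub : ((Fintype.piFinset (fun i : Fin (k + 1) => Ico (β i) (β i + H i))).filter (fun w => Bsum A X σ w)).image (cgS σ) ⊆
      F.filter (fun v => BadD A X (Fin.cons 1 (sgS σ) : Fin (k + 1 + 1) → ℤ) (Fin.cons 0 v : Fin (k + 1 + 1) → ℤ)) := by
    intro v hv
    rw [mem_image] at hv
    obtain ⟨c, hc, rfl⟩ := hv
    rw [mem_filter] at hc ⊢
    exact ⟨mem_image_of_mem _ hc.1, hc.2⟩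
  have h2 := card_le_card hsub
  rw [card_image_of_injective _ hcinj] at h2
  exact_mod_cast h2

end

end Run7.h402.PD
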